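import Pool.Agent.W_93b186_h34.Final
import Pool.Agent.W_93b186_h29.Small

/-!
# Convex polygons with at most three side directions
-/

namespace SympH
open SympB

/-- convex polygons with at most three side directions which are not hexagons -/
theorem not_hexagons : ∀ (n : ℕ) (v : ZMod n → ℝ × ℝ), IsConvexPolygon v →
    AtMostThreeDirections v → n ≠ 6 → AP v := by
  intro n v hv hd hn
  have h6 := le_six hv hd
  have h3 := hv.1
  interval_cases n
  · exact ap_triangle v hv
  · exact ap_quad v hv hd
  · exact pentagons v hv hd
  · exact absurd rfl hn

end SympH
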