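import Mathlib

/-!
# A Cantor scheme of boxes

Nested boxes `Box (L m)` with two children each (`b = false, true`), the children maps `M m l b`
depend on a letter `l`.  Along every sequence of choices there is a point surviving all levels;
two levels at a time the two choices are separated in both coordinates, hence among the
uncountably many choices there is one for which both coordinates avoid a given countable set.
-/

namespace SympH

/-- two points share a coordinate -/
def Share (p q : ℝ × ℝ) : Prop := p.1 = q.1 ∨ p.2 = q.2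

def Box (L : ℝ) : Set (ℝ × ℝ) := {p | (0 ≤ p.1 ∧ p.1 ≤ L) ∧ 0 ≤ p.2 ∧ p.2 ≤ L}

theorem Share.symm {p q : ℝ × ℝ} (h : Share p q) : Share q p :=
  h.imp Eq.symm Eq.symm

theorem isCompact_Box (L : ℝ) : IsCompact (Box L) := by
  have : Box L = Set.Icc 0 L ×ˢ Set.Icc 0 L := by
    ext p
    simp only [Box, Set.mem_ofPred_eq, Set.mem_prod, Set.mem_Icc]
  rw [this]
  exact isCompact_Icc.prod isCompact_Icc

theorem Box_nonempty {L : ℝ} (hL : 0 ≤ L) : (Box L).Nonempty :=
  ⟨(0, 0), ⟨le_rfl, hL⟩, le_rfl, hL⟩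

/-- composition of the first maps -/
def CF (M : ℕ → ℝ × ℝ → ℝ × ℝ) : ℕ → ℝ × ℝ → ℝ × ℝ
  | 0 => id
  | m + 1 => CF M m ∘ M m

/-- the letters along a sequence of choices -/
def Let {α : Type*} (cl : ℕ → α → Bool → α) (a : α) (c : ℕ → Bool) : ℕ → α
  | 0 => a
  | m + 1 => cl m (Let cl a c m) (c m)

theorem Let_congr {α : Type*} (cl : ℕ → α → Bool → α) (a : α) (c c' : ℕ → Bool) (m : ℕ)
    (h : ∀ j < m, c j = c' j) : Let cl a c m = Let cl a c' m := by
  induction m with
  | zero => rfl
  | succ m ih =>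
    simp only [Let]
    rw [ih fun j hj => h j (Nat.lt_succ_of_lt hj), h m (Nat.lt_succ_self m)]

/-- the sequence of choices of a bit sequence -/
def Cho (ω : ℕ → Bool) (m : ℕ) : Bool := if m % 2 = 0 then ω (m / 2) else false

theorem Cho_even (ω : ℕ → Bool) (n : ℕ) : Cho ω (2 * n) = ω n := by
  unfold Cho
  rw [if_pos (by omega)]
  congr 1
  omega

theorem Cho_odd (ω : ℕ → Bool) (n : ℕ) : Cho ω (2 * n + 1) = false := by
  unfold Cho
  rw [if_neg (by omega)]

theorem Cho_congr (ω ω' : ℕ → Bool) (n : ℕ) (h : ∀ j < n, ω j = ω' j) (m : ℕ) (hm : m < 2 * n) :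
    Cho ω m = Cho ω' m := by
  unfold Cho
  split_ifs with h1
  · exact h _ (by omega)
  · rfl

theorem not_countable_bits : ¬ Countable (ℕ → Bool) := by
  intro h
  obtain ⟨f, hf⟩ := exists_surjective_nat (ℕ → Bool)
  obtain ⟨m, hm⟩ := hf fun n => !(f n n)
  have h1 : f m m = !(f m m) := congrFun hm m
  cases h2 : f m m <;> rw [h2] at h1 <;> exact absurd h1 (by decide)

section
variable {α : Type*} {L : ℕ → ℝ} {V : ℕ → α → Prop} {cl : ℕ → α → Bool → α}
  {M : ℕ → α → Bool → ℝ × ℝ → ℝ × ℝ}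

/-- for a fixed sequence of choices `c` (and the letters `l` it gives) there is a surviving
sequence of points.

Proof: `F 0 = id`, `F (m+1) = F m ∘ M m (l m) (c m)`; the sets `F m '' Box (L m)` are nonempty,
compact and decreasing; take `p₀` in the intersection, and `p m ∈ Box (L m)` with
`F m (p m) = p₀`; by injectivity of `F m`, `p m = M m (l m) (c m) (p (m+1))`. -/
theorem exists_surviving (hL : ∀ m, 0 ≤ L m) (M' : ℕ → ℝ × ℝ → ℝ × ℝ)
    (hcont : ∀ m, Continuous (M' m)) (hinj : ∀ m, Function.Injective (M' m))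
    (hmap : ∀ m, ∀ p ∈ Box (L (m + 1)), M' m p ∈ Box (L m)) :
    ∃ p : ℕ → ℝ × ℝ, (∀ m, p m ∈ Box (L m)) ∧ ∀ m, p m = M' m (p (m + 1)) := by
  set K : ℕ → Set (ℝ × ℝ) := fun m => CF M' m '' Box (L m) with hK
  have hFc : ∀ m, Continuous (CF M' m) := by
    intro m
    induction m with
    | zero => exact continuous_id
    | succ m ih => exact ih.comp (hcont m)
  have hFi : ∀ m, Function.Injective (CF M' m) := by
    intro m
    induction m with
    | zero => exact Function.injective_id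
    | succ m ih => exact ih.comp (hinj m)
  have hKc : ∀ m, IsCompact (K m) := fun m => (isCompact_Box (L m)).image (hFc m)
  obtain ⟨p0, hp0⟩ := IsCompact.nonempty_iInter_of_sequence_nonempty_isCompact_isClosed K
    (by
      rintro m _ ⟨p, hp, rfl⟩
      exact ⟨M' m p, hmap m p hp, rfl⟩)
    (fun m => (Box_nonempty (hL m)).image _) (hKc 0) (fun m => (hKc m).isClosed)
  rw [Set.mem_iInter] at hp0
  choose p hp1 hp2 using hp0
  refine ⟨p, hp1, fun m => ?_⟩
  apply hFi m
  rw [hp2 m]
  exact (hp2 (m + 1)).symm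

/-- Proof.  For `ω : ℕ → Bool` let `c (2n) = ω n`, `c (2n+1) = false`, `l` the resulting letters,
`p ω` the surviving sequence.  If `ω ≠ ω'`, let `n` be minimal with `ω n ≠ ω' n`.  The letters and
choices agree below `2n`; if `p ω 0` and `p ω' 0` share a coordinate, then by `hshare` and
induction so do `p ω (2n)` and `p ω' (2n)`, contradicting `hdisj`.  So `ω ↦ (p ω 0).1` and
`ω ↦ (p ω 0).2` are injective; the preimages of the countable set `G` are countable, and
`ℕ → Bool` is uncountable. -/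
theorem cantor_scheme (hL : ∀ m, 0 ≤ L m) (hcl : ∀ m l b, V m l → V (m + 1) (cl m l b))
    (hcont : ∀ m l b, Continuous (M m l b))
    (hinj : ∀ m l b, V m l → Function.Injective (M m l b))
    (hmap : ∀ m l b, V m l → ∀ p ∈ Box (L (m + 1)), M m l b p ∈ Box (L m))
    (hshare : ∀ m l b p q, V m l → Share (M m l b p) (M m l b q) → Share p q)
    (hdisj : ∀ m l p q, V m l → p ∈ Box (L (m + 2)) → q ∈ Box (L (m + 2)) →
      ¬ Share (M m l false (M (m + 1) (cl m l false) false p))
        (M m l true (M (m + 1) (cl m l true) false q)))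
    (a : α) (ha : V 0 a) (G : Set ℝ) (hG : G.Countable) :
    ∃ (c : ℕ → Bool) (l : ℕ → α) (p : ℕ → ℝ × ℝ), l 0 = a ∧
      (∀ m, l (m + 1) = cl m (l m) (c m)) ∧ (∀ m, V m (l m)) ∧ (∀ m, p m ∈ Box (L m)) ∧
      (∀ m, p m = M m (l m) (c m) (p (m + 1))) ∧ (p 0).1 ∉ G ∧ (p 0).2 ∉ G := by
  have hV : ∀ (c : ℕ → Bool) (m : ℕ), V m (Let cl a c m) := by
    intro c m
    induction m with
    | zero => exact ha
    | succ m ih => exact hcl m _ _ ih
  have hex : ∀ ω : ℕ → Bool, ∃ p : ℕ → ℝ × ℝ, (∀ m, p m ∈ Box (L m)) ∧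
      ∀ m, p m = M m (Let cl a (Cho ω) m) (Cho ω m) (p (m + 1)) := by
    intro ω
    exact exists_surviving hL (fun m => M m (Let cl a (Cho ω) m) (Cho ω m)) (fun m => hcont m _ _)
      (fun m => hinj m _ _ (hV _ m)) (fun m => hmap m _ _ (hV _ m))
  choose p hp1 hp2 using hex
  have key : ∀ ω ω' : ℕ → Bool, ω ≠ ω' → ¬ Share (p ω 0) (p ω' 0) := by
    intro ω ω' hne hS
    have hex' : ∃ n, ω n ≠ ω' n := by
      by_contra hcon
      push Not at hcon
      exact hne (funext hcon)
    classical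
    set n := Nat.find hex' with hn
    have hn1 : ω n ≠ ω' n := Nat.find_spec hex'
    have hn2 : ∀ j < n, ω j = ω' j := fun j hj => not_not.1 (Nat.find_min hex' hj)
    have hl : ∀ m ≤ 2 * n, Let cl a (Cho ω) m = Let cl a (Cho ω') m := fun m hm =>
      Let_congr cl a _ _ m fun j hj => Cho_congr ω ω' n hn2 j (lt_of_lt_of_le hj hm)
    have hsh : ∀ m ≤ 2 * n, Share (p ω m) (p ω' m) := by
      intro m
      induction m with
      | zero => exact fun _ => hS
      | succ m ih =>
        intro hm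
        have h1 := ih (by omega)
        rw [hp2 ω m, hp2 ω' m, ← hl m (by omega), ← Cho_congr ω ω' n hn2 m (by omega)] at h1
        exact hshare m _ _ _ _ (hV _ m) h1
    have h2 := hsh (2 * n) le_rfl
    have e : ∀ ω : ℕ → Bool, p ω (2 * n) = M (2 * n) (Let cl a (Cho ω) (2 * n)) (ω n)
        (M (2 * n + 1) (cl (2 * n) (Let cl a (Cho ω) (2 * n)) (ω n)) false (p ω (2 * n + 2))) := by
      intro ω
      have e1 := hp2 ω (2 * n)
      have e2 := hp2 ω (2 * n + 1)
      rw [Cho_even] at e1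
      rw [Cho_odd] at e2
      have e3 : Let cl a (Cho ω) (2 * n + 1) = cl (2 * n) (Let cl a (Cho ω) (2 * n)) (ω n) := by
        simp only [Let]
        rw [Cho_even]
      rw [e3] at e2
      rw [e1, e2]
    rw [e ω, e ω', ← hl (2 * n) le_rfl] at h2
    cases h3 : ω n <;> cases h4 : ω' n
    · exact hn1 (h3.trans h4.symm)
    · rw [h3, h4] at h2
      exact hdisj (2 * n) _ _ _ (hV _ _) (hp1 ω _) (hp1 ω' _) h2
    · rw [h3, h4] at h2
      exact hdisj (2 * n) _ _ _ (hV _ _) (hp1 ω' _) (hp1 ω _) h2.symm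
    · exact hn1 (h3.trans h4.symm)
  have i1 : Function.Injective fun ω => (p ω 0).1 := by
    intro ω ω' h
    by_contra hne
    exact key ω ω' hne (Or.inl h)
  have i2 : Function.Injective fun ω => (p ω 0).2 := by
    intro ω ω' h
    by_contra hne
    exact key ω ω' hne (Or.inr h)
  have hc := (hG.preimage i1).union (hG.preimage i2)
  obtain ⟨ω, hω⟩ : ∃ ω, ω ∉ ((fun ω => (p ω 0).1) ⁻¹' G ∪ (fun ω => (p ω 0).2) ⁻¹' G) := by
    by_contra hcon
    push Not at hcon
    apply not_countable_bits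
    rw [← Set.countable_univ_iff]
    exact hc.mono fun ω _ => hcon ω
  rw [Set.mem_union, not_or] at hω
  exact ⟨Cho ω, Let cl a (Cho ω), p ω, rfl, fun _ => rfl, hV _, hp1 ω, hp2 ω, hω.1, hω.2⟩

end

end SympH
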