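import Mathlib

/-!
# The core dynamics of symplectic billiards in centrally symmetric hexagons

`ℓ : Fin 3 → ℝ` are the three side lengths (affine lengths) of a centrally symmetric hexagon.
A directed point `⟨t, a, d⟩` (`a ≠ t`): a point of a side of type `t` at distance `d` from the end
of this side which is adjacent to a side of type `a`.
-/

namespace SympH

/-- the third letter -/
def th (a b : Fin 3) : Fin 3 := -a - b

/-- `i, j, k` are the three letters -/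
def Tri (i j k : Fin 3) : Prop := i ≠ j ∧ j ≠ k ∧ i ≠ k

theorem Tri.th_eq : ∀ {i j k : Fin 3}, Tri i j k → th i j = k ∧ th j i = k ∧ th i k = j ∧
    th k i = j ∧ th j k = i ∧ th k j = i := by
  unfold Tri th; decide

theorem Tri.cases : ∀ {i j k : Fin 3}, Tri i j k → ∀ a : Fin 3, a = i ∨ a = j ∨ a = k := by
  unfold Tri; decide

theorem tri_of_ne : ∀ {a b : Fin 3}, a ≠ b → Tri a b (th a b) := by unfold Tri th; decide

theorem Tri.ij {i j k : Fin 3} (h : Tri i j k) : i ≠ j := h.1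
theorem Tri.jk {i j k : Fin 3} (h : Tri i j k) : j ≠ k := h.2.1
theorem Tri.ik {i j k : Fin 3} (h : Tri i j k) : i ≠ k := h.2.2

theorem Tri.swap {i j k : Fin 3} (h : Tri i j k) : Tri j i k := ⟨h.1.symm, h.2.2, h.2.1⟩
theorem Tri.rot {i j k : Fin 3} (h : Tri i j k) : Tri j k i := ⟨h.2.1, h.2.2.symm, h.1.symm⟩

/-- A directed point: type `ty`, facing letter `fc`, distance `d` -/
@[ext] structure Pt where
  ty : Fin 3
  fc : Fin 3
  d : ℝ

/-- the chord dynamics on directed points -/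
noncomputable def g (ℓ : Fin 3 → ℝ) (v : Pt) : Pt :=
  if v.d < ℓ (th v.ty v.fc) then ⟨th v.ty v.fc, v.ty, ℓ (th v.ty v.fc) - v.d⟩
  else ⟨v.ty, th v.ty v.fc, v.d - ℓ (th v.ty v.fc)⟩

/-- the same point, with the other direction -/
def rho (ℓ : Fin 3 → ℝ) (v : Pt) : Pt := ⟨v.ty, th v.ty v.fc, ℓ v.ty - v.d⟩

/-- valid and generic directed points (`G` is a subgroup containing the lengths) -/
structure Ok (G : AddSubgroup ℝ) (ℓ : Fin 3 → ℝ) (v : Pt) : Prop where
  ne : v.ty ≠ v.fc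
  pos : 0 < v.d
  lt : v.d < ℓ v.ty
  gen : v.d ∉ G

/-- the standing assumptions on the lengths -/
structure Lens (G : AddSubgroup ℝ) (ℓ : Fin 3 → ℝ) : Prop where
  pos : ∀ a, 0 < ℓ a
  mem : ∀ a, ℓ a ∈ G

section
variable {G : AddSubgroup ℝ} {ℓ : Fin 3 → ℝ}

theorem sub_gen {x y : ℝ} (hx : x ∈ G) (hy : y ∉ G) : x - y ∉ G := fun h =>
  hy (by simpa using G.sub_mem hx h)

theorem sub_gen' {x y : ℝ} (hx : x ∈ G) (hy : y ∉ G) : y - x ∉ G := fun h =>
  hy (by simpa using G.add_mem h hx)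

theorem add_gen {x y : ℝ} (hx : x ∈ G) (hy : y ∉ G) : y + x ∉ G := fun h =>
  hy (by simpa using G.sub_mem h hx)

theorem gen_ne {x y : ℝ} (hx : x ∈ G) (hy : y ∉ G) : y ≠ x := fun h => hy (h ▸ hx)

theorem g_lt {t a m : Fin 3} (h : Tri t a m) {d : ℝ} (hd : d < ℓ m) :
    g ℓ ⟨t, a, d⟩ = ⟨m, t, ℓ m - d⟩ := by
  simp [g, h.th_eq.1, hd]

theorem g_gt {t a m : Fin 3} (h : Tri t a m) {d : ℝ} (hd : ℓ m < d) :
    g ℓ ⟨t, a, d⟩ = ⟨t, m, d - ℓ m⟩ := by
  simp [g, h.th_eq.1, not_lt.2 hd.le]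

theorem g_ok (hL : Lens G ℓ) {v : Pt} (hv : Ok G ℓ v) : Ok G ℓ (g ℓ v) := by
  obtain ⟨t, a, d⟩ := v
  obtain ⟨h1, h2, h3, h4⟩ := hv
  simp only at h1 h2 h3 h4
  have htri := tri_of_ne h1
  rcases lt_or_gt_of_ne (gen_ne (hL.mem (th t a)) h4) with h | h
  · rw [g_lt htri h]
    exact ⟨htri.ik.symm, by simpa using h, by simpa using h2, sub_gen (hL.mem _) h4⟩
  · rw [g_gt htri h]
    exact ⟨htri.ik, by simpa using h, by simp only; linarith [hL.pos (th t a)],
      sub_gen' (hL.mem _) h4⟩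

theorem rho_ok (hL : Lens G ℓ) {v : Pt} (hv : Ok G ℓ v) : Ok G ℓ (rho ℓ v) := by
  obtain ⟨t, a, d⟩ := v
  obtain ⟨h1, h2, h3, h4⟩ := hv
  simp only at h1 h2 h3 h4
  have htri := tri_of_ne h1
  exact ⟨htri.ik, by simpa [rho] using h3, by simpa [rho] using h2, sub_gen (hL.mem _) h4⟩

theorem rho_rho {v : Pt} (hv : v.ty ≠ v.fc) : rho ℓ (rho ℓ v) = v := by
  obtain ⟨t, a, d⟩ := v
  have htri := tri_of_ne hv
  simp only [rho] at *
  have h2 := htri.th_eq.2.2.1
  rw [h2]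
  simp

/-- `g ρ g = ρ` -/
theorem g_rho_g (hL : Lens G ℓ) {v : Pt} (hv : Ok G ℓ v) : g ℓ (rho ℓ (g ℓ v)) = rho ℓ v := by
  obtain ⟨t, a, d⟩ := v
  obtain ⟨h1, h2, h3, h4⟩ := hv
  simp only at h1 h2 h3 h4
  have htri := tri_of_ne h1
  set m := th t a with hm
  obtain ⟨e1, e2, e3, e4, e5, e6⟩ := htri.th_eq
  rcases lt_or_gt_of_ne (gen_ne (hL.mem m) h4) with h | h
  · rw [g_lt htri h]
    have : rho ℓ ⟨m, t, ℓ m - d⟩ = ⟨m, a, d⟩ := by simp [rho, e4]
    rw [this, g_lt (m := t) ⟨htri.jk.symm, htri.ij.symm, htri.ik.symm⟩ h3]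
    simp [rho, e1]
  · rw [g_gt htri h]
    have : rho ℓ ⟨t, m, d - ℓ m⟩ = ⟨t, a, ℓ t + ℓ m - d⟩ := by
      simp only [rho, e3, Pt.mk.injEq, true_and]; ring
    rw [this, g_gt htri (by linarith)]
    simp only [rho, e1, Pt.mk.injEq, true_and]; ring

/-! ### First hits -/

/-- `Hit ℓ K n v w`: the orbit `g v, g² v, …` hits the type `K` for the first time at step `n`,
in the point `w` -/
def Hit (ℓ : Fin 3 → ℝ) (K : Fin 3) : ℕ → Pt → Pt → Prop
  | 0, _, _ => False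
  | n + 1, v, w => (n = 0 ∧ (g ℓ v).ty = K ∧ g ℓ v = w) ∨ ((g ℓ v).ty ≠ K ∧ Hit ℓ K n (g ℓ v) w)

theorem Hit.ok (hL : Lens G ℓ) {K : Fin 3} : ∀ {n : ℕ} {v w : Pt}, Hit ℓ K n v w → Ok G ℓ v →
    Ok G ℓ w ∧ w.ty = K := by
  intro n
  induction n with
  | zero => intro v w h; exact h.elim
  | succ n ih =>
    intro v w h hv
    rcases h with ⟨_, h1, h2⟩ | ⟨_, h2⟩
    · subst h2; exact ⟨g_ok hL hv, h1⟩
    · exact ih h2 (g_ok hL hv)

theorem Hit.one {K : Fin 3} {v w : Pt} (h : g ℓ v = w) (hw : w.ty = K) : Hit ℓ K 1 v w :=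
  Or.inl ⟨rfl, by rw [h]; exact hw, h⟩

theorem Hit.cons {K : Fin 3} {n : ℕ} {u v w : Pt} (h : g ℓ u = v) (hv : v.ty ≠ K)
    (hh : Hit ℓ K n v w) : Hit ℓ K (n + 1) u w :=
  Or.inr (by rw [h]; exact ⟨hv, hh⟩)

/-- a step to a point of another type -/
theorem Hit.tail {K : Fin 3} {n : ℕ} {u v w : Pt} (hh : Hit ℓ K n u w) (h : g ℓ u = v)
    (hv : v.ty ≠ K) : ∃ m, n = m + 1 ∧ Hit ℓ K m v w := by
  cases n with
  | zero => exact hh.elim
  | succ n =>
    rcases hh with ⟨_, h1, _⟩ | ⟨_, h2⟩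
    · rw [h] at h1; exact absurd h1 hv
    · rw [h] at h2; exact ⟨n, rfl, h2⟩

/-- a step to a point of the type in question -/
theorem Hit.head {K : Fin 3} {n : ℕ} {u v w : Pt} (hh : Hit ℓ K n u w) (h : g ℓ u = v)
    (hv : v.ty = K) : n = 1 ∧ w = v := by
  cases n with
  | zero => exact hh.elim
  | succ n =>
    rcases hh with ⟨h0, _, h2⟩ | ⟨h1, _⟩
    · rw [h] at h2; exact ⟨by omega, h2.symm⟩
    · rw [h] at h1; exact absurd hv h1

theorem Hit.pos {K : Fin 3} {n : ℕ} {u w : Pt} (hh : Hit ℓ K n u w) : 1 ≤ n := by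
  cases n with
  | zero => exact hh.elim
  | succ n => omega

theorem Hit.unique {K : Fin 3} : ∀ {n m : ℕ} {u w w' : Pt}, Hit ℓ K n u w → Hit ℓ K m u w' →
    n = m ∧ w = w' := by
  intro n
  induction n with
  | zero => intro m u w w' h; exact h.elim
  | succ n ih =>
    intro m u w w' h h'
    by_cases hu : (g ℓ u).ty = K
    · have h1 := h.head rfl hu
      have h2 := h'.head rfl hu
      exact ⟨by omega, by rw [h1.2, h2.2]⟩
    · obtain ⟨a, ha, h1⟩ := h.tail rfl hu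
      obtain ⟨b, hb, h2⟩ := h'.tail rfl hu
      obtain rfl : n = a := by omega
      obtain ⟨e1, e2⟩ := ih h1 h2
      exact ⟨by omega, e2⟩

/-- existence of the first hit from existence of a hit -/
theorem Hit.exists {K : Fin 3} : ∀ {n : ℕ} {u : Pt}, 1 ≤ n → ((g ℓ)^[n] u).ty = K →
    ∃ m w, m ≤ n ∧ Hit ℓ K m u w := by
  intro n
  induction n with
  | zero => intro u h; omega
  | succ n ih =>
    intro u _ h
    by_cases hu : (g ℓ u).ty = K
    · exact ⟨1, g ℓ u, by omega, Hit.one rfl hu⟩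
    · rw [Function.iterate_succ_apply] at h
      rcases Nat.eq_zero_or_pos n with h0 | h0
      · subst h0; exact absurd h hu
      · obtain ⟨m, w, hm, hh⟩ := ih h0 h
        exact ⟨m + 1, w, by omega, Hit.cons rfl hu hh⟩

/-- Time reversal of a first return. -/
theorem Hit.rev (hL : Lens G ℓ) {K : Fin 3} {n : ℕ} {v w : Pt} (hv : Ok G ℓ v) (hvK : v.ty = K)
    (h : Hit ℓ K n v w) : Hit ℓ K n (rho ℓ w) (rho ℓ v) := by
  -- generalize: if `x` is any point with `Hit K m x w`, then for every `z`, `a`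
  -- with `Hit K a (rho x) z` or (`x` itself of type `K`, `z = rho x`) ...
  have key : ∀ {m : ℕ} {x w : Pt}, Ok G ℓ x → Hit ℓ K m x w →
      ∀ {a : ℕ} {z : Pt}, ((x.ty = K ∧ a = 0 ∧ z = rho ℓ x) ∨ (x.ty ≠ K ∧ Hit ℓ K a (rho ℓ x) z)) →
        Hit ℓ K (a + m) (rho ℓ w) z := by
    intro m
    induction m with
    | zero => intro x w _ h; exact h.elim
    | succ m ih =>
      intro x w hx h a z hz
      -- the step `rho (g x) → rho x`
      have hstep : g ℓ (rho ℓ (g ℓ x)) = rho ℓ x := g_rho_g hL hx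
      have h1 : Hit ℓ K (a + 1) (rho ℓ (g ℓ x)) z := by
        rcases hz with ⟨h1, h2, h3⟩ | ⟨h1, h2⟩
        · subst h2; subst h3
          exact Hit.one hstep (by simpa [rho] using h1)
        · exact Hit.cons hstep (by simpa [rho] using h1) h2
      rcases h with ⟨h2, _, h4⟩ | ⟨h2, h3⟩
      · subst h4; subst h2; simpa using h1
      · have := ih (g_ok hL hx) h3 (a := a + 1) (z := z) (Or.inr ⟨h2, h1⟩)
        have e : a + 1 + m = a + (m + 1) := by ring
        rwa [e] at this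
  simpa using key hv h (a := 0) (z := rho ℓ v) (Or.inl ⟨hvK, rfl, rfl⟩)

/-! ### The derived systems `D_K` -/

/-- A state of the derived system `D_K`: two points of type `K` facing `l`, at distances `e` (the
mover) and `f` -/
@[ext] structure DS where
  l : Fin 3
  e : ℝ
  f : ℝ

structure DOk (G : AddSubgroup ℝ) (ℓ : Fin 3 → ℝ) (K : Fin 3) (s : DS) : Prop where
  ne : K ≠ s.l
  e0 : 0 < s.e
  e1 : s.e < ℓ K
  f0 : 0 < s.f
  f1 : s.f < ℓ K
  eg : s.e ∉ G
  fg : s.f ∉ G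

/-- one step of the derived system, when the mover returns to the point `v` -/
noncomputable def nxt (ℓ : Fin 3 → ℝ) (K : Fin 3) (s : DS) (v : Pt) : DS :=
  if v.fc = s.l then ⟨s.l, s.f, v.d⟩ else ⟨v.fc, ℓ K - s.f, v.d⟩

/-- one step of the derived system `D_K` (taking `n` steps of `g`) -/
def SRel (ℓ : Fin 3 → ℝ) (K : Fin 3) (n : ℕ) (s s' : DS) : Prop :=
  ∃ v, Hit ℓ K n ⟨K, s.l, s.e⟩ v ∧ s' = nxt ℓ K s v

theorem SRel.ok (hL : Lens G ℓ) {K : Fin 3} {n : ℕ} {s s' : DS} (h : SRel ℓ K n s s')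
    (hs : DOk G ℓ K s) : DOk G ℓ K s' := by
  obtain ⟨v, hv, rfl⟩ := h
  obtain ⟨h1, h2⟩ := hv.ok hL ⟨hs.ne, hs.e0, hs.e1, hs.eg⟩
  obtain ⟨c1, c2, c3, c4⟩ := h1
  subst h2
  unfold nxt
  split_ifs with h
  · exact ⟨by rw [← h]; exact c1, hs.f0, hs.f1, c2, c3, hs.fg, c4⟩
  · exact ⟨c1, by simpa using hs.f1, by simpa using hs.f0, c2, c3,
      sub_gen (hL.mem _) hs.fg, c4⟩

/-- a chain of steps of the derived system, with the total number of steps of `g` -/
inductive Chain (ℓ : Fin 3 → ℝ) (K : Fin 3) : ℕ → DS → DS → Prop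
  | one {n : ℕ} {s s' : DS} : SRel ℓ K n s s' → Chain ℓ K n s s'
  | cons {n m : ℕ} {s s' s'' : DS} : SRel ℓ K n s s' → Chain ℓ K m s' s'' →
      Chain ℓ K (n + m) s s''

/-- all generic states of `D_K` are periodic, with bounded periods (measured in steps of `g`) -/
def PerD (G : AddSubgroup ℝ) (ℓ : Fin 3 → ℝ) (K : Fin 3) : Prop :=
  ∃ B : ℕ, ∀ s, DOk G ℓ K s → ∃ n ≤ B, Chain ℓ K n s s

/-- every generic point hits type `K` within a bounded time -/
def BR (G : AddSubgroup ℝ) (ℓ : Fin 3 → ℝ) (K : Fin 3) : Prop :=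
  ∃ B : ℕ, ∀ v, Ok G ℓ v → ∃ n w, n ≤ B ∧ Hit ℓ K n v w

/-! ### Bounded reachability for a map -/

/-- `b` is reached from `a` after at least one and at most `B` steps of `F` -/
def R {A : Type*} (F : A → A) (B : ℕ) (a b : A) : Prop := ∃ n, 1 ≤ n ∧ n ≤ B ∧ F^[n] a = b

section
variable {A : Type*} {F : A → A}

theorem R.mono {B B' : ℕ} {a b : A} (h : R F B a b) (hB : B ≤ B') : R F B' a b := by
  obtain ⟨n, h1, h2, h3⟩ := h
  exact ⟨n, h1, h2.trans hB, h3⟩

theorem R.trans {B B' : ℕ} {a b c : A} (h : R F B a b) (h' : R F B' b c) : R F (B + B') a c := by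
  obtain ⟨n, h1, h2, h3⟩ := h
  obtain ⟨m, g1, g2, g3⟩ := h'
  refine ⟨m + n, by omega, by omega, ?_⟩
  rw [Function.iterate_add_apply, h3, g3]

theorem R.of {n : ℕ} {a b : A} (hn : 1 ≤ n) (h : F^[n] a = b) : R F n a b := ⟨n, hn, le_rfl, h⟩

theorem R.one {a b : A} (h : F a = b) : R F 1 a b := ⟨1, le_rfl, le_rfl, h⟩

/-- If `b` is reached from `a`, `b` is periodic and `F` is injective along a forward invariant
set, then `a` is periodic. -/
theorem R.per_of {B B' : ℕ} {a b : A} {P : A → Prop} (hP : ∀ x, P x → P (F x))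
    (hinj : ∀ x y, P x → P y → F x = F y → x = y) (ha : P a)
    (h : R F B a b) (hb : R F B' b b) : R F B' a a := by
  obtain ⟨n, h1, h2, h3⟩ := h
  obtain ⟨m, g1, g2, g3⟩ := hb
  refine ⟨m, g1, g2, ?_⟩
  have hPn : ∀ n : ℕ, ∀ x, P x → P (F^[n] x) := by
    intro n
    induction n with
    | zero => intro x hx; exact hx
    | succ n ih => intro x hx; rw [Function.iterate_succ_apply]; exact ih _ (hP x hx)
  have hi : ∀ n : ℕ, ∀ x y, P x → P y → F^[n] x = F^[n] y → x = y := by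
    intro n
    induction n with
    | zero => intro x y _ _ h; exact h
    | succ n ih =>
      intro x y hx hy h
      rw [Function.iterate_succ_apply, Function.iterate_succ_apply] at h
      exact hinj x y hx hy (ih _ _ (hP x hx) (hP y hy) h)
  apply hi n _ _ (hPn m a ha) ha
  rw [← Function.iterate_add_apply, Nat.add_comm, Function.iterate_add_apply, h3, g3]

end

end

end SympH
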