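import Pool.Agent.W_93b186_h34.Redu

/-!
# The equality case `ℓ k = ℓ i + ℓ j`, `ℓ i < ℓ j`, and reductions which end there
-/

namespace SympH

section
variable {G : AddSubgroup ℝ} {ℓ ℓ' : Fin 3 → ℝ} {i j k : Fin 3}

/-- If the first return to type `K` always changes the facing letter then all states of `D_K` have
period 4. -/
theorem perD_of_alt (hL : Lens G ℓ) {K : Fin 3} (hbr : BR G ℓ K)
    (halt : ∀ n l e v, Ok G ℓ ⟨K, l, e⟩ → Hit ℓ K n ⟨K, l, e⟩ v → v.fc ≠ l) : PerD G ℓ K := by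
  obtain ⟨B, hB⟩ := hbr
  refine ⟨4 * B, fun s hs => ?_⟩
  obtain ⟨l, e, f⟩ := s
  obtain ⟨c1, c2, c3, c4, c5, c6, c7⟩ := hs
  simp only at c1 c2 c3 c4 c5 c6 c7
  have mK := hL.mem K
  have htri : Tri K l (th K l) := tri_of_ne c1
  set l' := th K l with hl'
  have hl2 : th K l' = l := htri.th_eq.2.2.1
  have hll : l ≠ l' := htri.jk
  have hc3 : ∀ a : Fin 3, K ≠ a → a ≠ l → a = l' := by
    intro a h1 h2
    rcases htri.cases a with h | h | h
    · exact absurd h.symm h1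
    · exact absurd h h2
    · exact h
  have hc4 : ∀ a : Fin 3, K ≠ a → a ≠ l' → a = l := by
    intro a h1 h2
    rcases htri.cases a with h | h | h
    · exact absurd h.symm h1
    · exact h
    · exact absurd h h2
  -- the mover returns
  have hv : Ok G ℓ ⟨K, l, e⟩ := ⟨c1, c2, c3, c6⟩
  obtain ⟨n1, v', hn1, hh1⟩ := hB _ hv
  obtain ⟨hv', hvK⟩ := hh1.ok hL hv
  have hvf := halt _ _ _ _ hv hh1
  obtain ⟨vt, vf, e'⟩ := v'
  simp only at hvK hvf
  have hvf' : vf = l' := hc3 vf (by rw [← hvK]; exact hv'.ne) hvf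
  rw [hvK, hvf'] at hh1 hv'
  -- the reversed other point returns
  have hw : Ok G ℓ ⟨K, l, f⟩ := ⟨c1, c4, c5, c7⟩
  have hrw : rho ℓ ⟨K, l, f⟩ = ⟨K, l', ℓ K - f⟩ := rfl
  have hw' := rho_ok hL hw
  rw [hrw] at hw'
  obtain ⟨n2, u, hn2, hh2⟩ := hB _ hw'
  obtain ⟨hu, huK⟩ := hh2.ok hL hw'
  have huf := halt _ _ _ _ hw' hh2
  obtain ⟨ut, uf, c⟩ := u
  simp only at huK huf
  have huf' : uf = l := hc4 uf (by rw [← huK]; exact hu.ne) huf
  rw [huK, huf'] at hh2 hu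
  -- reversals
  have hh3 := Hit.rev hL hv rfl hh1
  have hh4 := Hit.rev hL hw' rfl hh2
  have r1 : rho ℓ ⟨K, l', e'⟩ = ⟨K, l, ℓ K - e'⟩ := by simp [rho, hl2]
  have r2 : rho ℓ ⟨K, l, e⟩ = ⟨K, l', ℓ K - e⟩ := rfl
  have r3 : rho ℓ ⟨K, l, c⟩ = ⟨K, l', ℓ K - c⟩ := rfl
  have r4 : rho ℓ ⟨K, l', ℓ K - f⟩ = ⟨K, l, f⟩ := by simp [rho, hl2]
  rw [r1, r2] at hh3
  rw [r3, r4] at hh4
  have s1 : SRel ℓ K n1 ⟨l, e, f⟩ ⟨l', ℓ K - f, e'⟩ :=
    ⟨_, hh1, by simp [nxt, hll.symm]⟩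
  have s2 : SRel ℓ K n2 ⟨l', ℓ K - f, e'⟩ ⟨l, ℓ K - e', c⟩ :=
    ⟨_, hh2, by simp [nxt, hll]⟩
  have s3 : SRel ℓ K n1 ⟨l, ℓ K - e', c⟩ ⟨l', ℓ K - c, ℓ K - e⟩ :=
    ⟨_, hh3, by simp [nxt, hll.symm]⟩
  have s4 : SRel ℓ K n2 ⟨l', ℓ K - c, ℓ K - e⟩ ⟨l, e, f⟩ :=
    ⟨_, hh4, by simp [nxt, hll]⟩
  exact ⟨n1 + (n2 + (n1 + n2)), by omega,
    Chain.cons s1 (Chain.cons s2 (Chain.cons s3 (Chain.one s4)))⟩

/-- points of type `k` hit type `i` in bounded time, equality case -/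
theorem eq_hit_i (o : Ord G ℓ i j k) (he : ℓ k = ℓ i + ℓ j) : ∀ (m : ℕ) (d : ℝ),
    Ok G ℓ ⟨k, i, d⟩ → d < ℓ j → ℓ j - (m + 1) * ℓ i < d →
      ∃ n, 1 ≤ n ∧ n ≤ 4 * m + 2 ∧ ((g ℓ)^[n] ⟨k, i, d⟩).ty = i := by
  have hL := o.lens
  have hpi := hL.pos i
  have hij := o.ij
  have hjk := o.jk
  have mi := hL.mem i
  have mj := hL.mem j
  have mk := hL.mem k
  intro m
  induction m with
  | zero =>
    intro d hv h1 h2
    refine ⟨2, by norm_num, by norm_num, ?_⟩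
    show (g ℓ (g ℓ ⟨k, i, d⟩)).ty = i
    rw [o.g_ki h1, o.g_jk_lt (by push_cast at h2; linarith)]
  | succ m ih =>
    intro d hv h1 h2
    push_cast at h2
    rcases lt_or_gt_of_ne (gen_ne (G.sub_mem mj mi) hv.gen) with h | h
    · simp only at h
      have h4 : (g ℓ)^[4] ⟨k, i, d⟩ = ⟨k, i, d + ℓ i⟩ := by
        show g ℓ (g ℓ (g ℓ (g ℓ ⟨k, i, d⟩))) = _
        have := hv.pos
        simp only at this
        rw [o.g_ki h1, o.g_jk_gt (by linarith), o.g_ji (by linarith), o.g_H3 (by linarith)]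
        congr 1; linarith
      obtain ⟨n, hn1, hn2, hn3⟩ := ih (d + ℓ i)
        ⟨hv.ne, by simp only; linarith [hv.pos], by simp only; linarith,
          add_gen mi hv.gen⟩ (by linarith) (by linarith)
      refine ⟨n + 4, by omega, by omega, ?_⟩
      rw [Function.iterate_add_apply, h4]; exact hn3
    · simp only at h
      refine ⟨2, by norm_num, by omega, ?_⟩
      show (g ℓ (g ℓ ⟨k, i, d⟩)).ty = i
      rw [o.g_ki h1, o.g_jk_lt (by linarith)]

/-- from hits by points of type `k` to hits by all points -/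
theorem br_of_max (o : Ord G ℓ i j k) {K : Fin 3} {B : ℕ}
    (h : ∀ a d, Ok G ℓ ⟨k, a, d⟩ → ∃ n, 1 ≤ n ∧ n ≤ B ∧ ((g ℓ)^[n] ⟨k, a, d⟩).ty = K) :
    BR G ℓ K := by
  obtain ⟨B0, hB0⟩ := br_max o
  refine ⟨B + B0, fun v hv => ?_⟩
  obtain ⟨n, w, hn, hh⟩ := hB0 v hv
  obtain ⟨hw, hwk⟩ := hh.ok o.lens hv
  obtain ⟨wt, wf, wd⟩ := w
  simp only at hwk
  subst hwk
  obtain ⟨m, hm1, hm2, hm3⟩ := h wf wd hw
  obtain ⟨h1, _⟩ := hh.iter
  rw [← h1, ← Function.iterate_add_apply] at hm3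
  obtain ⟨q, w, hq, hh'⟩ := Hit.exists (by omega) hm3
  exact ⟨q, w, by omega, hh'⟩

theorem eq_br_i (o : Ord G ℓ i j k) (he : ℓ k = ℓ i + ℓ j) : BR G ℓ i := by
  have hL := o.lens
  have hpi := hL.pos i
  have hij := o.ij
  have hjk := o.jk
  have mi := hL.mem i
  have mj := hL.mem j
  have mk := hL.mem k
  obtain ⟨N, hN⟩ := exists_nat_gt (ℓ j / ℓ i)
  rw [div_lt_iff₀ hpi] at hN
  have hki : ∀ d, Ok G ℓ ⟨k, i, d⟩ → d < ℓ j →
      ∃ n, 1 ≤ n ∧ n ≤ 4 * N + 2 ∧ ((g ℓ)^[n] ⟨k, i, d⟩).ty = i := by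
    intro d hv hd
    refine eq_hit_i o he N d hv hd ?_
    have := hv.pos
    simp only at this
    nlinarith
  refine br_of_max o (B := 4 * N + 3) fun a d hv => ?_
  have ha : a = i ∨ a = j := by
    rcases o.tri.cases a with h | h | h
    · exact Or.inl h
    · exact Or.inr h
    · exact absurd h.symm hv.ne
  have hd1 := hv.lt
  have hd0 := hv.pos
  simp only at hd1 hd0
  rcases ha with rfl | rfl
  · rcases lt_or_gt_of_ne (gen_ne mj hv.gen) with h | h
    · simp only at h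
      obtain ⟨n, h1, h2, h3⟩ := hki d hv h
      exact ⟨n, h1, by omega, h3⟩
    · simp only at h
      refine ⟨2, by norm_num, by omega, ?_⟩
      show (g ℓ (g ℓ ⟨k, a, d⟩)).ty = a
      rw [o.g_H1 h, o.g_kj (by linarith)]
  · rcases lt_or_gt_of_ne (gen_ne mi hv.gen) with h | h
    · simp only at h
      refine ⟨1, by norm_num, by omega, ?_⟩
      show (g ℓ ⟨k, a, d⟩).ty = i
      rw [o.g_kj h]
    · simp only at h
      obtain ⟨n, h1, h2, h3⟩ := hki (d - ℓ i) ⟨o.tri.ik.symm, by simp only; linarith,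
        by simp only; linarith, sub_gen' mi hv.gen⟩ (by linarith)
      refine ⟨n + 1, by omega, by omega, ?_⟩
      rw [Function.iterate_succ_apply, o.g_H3 h]
      exact h3

theorem eq_br_j (o : Ord G ℓ i j k) (he : ℓ k = ℓ i + ℓ j) : BR G ℓ j := by
  have hL := o.lens
  have hpi := hL.pos i
  have hij := o.ij
  have hjk := o.jk
  have mi := hL.mem i
  have mj := hL.mem j
  have mk := hL.mem k
  refine br_of_max o (B := 3) fun a d hv => ?_
  have ha : a = i ∨ a = j := by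
    rcases o.tri.cases a with h | h | h
    · exact Or.inl h
    · exact Or.inr h
    · exact absurd h.symm hv.ne
  have hd1 := hv.lt
  have hd0 := hv.pos
  simp only at hd1 hd0
  rcases ha with rfl | rfl
  · rcases lt_or_gt_of_ne (gen_ne mj hv.gen) with h | h
    · simp only at h
      refine ⟨1, by norm_num, by omega, ?_⟩
      show (g ℓ ⟨k, a, d⟩).ty = j
      rw [o.g_ki h]
    · simp only at h
      refine ⟨3, by norm_num, by omega, ?_⟩
      show (g ℓ (g ℓ (g ℓ ⟨k, a, d⟩))).ty = j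
      rw [o.g_H1 h, o.g_kj (by linarith), o.g_ik (by linarith)]
  · rcases lt_or_gt_of_ne (gen_ne mi hv.gen) with h | h
    · simp only at h
      refine ⟨2, by norm_num, by omega, ?_⟩
      show (g ℓ (g ℓ ⟨k, a, d⟩)).ty = a
      rw [o.g_kj h, o.g_ik (by linarith)]
    · simp only at h
      refine ⟨2, by norm_num, by omega, ?_⟩
      show (g ℓ (g ℓ ⟨k, a, d⟩)).ty = a
      rw [o.g_H3 h, o.g_ki (by linarith)]

/-- the returns to `j` change the letter -/
theorem eq_alt_j (o : Ord G ℓ i j k) (he : ℓ k = ℓ i + ℓ j) (n : ℕ) (l : Fin 3) (e : ℝ) (v : Pt)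
    (hv : Ok G ℓ ⟨j, l, e⟩) (h : Hit ℓ j n ⟨j, l, e⟩ v) : v.fc ≠ l := by
  have hL := o.lens
  have hpi := hL.pos i
  have hij := o.ij
  have hjk := o.jk
  have mi := hL.mem i
  have mj := hL.mem j
  have mk := hL.mem k
  obtain ⟨tij, tjk, tik⟩ := o.tri
  have hl : l = i ∨ l = k := by
    rcases o.tri.cases l with h | h | h
    · exact Or.inl h
    · exact absurd h.symm hv.ne
    · exact Or.inr h
  have hd1 := hv.lt
  have hd0 := hv.pos
  simp only at hd1 hd0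
  rcases hl with rfl | rfl
  · -- `(j,i,e) → (k,j,ℓk-e) → (k,i,ℓj-e) → (j,k,e)`
    obtain ⟨n1, rfl, h1⟩ := h.tail (o.g_ji (by linarith)) (by simpa using tjk.symm)
    obtain ⟨n2, rfl, h2⟩ := h1.tail (o.g_H3 (by linarith)) (by simpa using tjk.symm)
    obtain ⟨_, rfl⟩ := h2.head (o.g_ki (by linarith)) rfl
    exact tik.symm
  · rcases lt_or_gt_of_ne (gen_ne mi hv.gen) with h' | h'
    · simp only at h'
      obtain ⟨n1, rfl, h1⟩ := h.tail (o.g_jk_lt h') (by simpa using tij)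
      obtain ⟨n2, rfl, h2⟩ := h1.tail (o.g_ij (by linarith)) (by simpa using tjk.symm)
      obtain ⟨n3, rfl, h3⟩ := h2.tail (o.g_H1 (by linarith)) (by simpa using tjk.symm)
      obtain ⟨n4, rfl, h4⟩ := h3.tail (o.g_kj (by linarith)) (by simpa using tij)
      obtain ⟨_, rfl⟩ := h4.head (o.g_ik (by linarith)) rfl
      exact tik
    · simp only at h'
      obtain ⟨_, rfl⟩ := h.head (o.g_jk_gt h') rfl
      exact tik

/-- the returns to `i` change the letter -/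
theorem eq_alt_i (o : Ord G ℓ i j k) (he : ℓ k = ℓ i + ℓ j) (n : ℕ) (l : Fin 3) (e : ℝ) (v : Pt)
    (hv : Ok G ℓ ⟨i, l, e⟩) (h : Hit ℓ i n ⟨i, l, e⟩ v) : v.fc ≠ l := by
  have hL := o.lens
  have hpi := hL.pos i
  have hij := o.ij
  have hjk := o.jk
  have mi := hL.mem i
  have mj := hL.mem j
  have mk := hL.mem k
  obtain ⟨tij, tjk, tik⟩ := o.tri
  have hl : l = j ∨ l = k := by
    rcases o.tri.cases l with h | h | h
    · exact absurd h.symm hv.ne
    · exact Or.inl h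
    · exact Or.inr h
  have hd1 := hv.lt
  have hd0 := hv.pos
  simp only at hd1 hd0
  rcases hl with rfl | rfl
  · -- `(i,j,e) → (k,i,ℓk-e) → (k,j,ℓi-e) → (i,k,e)`
    obtain ⟨n1, rfl, h1⟩ := h.tail (o.g_ij (by linarith)) (by simpa using tik.symm)
    obtain ⟨n2, rfl, h2⟩ := h1.tail (o.g_H1 (by linarith)) (by simpa using tik.symm)
    obtain ⟨_, rfl⟩ := h2.head (o.g_kj (by linarith)) rfl
    exact tjk.symm
  · -- an invariant family of points
    have inv : ∀ (n : ℕ) (x v : Pt), Ok G ℓ x →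
        ((∃ d, x = ⟨j, i, d⟩) ∨ (∃ d, x = ⟨l, j, d⟩ ∧ ℓ i < d) ∨ (∃ d, x = ⟨l, i, d⟩ ∧ d < ℓ j) ∨
          (∃ d, x = ⟨j, l, d⟩)) → Hit ℓ i n x v → v.fc = j := by
      intro n
      induction n with
      | zero => intro x v _ _ h; exact h.elim
      | succ n ih =>
        intro x v hx hc hh
        have hgx := g_ok hL hx
        rcases hc with ⟨d, rfl⟩ | ⟨d, rfl, hd⟩ | ⟨d, rfl, hd⟩ | ⟨d, rfl⟩
        · have := hx.lt
          simp only at this
          have hg := o.g_ji (d := d) (by linarith)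
          rw [hg] at hgx
          obtain ⟨m, hm, h1⟩ := hh.tail hg (by simpa using tik.symm)
          obtain rfl : n = m := by omega
          exact ih _ _ hgx (Or.inr (Or.inl ⟨_, rfl, by linarith⟩)) h1
        · have := hx.lt
          simp only at this
          have hg := o.g_H3 (d := d) hd
          rw [hg] at hgx
          obtain ⟨m, hm, h1⟩ := hh.tail hg (by simpa using tik.symm)
          obtain rfl : n = m := by omega
          exact ih _ _ hgx (Or.inr (Or.inr (Or.inl ⟨_, rfl, by linarith⟩))) h1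
        · have hg := o.g_ki (d := d) hd
          rw [hg] at hgx
          obtain ⟨m, hm, h1⟩ := hh.tail hg (by simpa using tij.symm)
          obtain rfl : n = m := by omega
          exact ih _ _ hgx (Or.inr (Or.inr (Or.inr ⟨_, rfl⟩))) h1
        · rcases lt_or_gt_of_ne (gen_ne mi hx.gen) with h' | h'
          · simp only at h'
            obtain ⟨_, rfl⟩ := hh.head (o.g_jk_lt h') rfl
            rfl
          · simp only at h'
            have hg := o.g_jk_gt (d := d) h'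
            rw [hg] at hgx
            obtain ⟨m, hm, h1⟩ := hh.tail hg (by simpa using tij.symm)
            obtain rfl : n = m := by omega
            exact ih _ _ hgx (Or.inl ⟨_, rfl⟩) h1
    have hg := o.g_ik (d := e) (by linarith)
    have hgx := g_ok hL hv
    rw [hg] at hgx
    obtain ⟨m, hm, h1⟩ := h.tail hg (by simpa using tij.symm)
    rw [inv m _ _ hgx (Or.inl ⟨_, rfl⟩) h1]
    exact tjk

/-- the lengths which reduce to an equality `ℓ k = ℓ i + ℓ j` with `ℓ i ≠ ℓ j` -/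
inductive EqRed (G : AddSubgroup ℝ) : (Fin 3 → ℝ) → Prop
  | base {ℓ : Fin 3 → ℝ} {i j k : Fin 3} : Ord G ℓ i j k → ℓ k = ℓ i + ℓ j → EqRed G ℓ
  | step {ℓ ℓ' : Fin 3 → ℝ} {i j k : Fin 3} : Redu G ℓ ℓ' i j k → EqRed G ℓ' → EqRed G ℓ

theorem EqRed.lens (h : EqRed G ℓ) : Lens G ℓ := by
  cases h with
  | base o _ => exact o.lens
  | step r _ => exact r.lens

theorem Ord.distinct (o : Ord G ℓ i j k) {a b : Fin 3} (hab : a ≠ b) : ℓ a ≠ ℓ b := by
  have hij := o.ij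
  have hjk := o.jk
  rcases o.tri.cases a with h | h | h <;> rcases o.tri.cases b with h' | h' | h' <;>
    first | exact absurd (h.trans h'.symm) hab | (rw [h, h']; exact ne_of_lt (by linarith)) |
      (rw [h, h']; exact ne_of_gt (by linarith))

theorem EqRed.all (h : EqRed G ℓ) : (∀ a b, a ≠ b → ℓ a ≠ ℓ b) ∧
    ∀ a, BR G ℓ a ∧ PerD G ℓ a := by
  induction h with
  | @base ℓ i j k o he =>
    refine ⟨fun a b hab => o.distinct hab, fun a => ?_⟩
    have hi : BR G ℓ i ∧ PerD G ℓ i :=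
      ⟨eq_br_i o he, perD_of_alt o.lens (eq_br_i o he) (eq_alt_i o he)⟩
    rcases o.tri.cases a with h | h | h
    · rw [h]; exact hi
    · rw [h]; exact ⟨eq_br_j o he, perD_of_alt o.lens (eq_br_j o he) (eq_alt_j o he)⟩
    · rw [h]; exact ⟨br_max o, perD_max o hi.1 hi.2⟩
  | @step ℓ ℓ' i j k r _ ih =>
    obtain ⟨ih1, ih2⟩ := ih
    obtain ⟨tij, tjk, tik⟩ := r.tri
    have hd : ∀ a b, a ≠ b → ℓ a ≠ ℓ b := by
      intro a b hab
      by_cases ha : a = j
      · rw [ha]; exact (r.lt (fun h => hab (ha.trans h.symm))).ne'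
      · by_cases hb : b = j
        · rw [hb]; exact (r.lt ha).ne
        · rw [← r.same ha, ← r.same hb]; exact ih1 a b hab
    refine ⟨hd, fun a => ?_⟩
    have hne : ∀ a, a ≠ j → BR G ℓ a ∧ PerD G ℓ a := fun a ha =>
      ⟨r.br ha (ih2 a).1, r.perD ha (ih2 a).2⟩
    by_cases ha : a = j
    · rw [ha]
      rcases lt_or_gt_of_ne (hd i k tik) with h | h
      · have o : Ord G ℓ i k j := ⟨r.lens, ⟨tik, tjk.symm, tij⟩, h, r.lt tjk.symm⟩
        exact ⟨br_max o, perD_max o (hne i tij).1 (hne i tij).2⟩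
      · have o : Ord G ℓ k i j := ⟨r.lens, ⟨tik.symm, tij, tjk.symm⟩, h, r.lt tij⟩
        exact ⟨br_max o, perD_max o (hne k tjk.symm).1 (hne k tjk.symm).2⟩
    · exact hne a ha

theorem exists_ord (hL : Lens G ℓ) (hd : ∀ a b, a ≠ b → ℓ a ≠ ℓ b) :
    ∃ i j k, Ord G ℓ i j k := by
  have t1 : Tri (0 : Fin 3) 1 2 := by unfold Tri; decide
  have t2 : Tri (0 : Fin 3) 2 1 := by unfold Tri; decide
  have t3 : Tri (1 : Fin 3) 0 2 := by unfold Tri; decide
  have t4 : Tri (1 : Fin 3) 2 0 := by unfold Tri; decide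
  have t5 : Tri (2 : Fin 3) 0 1 := by unfold Tri; decide
  have t6 : Tri (2 : Fin 3) 1 0 := by unfold Tri; decide
  rcases lt_or_gt_of_ne (hd 0 1 (by decide)) with h01 | h01 <;>
  rcases lt_or_gt_of_ne (hd 0 2 (by decide)) with h02 | h02 <;>
  rcases lt_or_gt_of_ne (hd 1 2 (by decide)) with h12 | h12
  · exact ⟨0, 1, 2, hL, t1, h01, h12⟩
  · exact ⟨0, 2, 1, hL, t2, h02, h12⟩
  · exfalso; linarith
  · exact ⟨2, 0, 1, hL, t5, h02, h01⟩
  · exact ⟨1, 0, 2, hL, t3, h01, h02⟩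
  · exfalso; linarith
  · exact ⟨1, 2, 0, hL, t4, h12, h02⟩
  · exact ⟨2, 1, 0, hL, t6, h12, h01⟩

/-- (1), generic version: all generic orbits of the billiard map have bounded periods -/
theorem EqRed.perT (h : EqRed G ℓ) : ∃ B : ℕ, ∀ s, TOk G ℓ s → R (T ℓ) B s s := by
  obtain ⟨h1, h2⟩ := h.all
  obtain ⟨i, j, k, o⟩ := exists_ord h.lens h1
  exact SympH.perT o (h2 i).1 (h2 i).2

end

end SympH
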