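import Pool.Agent.W_93b186_h34.Link

/-!
# From bounded periods of the generic orbits of `T` to (AP)
-/

namespace SympH
open SympB

variable {G : AddSubgroup ℝ} {ℓ : Fin 3 → ℝ}

/-- two states with the same letters, at distance at most `δ` in both coordinates -/
def Near (δ : ℝ) (s s' : TS) : Prop := s.t = s'.t ∧ s.l = s'.l ∧ |s.d - s'.d| ≤ δ ∧ |s.e - s'.e| ≤ δ

/-- If `s.d ≠ ℓ m` and `s'` is closer to `s` than `|s.d - ℓ m|`, then `T` takes the same branch at
`s` and `s'` and is an isometry. -/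
theorem Near.step {s : TS} (hd : s.d ≠ ℓ (th s.t s.l)) :
    ∃ δ₀ > 0, ∀ δ ≤ δ₀, ∀ s', Near δ s s' → Near δ (T ℓ s) (T ℓ s') := by
  have h0 : 0 < |s.d - ℓ (th s.t s.l)| := abs_pos.2 (sub_ne_zero.2 hd)
  refine ⟨|s.d - ℓ (th s.t s.l)| / 2, by positivity, ?_⟩
  rintro δ hδ s' ⟨h1, h2, h3, h4⟩
  have h5 : |s.d - s'.d| < |s.d - ℓ (th s.t s.l)| := by linarith
  have h3' := abs_le.1 h3
  unfold T
  rw [← h1, ← h2]
  rcases lt_or_gt_of_ne hd with h | h
  · have h6 : s'.d < ℓ (th s.t s.l) := by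
      rw [abs_of_neg (by linarith : s.d - ℓ (th s.t s.l) < 0)] at h5
      have := (abs_lt.1 h5).1
      linarith
    rw [if_pos h, if_pos h6]
    refine ⟨rfl, rfl, ?_, h3⟩
    simp only
    have : ℓ s.l - s.e - (ℓ s.l - s'.e) = -(s.e - s'.e) := by ring
    rw [this, abs_neg]; exact h4
  · have h6 : ℓ (th s.t s.l) < s'.d := by
      rw [abs_of_pos (by linarith : 0 < s.d - ℓ (th s.t s.l))] at h5
      have := (abs_lt.1 h5).2
      linarith
    rw [if_neg (not_lt.2 h.le), if_neg (not_lt.2 h6.le)]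
    refine ⟨rfl, rfl, h4, ?_⟩
    simp only
    have : ℓ s.t + ℓ (th s.t s.l) - s.d - (ℓ s.t + ℓ (th s.t s.l) - s'.d) = -(s.d - s'.d) := by ring
    rw [this, abs_neg]; exact h3

/-- iterate of `Near.step` along a nonsingular orbit -/
theorem Near.iter {s : TS} (N : ℕ) (hd : ∀ n < N, ((T ℓ)^[n] s).d ≠
    ℓ (th ((T ℓ)^[n] s).t ((T ℓ)^[n] s).l)) :
    ∃ δ₀ > 0, ∀ δ ≤ δ₀, ∀ s', Near δ s s' → Near δ ((T ℓ)^[N] s) ((T ℓ)^[N] s') := by
  induction N with
  | zero => exact ⟨1, one_pos, fun δ _ s' h => h⟩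
  | succ N ih =>
    obtain ⟨a, ha, h1⟩ := ih (fun n hn => hd n (by omega))
    obtain ⟨b, hb, h2⟩ := Near.step (hd N (by omega))
    refine ⟨min a b, lt_min ha hb, fun δ hδ s' h => ?_⟩
    rw [Function.iterate_succ_apply', Function.iterate_succ_apply']
    exact h2 δ (hδ.trans (min_le_right _ _)) _ (h1 δ (hδ.trans (min_le_left _ _)) s' h)

/-- generic valid states are dense near a valid state (`G` is countable,
`Set.Countable.dense_compl`, `Dense.exists_between`) -/
theorem exists_generic (hG : (G : Set ℝ).Countable) {s : TS} (hs : TVal ℓ s) {δ : ℝ}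
    (hδ : 0 < δ) : ∃ s', TOk G ℓ s' ∧ Near δ s s' := by
  have hdense : Dense ((G : Set ℝ)ᶜ) := hG.dense_compl ℝ
  obtain ⟨d', hd1, hd2, hd3⟩ := hdense.exists_between (lt_min (by linarith : s.d < s.d + δ) hs.d1)
  obtain ⟨e', he1, he2, he3⟩ := hdense.exists_between (lt_min (by linarith : s.e < s.e + δ) hs.e1)
  have a1 := lt_min_iff.1 hd3
  have a2 := lt_min_iff.1 he3
  have hd0 := hs.d0
  have he0 := hs.e0
  refine ⟨⟨s.t, s.l, d', e'⟩, ⟨⟨hs.ne, by simp only; linarith, a1.2, by simp only; linarith, a2.2⟩, hd1, he1⟩,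
    rfl, rfl, ?_, ?_⟩
  · simp only
    rw [abs_le]; constructor <;> linarith [a1.1]
  · simp only
    rw [abs_le]; constructor <;> linarith [a2.1]

/-- every nonsingular valid state is periodic with period `N = 2 * B!` : choose generic states
`s'` near `s`; their period divides `N`, so `T^N s' = s'`, and `T^N s` is near `T^N s' = s'`, so
near `s`; let `δ → 0`. -/
theorem iterate_eq_self (hG : (G : Set ℝ).Countable) {B : ℕ}
    (hB : ∀ s, TOk G ℓ s → R (T ℓ) B s s) {s : TS} (hs : TVal ℓ s)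
    (hd : ∀ n : ℕ, ((T ℓ)^[n] s).d ≠ ℓ (th ((T ℓ)^[n] s).t ((T ℓ)^[n] s).l)) :
    (T ℓ)^[2 * B.factorial] s = s := by
  obtain ⟨δ₀, hδ₀, hn⟩ := Near.iter (ℓ := ℓ) (s := s) (2 * B.factorial) (fun n _ => hd n)
  have key : ∀ δ : ℝ, 0 < δ → δ ≤ δ₀ → Near (2 * δ) ((T ℓ)^[2 * B.factorial] s) s := by
    intro δ h0 h1
    obtain ⟨s', hs', hnear⟩ := exists_generic hG hs h0
    obtain ⟨n, n1, n2, n3⟩ := hB s' hs'
    have hper : (T ℓ)^[2 * B.factorial] s' = s' := by
      have hdvd : n ∣ 2 * B.factorial := Dvd.dvd.mul_left (Nat.dvd_factorial n1 n2) 2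
      obtain ⟨c, hc⟩ := hdvd
      rw [hc, Function.iterate_mul]
      exact Function.iterate_fixed n3 c
    have h2 := hn δ h1 s' hnear
    rw [hper] at h2
    obtain ⟨a1, a2, a3, a4⟩ := h2
    obtain ⟨b1, b2, b3, b4⟩ := hnear
    refine ⟨a1.trans b1.symm, a2.trans b2.symm, ?_, ?_⟩
    · rw [abs_le] at a3 b3 ⊢
      constructor <;> linarith [a3.1, a3.2, b3.1, b3.2]
    · rw [abs_le] at a4 b4 ⊢
      constructor <;> linarith [a4.1, a4.2, b4.1, b4.2]
  have hz : ∀ z : ℝ, (∀ δ : ℝ, 0 < δ → δ ≤ δ₀ → |z| ≤ 2 * δ) → z = 0 := by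
    intro z hz
    by_contra hne
    have h0 : 0 < |z| := abs_pos.2 hne
    have h1 := hz (min δ₀ (|z| / 4)) (lt_min hδ₀ (by positivity)) (min_le_left _ _)
    have h2 := min_le_right δ₀ (|z| / 4)
    linarith
  have k0 := key δ₀ hδ₀ le_rfl
  ext1
  · exact k0.1
  · exact k0.2.1
  · exact sub_eq_zero.1 (hz _ fun δ h0 h1 => (key δ h0 h1).2.2.1)
  · exact sub_eq_zero.1 (hz _ fun δ h0 h1 => (key δ h0 h1).2.2.2)

/-- **(AP) from bounded periods.**  Use `link_fwd`: `s n = T^[n] (s 0)`, so `s (n + N) = s n` with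
`N = 2 * B!` even (apply `iterate_eq_self` to each `s n`).  Signs: by induction on `m`,
`xor (σ (n + N + 2m)) (σ (n + 2m)) = xor (σ (n + N)) (σ n)` (the flips in `nsg` depend only on
`s`, which is `N`-periodic); with `2m = N`: `σ (n + 2N) = σ n`.  So the period is `2N`. -/
theorem ap_of_perT (hG : (G : Set ℝ).Countable) (hL : Lens G ℓ)
    (h : ∃ B : ℕ, ∀ s, TOk G ℓ s → R (T ℓ) B s s) : AP (hexV (ℓ 0) (ℓ 1) (ℓ 2) 0) := by
  obtain ⟨B, hB⟩ := h
  intro x hx
  obtain ⟨s, σ, hsσ⟩ := link_fwd hL.pos hx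
  have hit : ∀ n k : ℕ, (T ℓ)^[k] (s n) = s (n + k) := by
    intro n k
    induction k with
    | zero => rfl
    | succ k ih =>
      rw [Function.iterate_succ_apply', ih]
      exact (hsσ (n + k)).2.2.1.symm
  have hper : ∀ n, s (n + 2 * B.factorial) = s n := by
    intro n
    rw [← hit]
    exact iterate_eq_self hG hB (hsσ n).1 (fun k => by rw [hit]; exact (hsσ _).2.1)
  have hflip : ∀ (a b : Bool) (u : TS), xor (nsg ℓ a u) (nsg ℓ b u) = xor a b := by
    intro a b u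
    unfold nsg
    split_ifs
    · rfl
    · cases a <;> cases b <;> rfl
  have hsg : ∀ n m : ℕ, xor (σ (n + 2 * B.factorial + 2 * m)) (σ (n + 2 * m)) =
      xor (σ (n + 2 * B.factorial)) (σ n) := by
    intro n m
    induction m with
    | zero => rfl
    | succ m ih =>
      have e1 := (hsσ (n + 2 * B.factorial + 2 * m)).2.2.2.2.2
      have e2 := (hsσ (n + 2 * m)).2.2.2.2.2
      have e3 : s (n + 2 * B.factorial + 2 * m) = s (n + 2 * m) := by
        rw [show n + 2 * B.factorial + 2 * m = (n + 2 * m) + 2 * B.factorial by ring]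
        exact hper _
      rw [e3] at e1
      rw [show n + 2 * B.factorial + 2 * (m + 1) = n + 2 * B.factorial + 2 * m + 2 by ring,
        show n + 2 * (m + 1) = n + 2 * m + 2 by ring, e1, e2, hflip]
      exact ih
  have hs2 : ∀ n, σ (n + 2 * (2 * B.factorial)) = σ n := by
    intro n
    have h1 := hsg n B.factorial
    rw [show n + 2 * B.factorial + 2 * B.factorial = n + 2 * (2 * B.factorial) by ring] at h1
    revert h1
    cases σ (n + 2 * (2 * B.factorial)) <;> cases σ (n + 2 * B.factorial) <;> cases σ n <;> simp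
  have hper2 : ∀ n, s (n + 2 * (2 * B.factorial)) = s n := by
    intro n
    rw [show n + 2 * (2 * B.factorial) = (n + 2 * B.factorial) + 2 * B.factorial by ring, hper, hper]
  have hpos := B.factorial_pos
  refine ⟨2 * (2 * B.factorial), by omega, ?_, ?_⟩
  · have h1 := (hsσ (0 + 2 * (2 * B.factorial))).2.2.2.1
    have h2 := (hsσ 0).2.2.2.1
    rw [hper2 0, hs2 0] at h1
    rw [zero_add] at h1
    rw [h1]
    exact h2.symm
  · have h1 := (hsσ (0 + 2 * (2 * B.factorial))).2.2.2.2.1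
    have h2 := (hsσ 0).2.2.2.2.1
    rw [hper2 0, show 0 + 2 * (2 * B.factorial) + 1 = (0 + 1) + 2 * (2 * B.factorial) by ring, hs2 (0 + 1)] at h1
    rw [zero_add] at h1
    rw [h1, ← h2]
    simp

end SympH
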