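import Pool.Agent.W_93b186_h34.Gasket
import Pool.Agent.W_93b186_h34.Equal
import Pool.Agent.W_93b186_h34.Limit

/-!
# Final assembly: convex polygons with at most three side directions
-/

namespace SympH
open SympB

/-- one entry equals the sum of the two others -/
def SumEq (x : ℝ × ℝ × ℝ) : Prop :=
  x.1 = x.2.1 + x.2.2 ∨ x.2.1 = x.1 + x.2.2 ∨ x.2.2 = x.1 + x.2.1

/-- the triple as a function -/
def vec (x : ℝ × ℝ × ℝ) : Fin 3 → ℝ := ![x.1, x.2.1, x.2.2]

@[simp] theorem vec0 (x : ℝ × ℝ × ℝ) : vec x 0 = x.1 := rfl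
@[simp] theorem vec1 (x : ℝ × ℝ × ℝ) : vec x 1 = x.2.1 := rfl
@[simp] theorem vec2 (x : ℝ × ℝ × ℝ) : vec x 2 = x.2.2 := rfl

/-- the group generated by the entries -/
def Gam (x : ℝ × ℝ × ℝ) : AddSubgroup ℝ :=
  (AddMonoidHom.mk' (fun n : ℤ × ℤ × ℤ => (n.1 : ℝ) * x.1 + n.2.1 * x.2.1 + n.2.2 * x.2.2)
    (by intro a b; simp only [Prod.fst_add, Prod.snd_add]; push_cast; ring)).range

theorem Gam_countable (x : ℝ × ℝ × ℝ) : (Gam x : Set ℝ).Countable := by
  have : (Gam x : Set ℝ) = Set.range (fun n : ℤ × ℤ × ℤ =>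
      (n.1 : ℝ) * x.1 + n.2.1 * x.2.1 + n.2.2 * x.2.2) := rfl
  rw [this]
  exact Set.countable_range _

theorem lens_Gam {x : ℝ × ℝ × ℝ} (hx : Pos3 x) : Lens (Gam x) (vec x) := by
  obtain ⟨h1, h2, h3⟩ := hx
  constructor
  · intro a; fin_cases a
    · exact h1
    · exact h2
    · exact h3
  · intro a; fin_cases a
    · exact ⟨(1, 0, 0), by simp⟩
    · exact ⟨(0, 1, 0), by simp⟩
    · exact ⟨(0, 0, 1), by simp⟩

theorem tri012 : Tri 0 1 2 := by unfold Tri; decide
theorem tri102 : Tri 1 0 2 := by unfold Tri; decide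
theorem tri021 : Tri 0 2 1 := by unfold Tri; decide
theorem tri120 : Tri 1 2 0 := by unfold Tri; decide
theorem tri201 : Tri 2 0 1 := by unfold Tri; decide
theorem tri210 : Tri 2 1 0 := by unfold Tri; decide

/-- a reduction step of triples is a reduction step of length functions -/
theorem RStep.redu {G : AddSubgroup ℝ} {x y : ℝ × ℝ × ℝ} (h : RStep 0 x y)
    (hx : Lens G (vec x)) : ∃ i j k, Redu G (vec x) (vec y) i j k := by
  have hm := hx.mem
  have hp := hx.pos
  cases h with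
  | one p q r h =>
    refine ⟨1, 0, 2, hx, ?_, tri102, rfl, rfl, ?_⟩
    · constructor
      · intro a; fin_cases a
        · show 0 < p - (0 + q + r); linarith
        · exact hp 1
        · exact hp 2
      · intro a; fin_cases a
        · show p - (0 + q + r) ∈ G
          have e : p - (0 + q + r) = p - q - r := by ring
          rw [e]; exact G.sub_mem (G.sub_mem (hm 0) (hm 1)) (hm 2)
        · exact hm 1
        · exact hm 2
    · show p - (0 + q + r) = p - q - r; ring
  | two p q r h =>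
    refine ⟨0, 1, 2, hx, ?_, tri012, rfl, rfl, ?_⟩
    · constructor
      · intro a; fin_cases a
        · exact hp 0
        · show 0 < q - (0 + p + r); linarith
        · exact hp 2
      · intro a; fin_cases a
        · exact hm 0
        · show q - (0 + p + r) ∈ G
          have e : q - (0 + p + r) = q - p - r := by ring
          rw [e]; exact G.sub_mem (G.sub_mem (hm 1) (hm 0)) (hm 2)
        · exact hm 2
    · show q - (0 + p + r) = q - p - r; ring
  | three p q r h =>
    refine ⟨0, 2, 1, hx, ?_, tri021, rfl, rfl, ?_⟩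
    · constructor
      · intro a; fin_cases a
        · exact hp 0
        · exact hp 1
        · show 0 < r - (0 + p + q); linarith
      · intro a; fin_cases a
        · exact hm 0
        · exact hm 1
        · show r - (0 + p + q) ∈ G
          have e : r - (0 + p + q) = r - p - q := by ring
          rw [e]; exact G.sub_mem (G.sub_mem (hm 2) (hm 0)) (hm 1)
    · show r - (0 + p + q) = r - p - q; ring

/-- base case -/
theorem eqRed_base {G : AddSubgroup ℝ} {y : ℝ × ℝ × ℝ} (hL : Lens G (vec y)) (he : SumEq y)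
    (hc : ¬ Commens y) : EqRed G (vec y) := by
  obtain ⟨p, q, r⟩ := y
  have h0 : 0 < p := hL.pos 0
  have h1 : 0 < q := hL.pos 1
  have h2 : 0 < r := hL.pos 2
  simp only [SumEq] at he
  rcases he with he | he | he
  · rcases lt_trichotomy q r with h | h | h
    · exact EqRed.base (i := 1) (j := 2) (k := 0) ⟨hL, tri120, h, show r < p by linarith⟩ he
    · exact absurd ⟨q, 1, 1, by simp only; push_cast; linarith,
        by simp only; push_cast; linarith⟩ hc
    · exact EqRed.base (i := 2) (j := 1) (k := 0) ⟨hL, tri210, h, show q < p by linarith⟩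
        (show p = r + q by linarith)
  · rcases lt_trichotomy p r with h | h | h
    · exact EqRed.base (i := 0) (j := 2) (k := 1) ⟨hL, tri021, h, show r < q by linarith⟩ he
    · exact absurd ⟨p, -1, 0, by simp only; push_cast; linarith,
        by simp only; push_cast; linarith⟩ hc
    · exact EqRed.base (i := 2) (j := 0) (k := 1) ⟨hL, tri201, h, show p < q by linarith⟩
        (show q = r + p by linarith)
  · rcases lt_trichotomy p q with h | h | h
    · exact EqRed.base (i := 0) (j := 1) (k := 2) ⟨hL, tri012, h, show q < r by linarith⟩ he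
    · exact absurd ⟨p, 0, -1, by simp only; push_cast; linarith,
        by simp only; push_cast; linarith⟩ hc
    · exact EqRed.base (i := 1) (j := 0) (k := 2) ⟨hL, tri102, h, show p < r by linarith⟩
        (show r = q + p by linarith)

/-- a reduction which ends in an equality -/
theorem eqRed_of_reach {G : AddSubgroup ℝ} {x y : ℝ × ℝ × ℝ}
    (h : Relation.ReflTransGen (RStep 0) x y) (he : SumEq y) (hc : ¬ Commens y) :
    Lens G (vec x) → EqRed G (vec x) := by
  induction h using Relation.ReflTransGen.head_induction_on with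
  | refl => intro hL; exact eqRed_base hL he hc
  | head hab _ ih =>
    intro hL
    obtain ⟨i, j, k, hr⟩ := RStep.redu hab hL
    exact EqRed.step hr (ih hr.lens')

/-- steps of length functions come from steps of triples -/
theorem rstep_of_Rs {x : ℝ × ℝ × ℝ} {ℓ' : Fin 3 → ℝ} (h : Rs (vec x) ℓ') :
    ∃ y, RStep 0 x y ∧ vec y = ℓ' := by
  obtain ⟨p, q, r⟩ := x
  obtain ⟨i, j, k, htri, hlt, h1, h2, h3⟩ := h
  have key : (j = 0 → (i = 1 ∧ k = 2) ∨ (i = 2 ∧ k = 1)) ∧
      (j = 1 → (i = 0 ∧ k = 2) ∨ (i = 2 ∧ k = 0)) ∧ (j = 2 → (i = 0 ∧ k = 1) ∨ (i = 1 ∧ k = 0)) := by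
    have : ∀ i j k : Fin 3, Tri i j k → (j = 0 → (i = 1 ∧ k = 2) ∨ (i = 2 ∧ k = 1)) ∧
      (j = 1 → (i = 0 ∧ k = 2) ∨ (i = 2 ∧ k = 0)) ∧
      (j = 2 → (i = 0 ∧ k = 1) ∨ (i = 1 ∧ k = 0)) := by unfold Tri; decide
    exact this i j k htri
  have hj : j = 0 ∨ j = 1 ∨ j = 2 := by
    have : ∀ j : Fin 3, j = 0 ∨ j = 1 ∨ j = 2 := by decide
    exact this j
  rcases hj with rfl | rfl | rfl
  · have hd : (0 : ℝ) + q + r < p := by
      rcases key.1 rfl with ⟨rfl, rfl⟩ | ⟨rfl, rfl⟩ <;>
        simp only [vec0, vec1, vec2] at hlt <;> linarith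
    refine ⟨_, RStep.one p q r hd, ?_⟩
    funext a
    rcases key.1 rfl with ⟨rfl, rfl⟩ | ⟨rfl, rfl⟩ <;>
      simp only [vec0, vec1, vec2] at h1 h2 h3 <;> fin_cases a <;>
      simp only [Fin.zero_eta, Fin.mk_one, Fin.reduceFinMk, vec0, vec1, vec2] <;> linarith
  · have hd : (0 : ℝ) + p + r < q := by
      rcases key.2.1 rfl with ⟨rfl, rfl⟩ | ⟨rfl, rfl⟩ <;>
        simp only [vec0, vec1, vec2] at hlt <;> linarith
    refine ⟨_, RStep.two p q r hd, ?_⟩
    funext a
    rcases key.2.1 rfl with ⟨rfl, rfl⟩ | ⟨rfl, rfl⟩ <;>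
      simp only [vec0, vec1, vec2] at h1 h2 h3 <;> fin_cases a <;>
      simp only [Fin.zero_eta, Fin.mk_one, Fin.reduceFinMk, vec0, vec1, vec2] <;> linarith
  · have hd : (0 : ℝ) + p + q < r := by
      rcases key.2.2 rfl with ⟨rfl, rfl⟩ | ⟨rfl, rfl⟩ <;>
        simp only [vec0, vec1, vec2] at hlt <;> linarith
    refine ⟨_, RStep.three p q r hd, ?_⟩
    funext a
    rcases key.2.2 rfl with ⟨rfl, rfl⟩ | ⟨rfl, rfl⟩ <;>
      simp only [vec0, vec1, vec2] at h1 h2 h3 <;> fin_cases a <;>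
      simp only [Fin.zero_eta, Fin.mk_one, Fin.reduceFinMk, vec0, vec1, vec2] <;> linarith

theorem reach_of_Rs {x : ℝ × ℝ × ℝ} {ℓ' : Fin 3 → ℝ}
    (h : Relation.ReflTransGen Rs (vec x) ℓ') :
    ∃ y, Relation.ReflTransGen (RStep 0) x y ∧ vec y = ℓ' := by
  induction h with
  | refl => exact ⟨x, Relation.ReflTransGen.refl, rfl⟩
  | tail _ hs ih =>
    obtain ⟨y, hy, rfl⟩ := ih
    obtain ⟨z, hz, rfl⟩ := rstep_of_Rs hs
    exact ⟨z, Relation.ReflTransGen.tail hy hz, rfl⟩

/-- a reduction which never stops -/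
theorem ns_of_not_stuck {x : ℝ × ℝ × ℝ}
    (h : ¬ ∃ y, Relation.ReflTransGen (RStep 0) x y ∧ Stuck 0 y) : NS (vec x) := by
  intro ℓ' hℓ
  obtain ⟨y, hy, rfl⟩ := reach_of_Rs hℓ
  have hs : ¬ Stuck 0 y := fun hs => h ⟨y, hy, hs⟩
  simp only [Stuck, not_and_or, not_le] at hs
  rcases hs with hs | hs | hs
  · exact ⟨1, 0, 2, tri102, by simp only [vec0, vec1, vec2]; linarith⟩
  · exact ⟨0, 1, 2, tri012, by simp only [vec0, vec1, vec2]; linarith⟩
  · exact ⟨0, 2, 1, tri021, by simp only [vec0, vec1, vec2]; linarith⟩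

theorem lev_of_ns {G : AddSubgroup ℝ} {ℓ : Fin 3 → ℝ} (hL : Lens G ℓ) (h : NS ℓ) :
    ∃ k, Lev G ℓ k := by
  obtain ⟨i, j, k, htri, hlt⟩ := h ℓ Relation.ReflTransGen.refl
  refine ⟨j, hL, h, fun a b hab => ?_⟩
  rcases htri.cases a with h1 | h1 | h1
  · rcases htri.cases b with h2 | h2 | h2
    · exact absurd (h1.trans h2.symm) hab.1
    · exact absurd h2 hab.2.1
    · rw [h1, h2]; exact hlt
  · exact absurd h1 hab.2.2
  · rcases htri.cases b with h2 | h2 | h2
    · rw [h1, h2]; linarith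
    · exact absurd h2 hab.2.1
    · exact absurd (h1.trans h2.symm) hab.1

/-- (2) never-ending reduction: not (AP) -/
theorem not_ap_of_not_stuck {x : ℝ × ℝ × ℝ} (hx : Pos3 x)
    (h : ¬ ∃ y, Relation.ReflTransGen (RStep 0) x y ∧ Stuck 0 y) :
    ¬ AP (hexV x.1 x.2.1 x.2.2 0) := by
  intro hap
  have hL := lens_Gam hx
  obtain ⟨k, hlev⟩ := lev_of_ns hL (ns_of_not_stuck h)
  obtain ⟨s, hs, hnp⟩ := hlev.exists_nonper (Gam_countable x)
  obtain ⟨z, hz, hz'⟩ := link_back hL hs
  obtain ⟨m, hm, h1, h2⟩ := hap z hz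
  exact hnp m hm (hz' m h1 h2)

/-- (1) reduction ending in an equality: (AP) -/
theorem ap_of_sumEq {x y : ℝ × ℝ × ℝ} (hx : Pos3 x)
    (h : Relation.ReflTransGen (RStep 0) x y) (he : SumEq y) (hc : ¬ Commens y) :
    AP (hexV x.1 x.2.1 x.2.2 0) := by
  have hL := lens_Gam hx
  exact ap_of_perT (Gam_countable x) hL (eqRed_of_reach h he hc hL).perT

/-- The complete answer for the model hexagons. -/
theorem hex_complete {p q r t : ℝ} (hp : 0 < p) (hq : 0 < q) (hr : 0 < r) (ht : 0 ≤ t) :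
    AP (hexV p q r t) ↔ ∃ y, Relation.ReflTransGen (RStep t) (p, q, r) y ∧ Stuck t y ∧
      (Long y ∨ Commens y ∨ (t = 0 ∧ SumEq y)) := by
  have hpos : Pos3 (p, q, r) := ⟨hp, hq, hr⟩
  constructor
  · intro h
    by_cases hex : ∃ y, Relation.ReflTransGen (RStep t) (p, q, r) y ∧ Stuck t y
    · obtain ⟨y, hy, hs⟩ := hex
      refine ⟨y, hy, hs, ?_⟩
      by_cases hstr : 0 < t ∨ StrictTriangle y
      · rcases (hex_iff hp hq hr ht hy hs hstr).1 h with h1 | h1
        · exact Or.inl h1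
        · exact Or.inr (Or.inl h1)
      · rw [not_or] at hstr
        have ht0 : t = 0 := le_antisymm (not_lt.1 hstr.1) ht
        subst ht0
        refine Or.inr (Or.inr ⟨rfl, ?_⟩)
        have h2 := hstr.2
        obtain ⟨s1, s2, s3⟩ := hs
        simp only [StrictTriangle, not_and_or, not_lt] at h2
        rcases h2 with h2 | h2 | h2
        · exact Or.inl (by linarith)
        · exact Or.inr (Or.inl (by linarith))
        · exact Or.inr (Or.inr (by linarith))
    · exfalso
      rcases ht.lt_or_eq with ht' | ht'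
      · obtain ⟨N, hN⟩ := exists_nat_ge ((p + q + r) / t)
        exact hex (exists_stuck N (p, q, r) hpos (by rwa [div_le_iff₀ ht'] at hN))
      · subst ht'
        exact not_ap_of_not_stuck hpos hex h
  · rintro ⟨y, hy, hs, h⟩
    have hm := isModel_hex hp hq hr ht
    have hypos := Reach.pos hy hpos
    by_cases h' : Long y ∨ Commens y
    · exact hm.ap_of_fin (Reach.fin ht hy hpos (fin_terminal ht hypos hs h'))
    · rw [not_or] at h'
      rcases h with h | h | ⟨ht0, he⟩
      · exact absurd h h'.1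
      · exact absurd h h'.2
      · subst ht0
        exact ap_of_sumEq hpos hy he h'.2

/-- For every final triple of the reduction. -/
theorem hex_iff_of_stuck {p q r t : ℝ} (hp : 0 < p) (hq : 0 < q) (hr : 0 < r) (ht : 0 ≤ t)
    {y : ℝ × ℝ × ℝ} (hy : Relation.ReflTransGen (RStep t) (p, q, r) y) (hs : Stuck t y) :
    AP (hexV p q r t) ↔ (Long y ∨ Commens y ∨ (t = 0 ∧ SumEq y)) := by
  constructor
  · intro h
    by_cases hstr : 0 < t ∨ StrictTriangle y
    · rcases (hex_iff hp hq hr ht hy hs hstr).1 h with h1 | h1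
      · exact Or.inl h1
      · exact Or.inr (Or.inl h1)
    · rw [not_or] at hstr
      have ht0 : t = 0 := le_antisymm (not_lt.1 hstr.1) ht
      subst ht0
      refine Or.inr (Or.inr ⟨rfl, ?_⟩)
      have h2 := hstr.2
      obtain ⟨s1, s2, s3⟩ := hs
      simp only [StrictTriangle, not_and_or, not_lt] at h2
      rcases h2 with h2 | h2 | h2
      · exact Or.inl (by linarith)
      · exact Or.inr (Or.inl (by linarith))
      · exact Or.inr (Or.inr (by linarith))
  · intro h
    exact (hex_complete hp hq hr ht).2 ⟨y, hy, hs, h⟩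

/-- **Hexagons with at most three side directions**, detailed form. -/
theorem hexagons_all (v : ZMod 6 → ℝ × ℝ) (hv : IsConvexPolygon v)
    (hd : AtMostThreeDirections v) :
    (∃ p q r t : ℝ, 0 < p ∧ 0 < q ∧ 0 < r ∧ 0 ≤ t ∧ AffinelyEquivalent v (hexV p q r t)) ∧
    ∀ p q r t : ℝ, 0 < p → 0 < q → 0 < r → 0 ≤ t → AffinelyEquivalent v (hexV p q r t) →
      (t = 0 ↔ CentrallySymmetric v) ∧
      (0 < t → ∃ y, Relation.ReflTransGen (RStep t) (p, q, r) y ∧ Stuck t y) ∧
      (∀ y, Relation.ReflTransGen (RStep t) (p, q, r) y → Stuck t y →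
        (AP v ↔ (Long y ∨ Commens y ∨ (t = 0 ∧ SumEq y)))) ∧
      ((¬ ∃ y, Relation.ReflTransGen (RStep t) (p, q, r) y ∧ Stuck t y) → ¬ AP v) := by
  refine ⟨hex_norm hv hd, fun p q r t hp hq hr ht haff =>
    ⟨centrallySymmetric_iff haff, ?_, ?_, ?_⟩⟩
  · intro ht'
    obtain ⟨N, hN⟩ := exists_nat_ge ((p + q + r) / t)
    exact exists_stuck N (p, q, r) ⟨hp, hq, hr⟩ (by rwa [div_le_iff₀ ht'] at hN)
  · intro y hy hs
    rw [haff.ap_iff]
    exact hex_iff_of_stuck hp hq hr ht hy hs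
  · intro hne hap
    rw [haff.ap_iff, hex_complete hp hq hr ht] at hap
    obtain ⟨y, hy, hs, _⟩ := hap
    exact hne ⟨y, hy, hs⟩

/-- **Hexagons with at most three side directions**: the complete answer. -/
theorem hexagons_complete (v : ZMod 6 → ℝ × ℝ) (hv : IsConvexPolygon v)
    (hd : AtMostThreeDirections v) :
    (∃ p q r t : ℝ, 0 < p ∧ 0 < q ∧ 0 < r ∧ 0 ≤ t ∧ AffinelyEquivalent v (hexV p q r t)) ∧
    ∀ p q r t : ℝ, 0 < p → 0 < q → 0 < r → 0 ≤ t → AffinelyEquivalent v (hexV p q r t) →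
      (t = 0 ↔ CentrallySymmetric v) ∧
      (AP v ↔ ∃ y, Relation.ReflTransGen (RStep t) (p, q, r) y ∧ Stuck t y ∧
        (Long y ∨ Commens y ∨ (t = 0 ∧ SumEq y))) := by
  refine ⟨hex_norm hv hd, fun p q r t hp hq hr ht haff => ⟨centrallySymmetric_iff haff, ?_⟩⟩
  rw [haff.ap_iff]
  exact hex_complete hp hq hr ht

end SympH
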