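import Pool.Agent.W_93b186_h34.Level

/-!
# Never-ending reductions: a state which is not periodic
-/

namespace SympH

/-! ### Finite fully invariant sets -/

/-- `X` is a finite set of states satisfying `P`, forward and backward invariant under `F` -/
structure FI {A : Type*} (P : A → Prop) (F : A → A) (X : Set A) : Prop where
  fin : X.Finite
  sub : ∀ x ∈ X, P x
  iff : ∀ x, P x → (x ∈ X ↔ F x ∈ X)

section
variable {A B : Type*} {P : A → Prop} {F : A → A} {Q : B → Prop} {F' : B → B} {X : Set A}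

theorem FI.iterate (h : FI P F X) (hP : ∀ x, P x → P (F x)) : ∀ (n : ℕ) (x : A), P x →
    (x ∈ X ↔ F^[n] x ∈ X) := by
  intro n
  induction n with
  | zero => intro x _; rfl
  | succ n ih =>
    intro x hx
    rw [Function.iterate_succ_apply, h.iff x hx]
    exact ih _ (hP x hx)

theorem FI.pull (h : FI P F X) (hP : ∀ x, P x → P (F x)) (em : B → A)
    (hem : ∀ s, Q s → P (em s)) (hQ : ∀ s, Q s → Q (F' s))
    (hinj : ∀ s s', Q s → Q s' → em s = em s' → s = s')
    (hf : ∀ s, Q s → ∃ n, F^[n] (em s) = em (F' s)) :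
    FI Q F' {s | Q s ∧ em s ∈ X} := by
  refine ⟨?_, fun s hs => hs.1, fun s hs => ?_⟩
  · refine Set.Finite.of_finite_image (f := em) (h.fin.subset ?_) ?_
    · rintro _ ⟨s, hs, rfl⟩; exact hs.2
    · intro s hs s' hs' he
      exact hinj s s' hs.1 hs'.1 he
  · obtain ⟨n, hn⟩ := hf s hs
    have := h.iterate hP n (em s) (hem s hs)
    rw [hn] at this
    constructor
    · intro hx; exact ⟨hQ s hs, this.1 hx.2⟩
    · intro hx; exact ⟨hs, this.2 hx.2⟩

theorem FI.pull_lt (h : FI P F X) (em : B → A)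
    (hinj : ∀ s s', Q s → Q s' → em s = em s' → s = s') {x : A} (hx : x ∈ X)
    (hne : ∀ s, Q s → em s ≠ x) : Set.ncard {s | Q s ∧ em s ∈ X} < X.ncard := by
  have h1 : Set.ncard {s | Q s ∧ em s ∈ X} = Set.ncard (em '' {s | Q s ∧ em s ∈ X}) := by
    refine (Set.InjOn.ncard_image ?_).symm
    intro s hs s' hs' he
    exact hinj s s' hs.1 hs'.1 he
  rw [h1]
  apply Set.ncard_lt_ncard _ h.fin
  constructor
  · rintro _ ⟨s, hs, rfl⟩; exact hs.2
  · intro hsub
    obtain ⟨s, hs, he⟩ := hsub hx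
    exact hne s hs.1 he

/-- the orbit of a periodic point -/
theorem FI.orbit {x : A} (hP : ∀ x, P x → P (F x))
    (hinj : ∀ x y, P x → P y → F x = F y → x = y) (hx : P x) {n : ℕ} (hn : 1 ≤ n)
    (h : F^[n] x = x) : FI P F {y | ∃ a < n, F^[a] x = y} := by
  have hPa : ∀ a, P (F^[a] x) := by
    intro a
    induction a with
    | zero => exact hx
    | succ a ih => rw [Function.iterate_succ_apply']; exact hP _ ih
  refine ⟨?_, ?_, ?_⟩
  · have : {y | ∃ a < n, F^[a] x = y} = (fun a => F^[a] x) '' (Set.Iio n) := by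
      ext y; simp [Set.mem_image]
    rw [this]
    exact (Set.finite_Iio n).image _
  · rintro y ⟨a, _, rfl⟩; exact hPa a
  · intro y hy
    constructor
    · rintro ⟨a, ha, rfl⟩
      by_cases hlast : a + 1 = n
      · refine ⟨0, by omega, ?_⟩
        show x = F (F^[a] x)
        rw [← Function.iterate_succ_apply' (f := F), Nat.succ_eq_add_one, hlast, h]
      · exact ⟨a + 1, by omega, Function.iterate_succ_apply' _ _ _⟩
    · rintro ⟨a, ha, he⟩
      rcases Nat.eq_zero_or_pos a with h0 | h0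
      · subst h0
        refine ⟨n - 1, by omega, ?_⟩
        apply hinj _ _ (hPa _) hy
        rw [← he, ← Function.iterate_succ_apply' (f := F)]
        have : n - 1 + 1 = n := by omega
        rw [Nat.succ_eq_add_one, this, h]; rfl
      · refine ⟨a - 1, by omega, ?_⟩
        apply hinj _ _ (hPa _) hy
        rw [← he, ← Function.iterate_succ_apply' (f := F)]
        congr 2
        omega

end

section
variable {G : AddSubgroup ℝ} {ℓ ℓ' : Fin 3 → ℝ} {i j k : Fin 3}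

theorem emb2_inj (tij : i ≠ j) {s s' : DS} (hs : DOk G ℓ i s) (hs' : DOk G ℓ i s')
    (ht : Tri i j k) (h : emb2 ℓ i j k s = emb2 ℓ i j k s') : s = s' := by
  obtain ⟨l, e, f⟩ := s
  obtain ⟨l', e', f'⟩ := s'
  have hl : l = j ∨ l = k := by
    rcases ht.cases l with h | h | h
    · exact absurd h.symm hs.ne
    · exact Or.inl h
    · exact Or.inr h
  have hl' : l' = j ∨ l' = k := by
    rcases ht.cases l' with h | h | h
    · exact absurd h.symm hs'.ne
    · exact Or.inl h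
    · exact Or.inr h
  have tjk := ht.jk
  unfold emb2 at h
  simp only at h
  rcases hl with h1 | h1 <;> rcases hl' with h2 | h2 <;> subst h1 <;> subst h2
  · simp only [if_true, DS.mk.injEq, true_and, sub_right_inj] at h
    rw [h.1, h.2]
  · simp only [if_true, tjk.symm, if_false, DS.mk.injEq] at h
    exact absurd h.1 tij
  · simp only [if_true, tjk.symm, if_false, DS.mk.injEq] at h
    exact absurd h.1.symm tij
  · simp only [tjk.symm, if_false, DS.mk.injEq, true_and, add_right_inj] at h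
    rw [h.1, h.2]

theorem embT_inj (tij : i ≠ j) {s s' : DS} (hs : DOk G ℓ i s) (hs' : DOk G ℓ i s')
    (ht : Tri i j k) (h : embT ℓ i j k s = embT ℓ i j k s') : s = s' := by
  obtain ⟨l, e, f⟩ := s
  obtain ⟨l', e', f'⟩ := s'
  have hl : l = j ∨ l = k := by
    rcases ht.cases l with h | h | h
    · exact absurd h.symm hs.ne
    · exact Or.inl h
    · exact Or.inr h
  have hl' : l' = j ∨ l' = k := by
    rcases ht.cases l' with h | h | h
    · exact absurd h.symm hs'.ne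
    · exact Or.inl h
    · exact Or.inr h
  have tjk := ht.jk
  unfold embT at h
  simp only at h
  rcases hl with h1 | h1 <;> rcases hl' with h2 | h2 <;> subst h1 <;> subst h2
  · simp only [if_true, TS.mk.injEq, true_and, add_right_inj] at h
    rw [h.1, h.2]
  · simp only [if_true, tjk.symm, if_false, TS.mk.injEq] at h
    exact absurd h.1 tij
  · simp only [if_true, tjk.symm, if_false, TS.mk.injEq] at h
    exact absurd h.1.symm tij
  · simp only [tjk.symm, if_false, TS.mk.injEq, true_and, sub_right_inj] at h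
    rw [h.1, h.2]

/-- after one step, an embedded state is not an embedded state (dominating `k`) -/
theorem Sx_emb2_ne (o : Ord G ℓ i j k) (hdom : ℓ i + ℓ j < ℓ k) {s s' : DS}
    (hs : DOk G ℓ i s) (hs' : DOk G ℓ i s') :
    emb2 ℓ i j k s' ≠ Sx ℓ i j k (emb2 ℓ i j k s) := by
  obtain ⟨tij, tjk, tik⟩ := o.tri
  obtain ⟨l, e, f⟩ := s
  obtain ⟨l', e', f'⟩ := s'
  have hl : l = j ∨ l = k := by
    rcases o.tri.cases l with h | h | h
    · exact absurd h.symm hs.ne
    · exact Or.inl h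
    · exact Or.inr h
  have hl' : l' = j ∨ l' = k := by
    rcases o.tri.cases l' with h | h | h
    · exact absurd h.symm hs'.ne
    · exact Or.inl h
    · exact Or.inr h
  obtain ⟨c1, c2, c3, c4, c5, c6, c7⟩ := hs
  obtain ⟨b1, b2, b3, b4, b5, b6, b7⟩ := hs'
  simp only at c1 c2 c3 c4 c5 c6 c7 b1 b2 b3 b4 b5 b6 b7
  have ej : ∀ x y : ℝ, emb2 ℓ i j k ⟨j, x, y⟩ = ⟨i, ℓ k - x, ℓ k - y⟩ := fun x y => by
    simp [emb2]
  have ek : ∀ x y : ℝ, emb2 ℓ i j k ⟨k, x, y⟩ = ⟨j, ℓ k - ℓ j + x, ℓ k - ℓ j + y⟩ :=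
    fun x y => by simp [emb2, tjk.symm]
  rcases hl with h1 | h1 <;> rcases hl' with h2 | h2 <;> rw [h1, h2]
  · rw [ej, ej, Sx_i1 (by linarith)]
    intro h
    simp only [DS.mk.injEq] at h
    exact tij h.1
  · rw [ej, ek, Sx_i1 (by linarith)]
    intro h
    simp only [DS.mk.injEq, true_and] at h
    linarith [h.1]
  · rw [ek, ej, Sx_j2 tij (by linarith)]
    intro h
    simp only [DS.mk.injEq, true_and] at h
    linarith [h.1]
  · rw [ek, ek, Sx_j2 tij (by linarith)]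
    intro h
    simp only [DS.mk.injEq] at h
    exact tij h.1.symm

/-! ### The children maps -/

/-- child letter: `b = false` is the child `emb2`, `b = true` is `Sx ∘ emb2` -/
def chl (i j k l : Fin 3) (b : Bool) : Fin 3 :=
  if l = i then (if b then k else j) else (if b then j else k)

/-- coordinates of the state in terms of the coordinates of the child state -/
def chm (ℓ : Fin 3 → ℝ) (i j k l : Fin 3) (b : Bool) (p : ℝ × ℝ) : ℝ × ℝ :=
  if l = i then (if b then (ℓ j - p.2, ℓ k - ℓ j - ℓ i + p.1) else (ℓ k - p.1, ℓ k - p.2))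
  else (if b then (p.2, ℓ k - ℓ j - p.1) else (ℓ k - ℓ j + p.1, ℓ k - ℓ j + p.2))

def toDS (l : Fin 3) (p : ℝ × ℝ) : DS := ⟨l, p.1, p.2⟩

theorem child_eq (o : Ord G ℓ i j k) (hdom : ℓ i + ℓ j < ℓ k) {l : Fin 3} (hl : l ≠ k) (b : Bool)
    {p : ℝ × ℝ} (hp : DOk G ℓ i (toDS (chl i j k l b) p)) :
    toDS l (chm ℓ i j k l b p) =
      if b then Sx ℓ i j k (emb2 ℓ i j k (toDS (chl i j k l b) p))
      else emb2 ℓ i j k (toDS (chl i j k l b) p) := by
  obtain ⟨tij, tjk, tik⟩ := o.tri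
  obtain ⟨x, y⟩ := p
  have hpi := o.lens.pos i
  have hl' : l = i ∨ l = j := by
    rcases o.tri.cases l with h | h | h
    · exact Or.inl h
    · exact Or.inr h
    · exact absurd h hl
  obtain ⟨c1, c2, c3, c4, c5, c6, c7⟩ := hp
  simp only [toDS] at c1 c2 c3 c4 c5 c6 c7
  rcases hl' with rfl | rfl <;> cases b
  · simp [toDS, chl, chm, emb2]
  · have e1 : emb2 ℓ l j k ⟨k, x, y⟩ = ⟨j, ℓ k - ℓ j + x, ℓ k - ℓ j + y⟩ := by
      simp [emb2, tjk.symm]
    simp only [toDS, chl, chm, if_true]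
    rw [e1, Sx_j2 tij (by linarith)]
    congr 1 <;> ring
  · simp [toDS, chl, chm, emb2, tjk.symm, tij.symm]
  · have e1 : emb2 ℓ i l k ⟨l, x, y⟩ = ⟨i, ℓ k - x, ℓ k - y⟩ := by simp [emb2]
    simp only [toDS, chl, chm, if_true, tij.symm, if_false]
    rw [e1, Sx_i1 (by linarith)]
    congr 1 <;> ring

theorem chm_cont (l : Fin 3) (b : Bool) : Continuous (chm ℓ i j k l b) := by
  unfold chm
  split_ifs <;> fun_prop

theorem chm_inj (l : Fin 3) (b : Bool) : Function.Injective (chm ℓ i j k l b) := by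
  rintro ⟨x, y⟩ ⟨x', y'⟩ h
  unfold chm at h
  split_ifs at h <;> simp only [Prod.mk.injEq] at h ⊢ <;> constructor <;>
    linarith [h.1, h.2]

theorem chm_share (l : Fin 3) (b : Bool) {p q : ℝ × ℝ}
    (h : Share (chm ℓ i j k l b p) (chm ℓ i j k l b q)) : Share p q := by
  obtain ⟨x, y⟩ := p
  obtain ⟨x', y'⟩ := q
  unfold chm at h
  unfold Share at *
  split_ifs at h <;> simp only at h ⊢ <;> rcases h with h | h <;>
    first | exact Or.inl (by linarith) | exact Or.inr (by linarith)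

theorem chm_map (o : Ord G ℓ i j k) (hdom : ℓ i + ℓ j < ℓ k) (l : Fin 3) (b : Bool)
    {p : ℝ × ℝ} (hp : p ∈ Box (ℓ i)) : chm ℓ i j k l b p ∈ Box (ℓ k) := by
  have hpi := o.lens.pos i
  have hij := o.ij
  have hjk := o.jk
  obtain ⟨⟨h1, h2⟩, h3, h4⟩ := hp
  unfold chm Box
  split_ifs <;> simp only [Set.mem_ofPred_eq] <;> refine ⟨⟨?_, ?_⟩, ?_, ?_⟩ <;> linarith

/-- `false` children have positive coordinates -/
theorem chm_pos (o : Ord G ℓ i j k) (l : Fin 3) {p : ℝ × ℝ} (hp : p ∈ Box (ℓ i)) :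
    0 < (chm ℓ i j k l false p).1 ∧ 0 < (chm ℓ i j k l false p).2 := by
  have hpi := o.lens.pos i
  have hij := o.ij
  have hjk := o.jk
  obtain ⟨⟨h1, h2⟩, h3, h4⟩ := hp
  unfold chm
  split_ifs <;> simp at * <;> constructor <;> linarith

theorem chm_disj (o : Ord G ℓ i j k) (hdom : ℓ i + ℓ j < ℓ k) (l : Fin 3) {p q : ℝ × ℝ}
    (hp : p ∈ Box (ℓ i)) (hq : q ∈ Box (ℓ i)) (hp1 : 0 < p.1) (hp2 : 0 < p.2) (hq1 : 0 < q.1)
    (hq2 : 0 < q.2) : ¬ Share (chm ℓ i j k l false p) (chm ℓ i j k l true q) := by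
  have hpi := o.lens.pos i
  have hij := o.ij
  have hjk := o.jk
  obtain ⟨⟨h1, h2⟩, h3, h4⟩ := hp
  obtain ⟨⟨g1, g2⟩, g3, g4⟩ := hq
  unfold chm Share
  split_ifs <;> simp at * <;> constructor <;> intro h <;> linarith

/-- genericity passes to the children -/
theorem chm_gen (hL : Lens G ℓ) (l : Fin 3) (b : Bool) {p : ℝ × ℝ}
    (h1 : (chm ℓ i j k l b p).1 ∉ G) (h2 : (chm ℓ i j k l b p).2 ∉ G) : p.1 ∉ G ∧ p.2 ∉ G := by
  have mi := hL.mem i
  have mj := hL.mem j
  have mk := hL.mem k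
  have a1 : ∀ {c x : ℝ}, c ∈ G → c - x ∉ G → x ∉ G := fun hc h hx => h (G.sub_mem hc hx)
  have a2 : ∀ {c x : ℝ}, c ∈ G → c + x ∉ G → x ∉ G := fun hc h hx => h (G.add_mem hc hx)
  unfold chm at h1 h2
  split_ifs at h1 h2
  · exact ⟨a2 (G.sub_mem (G.sub_mem mk mj) mi) h2, a1 mj h1⟩
  · exact ⟨a1 mk h1, a1 mk h2⟩
  · exact ⟨a1 (G.sub_mem mk mj) h2, h1⟩
  · exact ⟨a2 (G.sub_mem mk mj) h1, a2 (G.sub_mem mk mj) h2⟩

end

/-- **A never-ending reduction gives a generic state which is not periodic.** -/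
theorem Lev.exists_nonper {G : AddSubgroup ℝ} {ℓ : Fin 3 → ℝ} {k : Fin 3}
    (hG : (G : Set ℝ).Countable) (h : Lev G ℓ k) :
    ∃ s, TOk G ℓ s ∧ ∀ n, 1 ≤ n → (T ℓ)^[n] s ≠ s := by
  obtain ⟨Λ, κ, hΛ0, hκ0, hseq⟩ := h.seq
  -- the letters at level `m`: `i = κ (m+1)`, `j = J m`, `k = κ m`
  set J : ℕ → Fin 3 := fun m => th (κ (m + 1)) (κ m) with hJ
  have ho : ∀ m, Ord G (Λ m) (κ (m + 1)) (J m) (κ m) := fun m => (hseq m).2.1
  have hdom : ∀ m, Λ m (κ (m + 1)) + Λ m (J m) < Λ m (κ m) := fun m =>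
    (hseq m).1.dom _ _ (ho m).tri
  have hsz : ∀ m, Λ (m + 1) (κ (m + 1)) = Λ m (κ (m + 1)) := fun m => (hseq m).2.2.1
  have htr : ∀ m, Transf G (Λ m) (Λ (m + 1)) (κ (m + 1)) := fun m => (hseq m).2.2.2
  -- the map at level `m ≥ 1`
  set W : ℕ → DS → DS := fun m => Sx (Λ m) (κ (m + 1)) (J m) (κ m) with hW
  set E : ℕ → DS → DS := fun m => emb2 (Λ m) (κ (m + 1)) (J m) (κ m) with hE
  set Q : ℕ → DS → Prop := fun m => DOk G (Λ m) (κ m) with hQ
  have hQW : ∀ m s, Q m s → Q m (W m s) := fun m s hs => Sx_ok (ho m) hs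
  -- states of level `m + 1` are states of `D_{κ (m+1)}` at level `m`
  have hQd : ∀ m s, Q (m + 1) s → DOk G (Λ m) (κ (m + 1)) s := by
    intro m s hs
    exact ⟨hs.ne, hs.e0, by rw [← hsz m]; exact hs.e1, hs.f0, by rw [← hsz m]; exact hs.f1,
      hs.eg, hs.fg⟩
  have hQE : ∀ m s, Q (m + 1) s → Q m (E m s) := fun m s hs => emb2_ok (ho m) (hQd m s hs)
  -- steps of level `m + 1` are steps of `D_{κ (m+1)}` at level `m`
  have hsrel : ∀ m s, Q (m + 1) s → ∃ n, SRel (Λ m) (κ (m + 1)) n s (W (m + 1) s) := by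
    intro m s hs
    obtain ⟨n, _, v, hv, he⟩ := Sx_srel (ho (m + 1)) hs
    obtain ⟨n', hn'⟩ := htr m n _ v ⟨hs.ne, hs.e0, hs.e1, hs.eg⟩ hv
    refine ⟨n', v, hn', ?_⟩
    show Sx _ _ _ _ s = _
    rw [he]
    unfold nxt
    rw [hsz m]
  have hWE : ∀ m s, Q (m + 1) s → ∃ n, (W m)^[n] (E m s) = E m (W (m + 1) s) := by
    intro m s hs
    obtain ⟨n, hn⟩ := hsrel m s hs
    obtain ⟨n', _, _, h3⟩ := emb2_srel (ho m) (hQd m s hs) hn
    exact ⟨n', h3⟩
  have hTE : ∀ s, Q 1 s → ∃ n, (T (Λ 0))^[n] (embT (Λ 0) (κ 1) (J 0) (κ 0) s) =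
      embT (Λ 0) (κ 1) (J 0) (κ 0) (W 1 s) := by
    intro s hs
    obtain ⟨n, hn⟩ := hsrel 0 s hs
    obtain ⟨n', _, _, h3⟩ := embT_srel (ho 0) (hQd 0 s hs) hn
    exact ⟨n', h3⟩
  -- the Cantor scheme
  obtain ⟨c, l, p, _, hl, hV, hbox, hp, hg1, hg2⟩ := cantor_scheme
    (L := fun m => Λ (m + 1) (κ (m + 1))) (V := fun m l => l ≠ κ (m + 1))
    (cl := fun m l b => chl (κ (m + 2)) (J (m + 1)) (κ (m + 1)) l b)
    (M := fun m l b => chm (Λ (m + 1)) (κ (m + 2)) (J (m + 1)) (κ (m + 1)) l b)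
    (fun m => ((hseq (m + 1)).1.lens.pos _).le)
    (by
      intro m l b _
      obtain ⟨tij, tjk, tik⟩ := (ho (m + 1)).tri
      simp only [chl]
      split_ifs
      · exact tik.symm
      · exact tij.symm
      · exact tij.symm
      · exact tik.symm)
    (fun m l b => chm_cont l b)
    (fun m l b _ => chm_inj l b)
    (by
      intro m l b _ p hp
      refine chm_map (ho (m + 1)) (hdom (m + 1)) l b ?_
      rw [← hsz (m + 1)]; exact hp)
    (fun m l b p q _ hh => chm_share l b hh)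
    (by
      intro m l p q _ hp hq
      have hp' : p ∈ Box (Λ (m + 2) (κ (m + 3))) := by rw [← hsz (m + 2)]; exact hp
      have hq' : q ∈ Box (Λ (m + 2) (κ (m + 3))) := by rw [← hsz (m + 2)]; exact hq
      refine chm_disj (ho (m + 1)) (hdom (m + 1)) l ?_ ?_
        (chm_pos (ho (m + 2)) _ hp').1 (chm_pos (ho (m + 2)) _ hp').2
        (chm_pos (ho (m + 2)) _ hq').1 (chm_pos (ho (m + 2)) _ hq').2
      · rw [← hsz (m + 1)]
        exact chm_map (ho (m + 2)) (hdom (m + 2)) _ _ hp'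
      · rw [← hsz (m + 1)]
        exact chm_map (ho (m + 2)) (hdom (m + 2)) _ _ hq')
    (κ 2) (ho 1).tri.ik (G : Set ℝ) hG
  -- the states
  set S : ℕ → DS := fun m => toDS (l m) (p m) with hS
  have hgen : ∀ m, (p m).1 ∉ G ∧ (p m).2 ∉ G := by
    intro m
    induction m with
    | zero => exact ⟨hg1, hg2⟩
    | succ m ih =>
      rw [hp m] at ih
      exact chm_gen (hseq (m + 1)).1.lens _ _ ih.1 ih.2
  have hSok : ∀ m, Q (m + 1) (S m) := by
    intro m
    obtain ⟨⟨b1, b2⟩, b3, b4⟩ := hbox m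
    obtain ⟨g1, g2⟩ := hgen m
    have hL := (hseq (m + 1)).1.lens
    have z1 : 0 < (p m).1 := lt_of_le_of_ne b1 (gen_ne G.zero_mem g1).symm
    have z2 : 0 < (p m).2 := lt_of_le_of_ne b3 (gen_ne G.zero_mem g2).symm
    exact ⟨(hV m).symm, z1, lt_of_le_of_ne b2 (gen_ne (hL.mem _) g1), z2,
      lt_of_le_of_ne b4 (gen_ne (hL.mem _) g2), g1, g2⟩
  have hchild : ∀ m, S m = if c m then W (m + 1) (E (m + 1) (S (m + 1)))
      else E (m + 1) (S (m + 1)) := by
    intro m
    have h1 := hQd (m + 1) _ (hSok (m + 1))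
    have := child_eq (ho (m + 1)) (hdom (m + 1)) (hV m) (c m) (p := p (m + 1))
      (by rw [← hl m]; exact h1)
    rw [← hp m, ← hl m] at this
    exact this
  -- descent
  have descent : ∀ N m (X : Set DS), FI (Q (m + 1)) (W (m + 1)) X → S m ∈ X → X.ncard ≤ N →
      False := by
    intro N
    induction N with
    | zero =>
      intro m X hX hm hc
      have := (Set.ncard_pos hX.fin).2 ⟨_, hm⟩
      omega
    | succ N ih =>
      intro m X hX hm hc
      have hinj : ∀ s s', Q (m + 2) s → Q (m + 2) s' → E (m + 1) s = E (m + 1) s' → s = s' :=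
        fun s s' hs hs' he =>
          emb2_inj (ho (m + 1)).tri.ij (hQd _ _ hs) (hQd _ _ hs') (ho (m + 1)).tri he
      have hpull := hX.pull (hQW (m + 1)) (E (m + 1)) (Q := Q (m + 2)) (F' := W (m + 2))
        (hQE (m + 1)) (hQW (m + 2)) hinj (hWE (m + 1))
      have hokE := hQE (m + 1) _ (hSok (m + 1))
      have hEX : E (m + 1) (S (m + 1)) ∈ X := by
        have h1 := hchild m
        cases hcm : c m
        · rw [hcm] at h1
          simp only [Bool.false_eq_true, if_false] at h1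
          rw [← h1]; exact hm
        · rw [hcm] at h1
          simp only [if_true] at h1
          rw [hX.iff _ hokE, ← h1]; exact hm
      have hWX : W (m + 1) (E (m + 1) (S (m + 1))) ∈ X := (hX.iff _ hokE).1 hEX
      have hlt := hX.pull_lt (E (m + 1)) hinj hWX (fun s hs =>
        Sx_emb2_ne (ho (m + 1)) (hdom (m + 1)) (hQd _ _ (hSok (m + 1))) (hQd _ _ hs))
      exact ih (m + 1) _ hpull ⟨hSok (m + 1), hEX⟩ (by omega)
  -- conclusion
  subst hΛ0
  refine ⟨embT (Λ 0) (κ 1) (J 0) (κ 0) (S 0), embT_ok (ho 0) (hQd 0 _ (hSok 0)), ?_⟩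
  intro n hn hper
  have hL := (hseq 0).1.lens
  have hX := FI.orbit (P := TOk G (Λ 0)) (F := T (Λ 0)) (fun x hx => T_ok hL hx)
    (fun x y hx hy he => T_inj hL hx hy he) (embT_ok (ho 0) (hQd 0 _ (hSok 0))) hn hper
  have hpull := hX.pull (fun x hx => T_ok hL hx) (embT (Λ 0) (κ 1) (J 0) (κ 0)) (Q := Q 1)
    (F' := W 1) (fun s hs => embT_ok (ho 0) (hQd 0 s hs)) (hQW 1)
    (fun s s' hs hs' he => embT_inj (ho 0).tri.ij (hQd _ _ hs) (hQd _ _ hs') (ho 0).tri he) hTE
  exact descent _ 0 _ hpull ⟨hSok 0, 0, by omega, rfl⟩ le_rfl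

end SympH
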