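import Pool.Agent.W_93b186_h34.Redu
import Pool.Agent.W_93b186_h34.Cantor

/-!
# Never-ending reductions: the levels of the renormalisation
-/

namespace SympH

section
variable {G : AddSubgroup ℝ} {ℓ ℓ' : Fin 3 → ℝ} {i j k : Fin 3}

/-- one reduction step -/
def Rs (ℓ ℓ' : Fin 3 → ℝ) : Prop :=
  ∃ i j k, Tri i j k ∧ ℓ i + ℓ k < ℓ j ∧ ℓ' i = ℓ i ∧ ℓ' k = ℓ k ∧ ℓ' j = ℓ j - ℓ i - ℓ k

/-- the reduction never stops -/
def NS (ℓ : Fin 3 → ℝ) : Prop :=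
  ∀ ℓ', Relation.ReflTransGen Rs ℓ ℓ' → ∃ i j k, Tri i j k ∧ ℓ' i + ℓ' k < ℓ' j

theorem NS.step (h : NS ℓ) (hs : Rs ℓ ℓ') : NS ℓ' := fun _ h' =>
  h _ (Relation.ReflTransGen.head hs h')

/-- first hits of type `a` transfer from `ℓ'` to `ℓ` -/
def Transf (G : AddSubgroup ℝ) (ℓ ℓ' : Fin 3 → ℝ) (a : Fin 3) : Prop :=
  ∀ n v w, Ok G ℓ' v → Hit ℓ' a n v w → ∃ m, Hit ℓ a m v w

/-- reduce entries different from `a` until `a` is dominating -/
theorem exists_dom {a : Fin 3} : ∀ (N : ℕ) (ℓ : Fin 3 → ℝ), Lens G ℓ → NS ℓ →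
    ℓ 0 + ℓ 1 + ℓ 2 ≤ N * ℓ a →
    ∃ ℓ', Lens G ℓ' ∧ NS ℓ' ∧ ℓ' a = ℓ a ∧ (∀ b c, Tri b c a → ℓ' b + ℓ' c < ℓ' a) ∧
      Transf G ℓ ℓ' a ∧ (∀ v, Ok G ℓ' v → Ok G ℓ v) ∧ ∀ b, b ≠ a → ℓ b ≤ ℓ a → ℓ' b = ℓ b := by
  intro N
  induction N with
  | zero =>
    intro ℓ hL _ h
    have h0 := hL.pos 0
    have h1 := hL.pos 1
    have h2 := hL.pos 2
    simp only [Nat.cast_zero, zero_mul] at h
    exfalso; linarith
  | succ N ih =>
    intro ℓ hL hns h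
    by_cases hdom : ∀ b c, Tri b c a → ℓ b + ℓ c < ℓ a
    · exact ⟨ℓ, hL, hns, rfl, hdom, fun n v w _ hh => ⟨n, hh⟩, fun v hv => hv,
        fun _ _ _ => rfl⟩
    · obtain ⟨i, j, k, htri, hlt⟩ := hns ℓ Relation.ReflTransGen.refl
      have hja : a ≠ j := by
        rintro rfl
        apply hdom
        intro b c hbc
        rcases htri.cases b with h1 | h1 | h1
        · rcases htri.cases c with h2 | h2 | h2
          · exact absurd (h1.trans h2.symm) hbc.1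
          · exact absurd h2 hbc.2.1
          · rw [h1, h2]; exact hlt
        · exact absurd h1 hbc.2.2
        · rcases htri.cases c with h2 | h2 | h2
          · rw [h1, h2]; linarith
          · exact absurd h2 hbc.2.1
          · exact absurd (h1.trans h2.symm) hbc.1
      obtain ⟨tij, tjk, tik⟩ := htri
      set ℓ₁ : Fin 3 → ℝ := Function.update ℓ j (ℓ j - ℓ i - ℓ k) with hℓ₁
      have ej : ℓ₁ j = ℓ j - ℓ i - ℓ k := by simp [hℓ₁]
      have eo : ∀ b, b ≠ j → ℓ₁ b = ℓ b := fun b hb => by simp [hℓ₁, hb]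
      have hL₁ : Lens G ℓ₁ := by
        constructor
        · intro b
          by_cases hb : b = j
          · rw [hb, ej]; linarith
          · rw [eo b hb]; exact hL.pos b
        · intro b
          by_cases hb : b = j
          · rw [hb, ej]; exact G.sub_mem (G.sub_mem (hL.mem j) (hL.mem i)) (hL.mem k)
          · rw [eo b hb]; exact hL.mem b
      have hred : Redu G ℓ ℓ₁ i j k :=
        ⟨hL, hL₁, ⟨tij, tjk, tik⟩, eo i tij, eo k tjk.symm, ej⟩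
      have hns₁ : NS ℓ₁ := hns.step ⟨i, j, k, ⟨tij, tjk, tik⟩, hlt, eo i tij, eo k tjk.symm, ej⟩
      have hsum : ∀ f : Fin 3 → ℝ, f 0 + f 1 + f 2 = f i + f j + f k := by
        have : ∀ i j k : Fin 3, Tri i j k → ∀ f : Fin 3 → ℝ, f 0 + f 1 + f 2 = f i + f j + f k := by
          intro i j k h f
          fin_cases i <;> fin_cases j <;> fin_cases k <;> simp [Tri] at h <;>
            simp only [Fin.zero_eta, Fin.mk_one, Fin.reduceFinMk] <;> ring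
        exact this i j k ⟨tij, tjk, tik⟩
      have ha' : ℓ a ≤ ℓ i + ℓ k := by
        have hi := hL.pos i
        have hk := hL.pos k
        rcases Tri.cases ⟨tij, tjk, tik⟩ a with h1 | h1 | h1
        · rw [h1]; linarith
        · exact absurd h1 hja
        · rw [h1]; linarith
      have ha1 : ℓ₁ a = ℓ a := eo a hja
      obtain ⟨ℓ', c1, c2, c3, c4, c5, c6, c7⟩ := ih ℓ₁ hL₁ hns₁ (by
        rw [hsum ℓ₁, eo i tij, eo k tjk.symm, ej, ha1]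
        rw [hsum ℓ] at h
        push_cast at h
        linarith)
      refine ⟨ℓ', c1, c2, c3.trans ha1, c4, ?_, fun v hv => hred.ok_up (c6 v hv), ?_⟩
      · intro n v w hv hh
        obtain ⟨m, hm⟩ := c5 n v w hv hh
        obtain ⟨m', _, hm'⟩ := hred.hit hja (c6 v hv) hm
        exact ⟨m', hm'⟩
      · intro b hb hle
        have hbj : b ≠ j := by
          rintro rfl
          linarith
        have hb1 := eo b hbj
        rw [← hb1]
        exact c7 b hb (by rw [hb1, ha1]; exact hle)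

/-- a level of the renormalisation -/
structure Lev (G : AddSubgroup ℝ) (ℓ : Fin 3 → ℝ) (k : Fin 3) : Prop where
  lens : Lens G ℓ
  ns : NS ℓ
  dom : ∀ i j, Tri i j k → ℓ i + ℓ j < ℓ k

theorem Lev.exists_dom (h : Lev G ℓ k) (a : Fin 3) : ∃ ℓ', Lev G ℓ' a ∧ ℓ' a = ℓ a ∧
    Transf G ℓ ℓ' a ∧ ∀ b, b ≠ a → ℓ b ≤ ℓ a → ℓ' b = ℓ b := by
  obtain ⟨N, hN⟩ := exists_nat_ge ((ℓ 0 + ℓ 1 + ℓ 2) / ℓ a)
  rw [div_le_iff₀ (h.lens.pos a)] at hN
  obtain ⟨ℓ', c1, c2, c3, c4, c5, _, c7⟩ := SympH.exists_dom N ℓ h.lens h.ns hN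
  exact ⟨ℓ', ⟨c1, c2, c4⟩, c3, c5, c7⟩

/-- the next level -/
theorem Lev.next (h : Lev G ℓ k) : ∃ i j ℓ', Ord G ℓ i j k ∧ Lev G ℓ' i ∧ ℓ' i = ℓ i ∧
    Transf G ℓ ℓ' i := by
  have key : ∀ a b, Tri a b k → ℓ a < ℓ b → ∃ i j ℓ', Ord G ℓ i j k ∧ Lev G ℓ' i ∧
      ℓ' i = ℓ i ∧ Transf G ℓ ℓ' i := by
    intro a b hab hlt
    obtain ⟨ℓ', c1, c2, c3, _⟩ := h.exists_dom a
    have hd := h.dom a b hab
    exact ⟨a, b, ℓ', ⟨h.lens, hab, hlt, by linarith [h.lens.pos a]⟩, c1, c2, c3⟩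
  obtain ⟨a, b, hab⟩ : ∃ a b, Tri a b k := by
    have : ∀ k : Fin 3, ∃ a b, Tri a b k := by unfold Tri; decide
    exact this k
  rcases lt_trichotomy (ℓ a) (ℓ b) with hlt | heq | hlt
  · exact key a b hab hlt
  · exfalso
    obtain ⟨ℓ', c1, c2, c3, c4⟩ := h.exists_dom a
    have h1 := c1.dom b k hab.rot
    have h2 := c4 b hab.1.symm heq.ge
    have h3 := c1.lens.pos k
    rw [h2, c2] at h1
    linarith
  · exact key b a hab.swap hlt

/-- the sequence of levels -/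
theorem Lev.seq (h : Lev G ℓ k) : ∃ (Λ : ℕ → Fin 3 → ℝ) (κ : ℕ → Fin 3), Λ 0 = ℓ ∧ κ 0 = k ∧
    ∀ m, Lev G (Λ m) (κ m) ∧ Ord G (Λ m) (κ (m + 1)) (th (κ (m + 1)) (κ m)) (κ m) ∧
      Λ (m + 1) (κ (m + 1)) = Λ m (κ (m + 1)) ∧ Transf G (Λ m) (Λ (m + 1)) (κ (m + 1)) := by
  classical
  let LD := {x : (Fin 3 → ℝ) × Fin 3 // Lev G x.1 x.2}
  have hnext : ∀ x : LD, ∃ y : LD, Ord G x.1.1 y.1.2 (th y.1.2 x.1.2) x.1.2 ∧
      y.1.1 y.1.2 = x.1.1 y.1.2 ∧ Transf G x.1.1 y.1.1 y.1.2 := by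
    intro x
    obtain ⟨i, j, ℓ', o, c1, c2, c3⟩ := x.2.next
    refine ⟨⟨(ℓ', i), c1⟩, ?_, c2, c3⟩
    have : th i x.1.2 = j := o.tri.th_eq.2.2.1
    simp only
    rw [this]; exact o
  choose nx hnx using hnext
  let x : ℕ → LD := fun m => Nat.rec ⟨(ℓ, k), h⟩ (fun _ y => nx y) m
  refine ⟨fun m => (x m).1.1, fun m => (x m).1.2, rfl, rfl, fun m => ⟨(x m).2, ?_⟩⟩
  exact hnx (x m)

end

end SympH
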