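import Pool.Agent.W_93b186_h34.TDefs
import Pool.Agent.W_MP_93b186_an_helper62.Final

/-!
# Orbits in the hexagon `hexV (ℓ 0) (ℓ 1) (ℓ 2) 0` and orbits of `T ℓ`

`S = ℓ 0 + ℓ 1 + ℓ 2`.  With helper62's coordinates `co S 0 z = z.1`, `co S 1 z = z.2`,
`co S 2 z = S - z.1 - z.2`, the side of type `t` and sign `true` is `co S t z = S - ℓ t`, the side
of type `t` and sign `false` is `co S t z = 0`.  The sides follow each other in the order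
`1,0,2,1,0,2` with alternating signs; the end of a side of type `t` towards type `a` is at distance
`0` (facing `a`), and moving away from it by `d` gives `co S a = d` (sign `true`) or
`co S a = (S - ℓ a) - d` (sign `false`).
-/

namespace SympH
open SympB

/-- perimeter coordinate sum -/
def SS (ℓ : Fin 3 → ℝ) : ℝ := ℓ 0 + ℓ 1 + ℓ 2

/-- the coordinates of the point of type `t` and sign `σ` at distance `d` from the `a`-end -/
def ptc (ℓ : Fin 3 → ℝ) (σ : Bool) (t a : Fin 3) (d : ℝ) (b : Fin 3) : ℝ :=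
  if b = t then (if σ then SS ℓ - ℓ t else 0)
  else if b = a then (if σ then d else SS ℓ - ℓ a - d)
  else (if σ then ℓ t - d else ℓ a + d)

/-- the point -/
def pt (ℓ : Fin 3 → ℝ) (σ : Bool) (t a : Fin 3) (d : ℝ) : ℝ × ℝ :=
  (ptc ℓ σ t a d 0, ptc ℓ σ t a d 1)

variable {ℓ : Fin 3 → ℝ}

/-- the third coordinate (6 cases for `(t,a)`, two signs) -/
theorem co_pt {t a : Fin 3} (h : t ≠ a) (σ : Bool) (d : ℝ) (b : Fin 3) :
    co (SS ℓ) b (pt ℓ σ t a d) = ptc ℓ σ t a d b := by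
  fin_cases t <;> fin_cases a <;> first
    | exact absurd rfl h
    | (fin_cases b <;> cases σ <;> simp [co, pt, ptc, SS] <;> ring)

theorem SS_tri {t a m : Fin 3} (h : Tri t a m) : SS ℓ = ℓ t + ℓ a + ℓ m := by
  obtain ⟨h1, h2, h3⟩ := h
  fin_cases t <;> fin_cases a <;> fin_cases m <;> first
    | exact absurd rfl h1
    | exact absurd rfl h2
    | exact absurd rfl h3
    | (simp only [SS, Fin.mk_one, Fin.reduceFinMk, Fin.zero_eta]; try ring)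

theorem P_eq (j : Fin 3) : (![ℓ 0, ℓ 1, ℓ 2] : Fin 3 → ℝ) j = ℓ j := by
  fin_cases j <;> rfl

theorem co_pt_t {t a m : Fin 3} (h : Tri t a m) (σ : Bool) (d : ℝ) :
    co (SS ℓ) t (pt ℓ σ t a d) = if σ then ℓ a + ℓ m else 0 := by
  rw [co_pt h.ij, ptc, if_pos rfl, SS_tri h]
  split_ifs <;> ring

theorem co_pt_a {t a m : Fin 3} (h : Tri t a m) (σ : Bool) (d : ℝ) :
    co (SS ℓ) a (pt ℓ σ t a d) = if σ then d else ℓ t + ℓ m - d := by
  rw [co_pt h.ij, ptc, if_neg h.ij.symm, if_pos rfl, SS_tri h]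
  split_ifs <;> ring

theorem co_pt_m {t a m : Fin 3} (h : Tri t a m) (σ : Bool) (d : ℝ) :
    co (SS ℓ) m (pt ℓ σ t a d) = if σ then ℓ t - d else ℓ a + d := by
  rw [co_pt h.ij, ptc, if_neg h.ik.symm, if_neg h.jk.symm]

/-- the same point seen from the other end -/
theorem pt_flip {t a m : Fin 3} (h : Tri t a m) (σ : Bool) (d : ℝ) :
    pt ℓ σ t m (ℓ t - d) = pt ℓ σ t a d := by
  have h' : Tri t m a := ⟨h.ik, h.jk.symm, h.ij⟩
  apply co_ext (l := SS ℓ) h.jk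
  · rw [co_pt_a h, co_pt_m h']
    split_ifs <;> ring
  · rw [co_pt_m h, co_pt_a h']
    split_ifs <;> ring

theorem pt_Bd (hp : ∀ a, 0 < ℓ a) {t a : Fin 3} (h : t ≠ a) (σ : Bool) {d : ℝ} (h0 : 0 < d)
    (h1 : d < ℓ t) : Bd (SS ℓ) ![ℓ 0, ℓ 1, ℓ 2] t (pt ℓ σ t a d) := by
  have ht := tri_of_ne h
  have hs := SS_tri (ℓ := ℓ) ht
  set m := th t a with hm
  have p1 := hp t
  have p2 := hp a
  have p3 := hp m
  refine ⟨?_, fun j hj => ?_⟩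
  · rw [co_pt_t ht, P_eq, hs]
    cases σ
    · left; simp
    · right; simp only [if_true]; ring
  · rw [P_eq]
    rcases ht.cases j with rfl | rfl | rfl
    · exact absurd rfl hj
    · rw [co_pt_a ht, hs]
      split_ifs <;> constructor <;> linarith
    · rw [co_pt_m ht, hs]
      split_ifs <;> constructor <;> linarith

/-- every point in the relative interior of a side is of this form, for each facing letter -/
theorem exists_pt (hp : ∀ a, 0 < ℓ a) {t a : Fin 3} (h : t ≠ a) {z : ℝ × ℝ}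
    (hz : Bd (SS ℓ) ![ℓ 0, ℓ 1, ℓ 2] t z) :
    ∃ σ d, 0 < d ∧ d < ℓ t ∧ z = pt ℓ σ t a d := by
  have ht := tri_of_ne h
  have hs := SS_tri (ℓ := ℓ) ht
  set m := th t a with hm
  have hsum : co (SS ℓ) t z + co (SS ℓ) a z + co (SS ℓ) m z = SS ℓ := by
    obtain ⟨h1, h2, h3⟩ := ht
    clear_value m
    fin_cases t <;> fin_cases a <;> fin_cases m <;> first
      | exact absurd rfl h1
      | exact absurd rfl h2
      | exact absurd rfl h3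
      | (simp only [Fin.mk_one, Fin.reduceFinMk, Fin.zero_eta, co0, co1, co2]; ring)
  obtain ⟨hz1, hz2⟩ := hz
  have ha := hz2 a h.symm
  have hmz := hz2 m ht.ik.symm
  rw [P_eq] at hz1 ha hmz
  rcases hz1 with h0 | h0
  · refine ⟨false, ℓ t + ℓ m - co (SS ℓ) a z, by linarith, by linarith, ?_⟩
    apply co_ext (l := SS ℓ) h
    · rw [co_pt_t ht, h0]; simp
    · rw [co_pt_a ht]; simp
  · refine ⟨true, co (SS ℓ) a z, by linarith, by linarith, ?_⟩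
    apply co_ext (l := SS ℓ) h
    · rw [co_pt_t ht, h0]; simp only [if_true]; linarith
    · rw [co_pt_a ht]; simp

theorem pt_inj (hp : ∀ a, 0 < ℓ a) {t a : Fin 3} (h : t ≠ a) {σ σ' : Bool} {d d' : ℝ}
    (he : pt ℓ σ t a d = pt ℓ σ' t a d') : σ = σ' ∧ d = d' := by
  have ht := tri_of_ne h
  have hs := SS_tri (ℓ := ℓ) ht
  set m := th t a with hm
  have p2 := hp a
  have p3 := hp m
  have e1 : co (SS ℓ) t (pt ℓ σ t a d) = co (SS ℓ) t (pt ℓ σ' t a d') := by rw [he]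
  have e2 : co (SS ℓ) a (pt ℓ σ t a d) = co (SS ℓ) a (pt ℓ σ' t a d') := by rw [he]
  rw [co_pt_t ht, co_pt_t ht] at e1
  rw [co_pt_a ht, co_pt_a ht] at e2
  cases σ <;> cases σ' <;> simp at e1 e2 ⊢
  · linarith
  · linarith
  · linarith
  · linarith

theorem isModel_SS (hp : ∀ a, 0 < ℓ a) :
    IsModel (hexV (ℓ 0) (ℓ 1) (ℓ 2) 0) (SS ℓ) (ℓ 0) (ℓ 1) (ℓ 2) := by
  have h := isModel_hex (hp 0) (hp 1) (hp 2) (le_refl (0 : ℝ))
  have e : SS ℓ = ℓ 0 + ℓ 1 + ℓ 2 + 0 := by rw [SS, add_zero]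
  rw [e]
  exact h

theorem par_SS (hp : ∀ a, 0 < ℓ a) : Par (SS ℓ) (ℓ 0) (ℓ 1) (ℓ 2) := by
  have h0 := hp 0
  have h1 := hp 1
  have h2 := hp 2
  exact ⟨h0.le, h1.le, h2.le, by rw [SS], by rw [SS]; linarith, by rw [SS]; linarith,
    by rw [SS]; linarith⟩

/-- the sign and the point after one step of the billiard map: the mover `pt σ t l d` moves to this
point when the other point is on a side of type `l` -/
noncomputable def nsg (ℓ : Fin 3 → ℝ) (σ : Bool) (s : TS) : Bool :=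
  if s.d < ℓ (th s.t s.l) then σ else !σ

theorem chord_pt (hp : ∀ a, 0 < ℓ a) {s : TS} (hs : TVal ℓ s) (hd : s.d ≠ ℓ (th s.t s.l))
    (σ τ : Bool) :
    ((T ℓ s).l ≠ s.l ∧
      Bd (SS ℓ) ![ℓ 0, ℓ 1, ℓ 2] (T ℓ s).l
        (pt ℓ (nsg ℓ σ s) (T ℓ s).l (T ℓ s).t (T ℓ s).e)) ∧
    co (SS ℓ) s.l (pt ℓ (nsg ℓ σ s) (T ℓ s).l (T ℓ s).t (T ℓ s).e) =
      co (SS ℓ) s.l (pt ℓ σ s.t s.l s.d) ∧
    pt ℓ (nsg ℓ σ s) (T ℓ s).l (T ℓ s).t (T ℓ s).e ≠ pt ℓ σ s.t s.l s.d ∧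
    pt ℓ τ s.l s.t s.e = pt ℓ τ (T ℓ s).t (T ℓ s).l (T ℓ s).d := by
  have hB := T_val hp hs hd
  have hB' := pt_Bd hp hB.ne.symm (nsg ℓ σ s) hB.e0 hB.e1
  have hX := pt_Bd hp hs.ne σ hs.d0 hs.d1
  obtain ⟨t, l, d, e⟩ := s
  obtain ⟨h1, h2, h3, h4, h5⟩ := hs
  simp only at h1 h2 h3 h4 h5 hd hX
  have htri := tri_of_ne h1
  set m := th t l with hm
  rcases lt_or_gt_of_ne hd with h | h
  · have hn : nsg ℓ σ ⟨t, l, d, e⟩ = σ := by simp only [nsg, ← hm, if_pos h]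
    rw [hn] at hB' ⊢
    rw [T_lt htri h] at hB' ⊢
    simp only at hB' ⊢
    have hml : Tri m l t := ⟨htri.jk.symm, htri.ij.symm, htri.ik.symm⟩
    refine ⟨⟨htri.jk.symm, hB'⟩, ?_, ?_, ?_⟩
    · rw [co_pt_a hml, co_pt_a htri]
      split_ifs <;> ring
    · intro he
      rw [he] at hB'
      exact htri.ik (hX.unique hB')
    · exact (pt_flip (⟨h1.symm, htri.ik, htri.jk⟩ : Tri l t m) τ e).symm
  · have hn : nsg ℓ σ ⟨t, l, d, e⟩ = !σ := by simp only [nsg, ← hm, if_neg (not_lt.2 h.le)]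
    rw [hn] at hB' ⊢
    rw [T_gt htri h] at hB' ⊢
    simp only at hB' ⊢
    refine ⟨⟨h1, hB'⟩, ?_, ?_, trivial⟩
    · rw [co_pt_a htri, co_pt_a htri]
      cases σ <;> simp
    · intro he
      have := (pt_inj hp h1 he).1
      cases σ <;> simp at this

/-- One step: `x = pt σ t l d`, `y = pt τ l t e`; then the next point is
`z = pt (nsg σ) (T s).l (T s).t (T s).e`, and `y = pt τ (T s).t (T s).l (T s).d`. -/
theorem step_pt (hp : ∀ a, 0 < ℓ a) {s : TS} (hs : TVal ℓ s) (hd : s.d ≠ ℓ (th s.t s.l))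
    (σ τ : Bool) :
    Step (hexV (ℓ 0) (ℓ 1) (ℓ 2) 0) (pt ℓ σ s.t s.l s.d) (pt ℓ τ s.l s.t s.e)
      (pt ℓ (nsg ℓ σ s) (T ℓ s).l (T ℓ s).t (T ℓ s).e) ∧
    pt ℓ τ s.l s.t s.e = pt ℓ τ (T ℓ s).t (T ℓ s).l (T ℓ s).d := by
  obtain ⟨h1, h2, h3, h4⟩ := chord_pt hp hs hd σ τ
  exact ⟨(isModel_SS hp).step_mk (par_SS hp) (pt_Bd hp hs.ne σ hs.d0 hs.d1)
    (pt_Bd hp hs.ne.symm τ hs.e0 hs.e1) h1.2 hs.ne h2 h3, h4⟩

/-- the billiard map is reversible -/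
theorem step_symm_pt (hp : ∀ a, 0 < ℓ a) {s : TS} (hs : TVal ℓ s) (hd : s.d ≠ ℓ (th s.t s.l))
    (σ τ : Bool) :
    Step (hexV (ℓ 0) (ℓ 1) (ℓ 2) 0) (pt ℓ (nsg ℓ σ s) (T ℓ s).l (T ℓ s).t (T ℓ s).e)
      (pt ℓ τ s.l s.t s.e) (pt ℓ σ s.t s.l s.d) := by
  obtain ⟨h1, h2, h3, h4⟩ := chord_pt hp hs hd σ τ
  exact (isModel_SS hp).step_mk (par_SS hp) h1.2
    (pt_Bd hp hs.ne.symm τ hs.e0 hs.e1) (pt_Bd hp hs.ne σ hs.d0 hs.d1) h1.1 h2.symm h3.symm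

/-- A step of the billiard map between points in relative interiors of sides gives a step of `T`,
and the state is nonsingular (`d ≠ ℓ m`: otherwise the chord through `x` ends in a vertex). -/
theorem step_elim_pt (hp : ∀ a, 0 < ℓ a) {s : TS} (hs : TVal ℓ s) {σ τ : Bool} {z : ℝ × ℝ}
    {j : Fin 3} (hz : Bd (SS ℓ) ![ℓ 0, ℓ 1, ℓ 2] j z)
    (h : Step (hexV (ℓ 0) (ℓ 1) (ℓ 2) 0) (pt ℓ σ s.t s.l s.d) (pt ℓ τ s.l s.t s.e) z) :
    s.d ≠ ℓ (th s.t s.l) ∧ z = pt ℓ (nsg ℓ σ s) (T ℓ s).l (T ℓ s).t (T ℓ s).e := by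
  have hd : s.d ≠ ℓ (th s.t s.l) := by
    have hX := pt_Bd hp hs.ne σ hs.d0 hs.d1
    obtain ⟨k, hk, hik, hjk, hco, hne⟩ := (isModel_SS hp).step_elim hX hz h
    have hY := pt_Bd hp hs.ne.symm τ hs.e0 hs.e1
    obtain rfl := hk.unique hY
    obtain ⟨t, l, d, e⟩ := s
    obtain ⟨h1, h2, h3, h4, h5⟩ := hs
    simp only at h1 h2 h3 h4 h5 hX hz h hco hne hjk ⊢
    have htri := tri_of_ne h1
    set m := th t l with hm
    obtain ⟨σ', d', k1, k2, rfl⟩ := exists_pt hp hjk hz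
    rcases htri.cases j with rfl | rfl | rfl
    · rw [co_pt_a htri, co_pt_a htri] at hco
      cases σ <;> cases σ' <;> simp at hco
      · exfalso; apply hne; rw [show d' = d by linarith]
      · intro hh; linarith
      · intro hh; linarith
      · exfalso; apply hne; rw [hco]
    · exact absurd rfl hjk
    · have hml : Tri m l t := ⟨htri.jk.symm, htri.ij.symm, htri.ik.symm⟩
      rw [co_pt_a htri, co_pt_a hml] at hco
      cases σ <;> cases σ' <;> simp at hco <;> intro hh <;> linarith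
  exact ⟨hd, (isModel_SS hp).step_fun h (step_pt hp hs hd σ τ).1⟩

/-- the signs along an orbit -/
noncomputable def sgs (ℓ : Fin 3 → ℝ) (f : ℕ → TS) (σ0 σ1 : Bool) : ℕ → Bool × Bool
  | 0 => (σ0, σ1)
  | n + 1 => ((sgs ℓ f σ0 σ1 n).2, nsg ℓ (sgs ℓ f σ0 σ1 n).1 (f n))

/-- **From the hexagon to `T`.** -/
theorem link_fwd (hp : ∀ a, 0 < ℓ a) {x : ℤ → ℝ × ℝ}
    (hx : IsOrbit (hexV (ℓ 0) (ℓ 1) (ℓ 2) 0) x) :
    ∃ (s : ℕ → TS) (σ : ℕ → Bool), ∀ n : ℕ, TVal ℓ (s n) ∧ (s n).d ≠ ℓ (th (s n).t (s n).l) ∧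
      s (n + 1) = T ℓ (s n) ∧ x n = pt ℓ (σ n) (s n).t (s n).l (s n).d ∧
      x (n + 1) = pt ℓ (σ (n + 1)) (s n).l (s n).t (s n).e ∧ σ (n + 2) = nsg ℓ (σ n) (s n) := by
  have hm := isModel_SS hp
  -- all points are in the relative interior of a side
  have hB : ∀ k : ℤ, ∃ d : Fin 3, Bd (SS ℓ) ![ℓ 0, ℓ 1, ℓ 2] d (x k) := by
    intro k
    obtain ⟨s, hs, _⟩ := hx (k - 1)
    obtain ⟨d, h1, _⟩ := hm.side s
    have e : k - 1 + 1 = k := by ring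
    rw [e] at hs
    exact ⟨d, h1 _ hs⟩
  choose d hd using hB
  have h01 : d 0 ≠ d 1 := by
    obtain ⟨e, h1, h2, h3, h4, _⟩ := hm.step_elim (hd 0) (hd (0 + 2)) (hx 0)
    rw [zero_add] at h1
    obtain rfl := h1.unique (hd 1)
    exact h2
  obtain ⟨σ0, d0, a1, a2, a3⟩ := exists_pt hp h01 (hd 0)
  obtain ⟨σ1, e0, b1, b2, b3⟩ := exists_pt hp h01.symm (hd 1)
  set s : ℕ → TS := fun n => (T ℓ)^[n] ⟨d 0, d 1, d0, e0⟩ with hs
  have hs1 : ∀ n, s (n + 1) = T ℓ (s n) := fun n => Function.iterate_succ_apply' _ _ _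
  set σ : ℕ → Bool := fun n => (sgs ℓ s σ0 σ1 n).1 with hσ
  have hσ1 : ∀ n, (sgs ℓ s σ0 σ1 n).2 = σ (n + 1) := fun n => rfl
  have hσ2 : ∀ n, σ (n + 2) = nsg ℓ (σ n) (s n) := fun n => rfl
  have key : ∀ n : ℕ, TVal ℓ (s n) ∧ x n = pt ℓ (σ n) (s n).t (s n).l (s n).d ∧
      x (n + 1) = pt ℓ (σ (n + 1)) (s n).l (s n).t (s n).e := by
    intro n
    induction n with
    | zero =>
      refine ⟨⟨h01, a1, a2, b1, b2⟩, ?_, ?_⟩
      · change x ((0 : ℕ) : ℤ) = pt ℓ σ0 (d 0) (d 1) d0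
        simpa using a3
      · change x (((0 : ℕ) : ℤ) + 1) = pt ℓ σ1 (d 1) (d 0) e0
        simpa using b3
    | succ n ih =>
      obtain ⟨i1, i2, i3⟩ := ih
      have hst := hx n
      rw [i2, i3] at hst
      obtain ⟨g1, g2⟩ := step_elim_pt hp i1 (hd (n + 2)) hst
      have hsp := step_pt hp i1 g1 (σ n) (σ (n + 1))
      rw [hs1]
      refine ⟨T_val hp i1 g1, ?_, ?_⟩
      · push_cast
        rw [i3, hsp.2]
      · push_cast
        rw [show (n : ℤ) + 1 + 1 = n + 2 by ring, g2, ← hσ2]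
  refine ⟨s, σ, fun n => ?_⟩
  obtain ⟨i1, i2, i3⟩ := key n
  have hst := hx n
  rw [i2, i3] at hst
  obtain ⟨g1, g2⟩ := step_elim_pt hp i1 (hd (n + 2)) hst
  exact ⟨i1, g1, hs1 n, i2, i3, hσ2 n⟩

/-- half an orbit -/
theorem half_orbit {G : AddSubgroup ℝ} (hL : Lens G ℓ) {s : TS} (hs : TOk G ℓ s) (σ0 σ1 : Bool) :
    ∃ σ : ℕ → Bool, σ 0 = σ0 ∧ σ 1 = σ1 ∧ ∀ n : ℕ,
      pt ℓ (σ (n + 1)) ((T ℓ)^[n + 1] s).t ((T ℓ)^[n + 1] s).l ((T ℓ)^[n + 1] s).d =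
        pt ℓ (σ (n + 1)) ((T ℓ)^[n] s).l ((T ℓ)^[n] s).t ((T ℓ)^[n] s).e ∧
      Step (hexV (ℓ 0) (ℓ 1) (ℓ 2) 0)
        (pt ℓ (σ n) ((T ℓ)^[n] s).t ((T ℓ)^[n] s).l ((T ℓ)^[n] s).d)
        (pt ℓ (σ (n + 1)) ((T ℓ)^[n + 1] s).t ((T ℓ)^[n + 1] s).l ((T ℓ)^[n + 1] s).d)
        (pt ℓ (σ (n + 2)) ((T ℓ)^[n + 2] s).t ((T ℓ)^[n + 2] s).l ((T ℓ)^[n + 2] s).d) ∧
      Step (hexV (ℓ 0) (ℓ 1) (ℓ 2) 0)
        (pt ℓ (σ (n + 2)) ((T ℓ)^[n + 2] s).t ((T ℓ)^[n + 2] s).l ((T ℓ)^[n + 2] s).d)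
        (pt ℓ (σ (n + 1)) ((T ℓ)^[n + 1] s).t ((T ℓ)^[n + 1] s).l ((T ℓ)^[n + 1] s).d)
        (pt ℓ (σ n) ((T ℓ)^[n] s).t ((T ℓ)^[n] s).l ((T ℓ)^[n] s).d) := by
  have hp := hL.pos
  set f : ℕ → TS := fun n => (T ℓ)^[n] s with hf
  have hf1 : ∀ n, f (n + 1) = T ℓ (f n) := fun n => Function.iterate_succ_apply' _ _ _
  have hok : ∀ n, TOk G ℓ (f n) := by
    intro n
    induction n with
    | zero => exact hs
    | succ n ih => rw [hf1]; exact T_ok hL ih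
  have hne : ∀ n, (f n).d ≠ ℓ (th (f n).t (f n).l) := fun n => gen_ne (hL.mem _) (hok n).dg
  refine ⟨fun n => (sgs ℓ f σ0 σ1 n).1, rfl, rfl, fun n => ?_⟩
  have hσ2 : ∀ n, (sgs ℓ f σ0 σ1 (n + 2)).1 = nsg ℓ (sgs ℓ f σ0 σ1 n).1 (f n) := fun n => rfl
  set σ : ℕ → Bool := fun n => (sgs ℓ f σ0 σ1 n).1 with hσ
  change pt ℓ (σ (n + 1)) (f (n + 1)).t (f (n + 1)).l (f (n + 1)).d =
      pt ℓ (σ (n + 1)) (f n).l (f n).t (f n).e ∧
    Step _ (pt ℓ (σ n) (f n).t (f n).l (f n).d)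
      (pt ℓ (σ (n + 1)) (f (n + 1)).t (f (n + 1)).l (f (n + 1)).d)
      (pt ℓ (σ (n + 2)) (f (n + 2)).t (f (n + 2)).l (f (n + 2)).d) ∧
    Step _ (pt ℓ (σ (n + 2)) (f (n + 2)).t (f (n + 2)).l (f (n + 2)).d)
      (pt ℓ (σ (n + 1)) (f (n + 1)).t (f (n + 1)).l (f (n + 1)).d)
      (pt ℓ (σ n) (f n).t (f n).l (f n).d)
  have A := step_pt hp (hok n).val (hne n) (σ n) (σ (n + 1))
  have B := step_pt hp (hok (n + 1)).val (hne (n + 1)) (σ (n + 1)) (σ (n + 2))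
  have C := step_symm_pt hp (hok n).val (hne n) (σ n) (σ (n + 1))
  have e1 : pt ℓ (σ (n + 1)) (f (n + 1)).t (f (n + 1)).l (f (n + 1)).d =
      pt ℓ (σ (n + 1)) (f n).l (f n).t (f n).e := by
    rw [A.2, hf1]
  have e2 : pt ℓ (σ (n + 2)) (f (n + 2)).t (f (n + 2)).l (f (n + 2)).d =
      pt ℓ (nsg ℓ (σ n) (f n)) (T ℓ (f n)).l (T ℓ (f n)).t (T ℓ (f n)).e := by
    rw [hf1 (n + 1), ← B.2, hf1 n]
    rfl
  refine ⟨e1, ?_, ?_⟩
  · rw [e1, e2]; exact A.1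
  · rw [e1, e2]; exact C

/-- **From `T` to the hexagon.**  Glue the forward orbit of `s` and the forward orbit of
`trev s`. -/
theorem link_back {G : AddSubgroup ℝ} (hL : Lens G ℓ) {s : TS} (hs : TOk G ℓ s) :
    ∃ x : ℤ → ℝ × ℝ, IsOrbit (hexV (ℓ 0) (ℓ 1) (ℓ 2) 0) x ∧
      ∀ m : ℕ, x m = x 0 → x (m + 1) = x 1 → (T ℓ)^[m] s = s := by
  have hp := hL.pos
  obtain ⟨σ, σ0, σ1, hσ⟩ := half_orbit hL hs true true
  obtain ⟨τ, τ0, τ1, hτ⟩ := half_orbit hL (trev_ok hs) true true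
  set X : ℕ → ℝ × ℝ :=
    fun n => pt ℓ (σ n) ((T ℓ)^[n] s).t ((T ℓ)^[n] s).l ((T ℓ)^[n] s).d with hX
  set Y : ℕ → ℝ × ℝ := fun n =>
    pt ℓ (τ n) ((T ℓ)^[n] (trev s)).t ((T ℓ)^[n] (trev s)).l ((T ℓ)^[n] (trev s)).d with hY
  have hXs : ∀ n, Step (hexV (ℓ 0) (ℓ 1) (ℓ 2) 0) (X n) (X (n + 1)) (X (n + 2)) :=
    fun n => (hσ n).2.1
  have hYs : ∀ n, Step (hexV (ℓ 0) (ℓ 1) (ℓ 2) 0) (Y (n + 2)) (Y (n + 1)) (Y n) :=
    fun n => (hτ n).2.2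
  have hX1 : ∀ n, X (n + 1) = pt ℓ (σ (n + 1)) ((T ℓ)^[n] s).l ((T ℓ)^[n] s).t ((T ℓ)^[n] s).e :=
    fun n => (hσ n).1
  have hY0 : Y 0 = X 1 := by
    rw [hX1 0]
    simp only [hY, zero_add, τ0, σ1, Function.iterate_zero, id, trev]
  have hY1 : Y 1 = X 0 := by
    have h := (hτ 0).1
    rw [zero_add] at h
    change Y 1 = _ at h
    rw [h]
    simp only [hX, τ1, σ0, Function.iterate_zero, id, trev]
  set x : ℤ → ℝ × ℝ := fun k => if 0 ≤ k then X k.toNat else Y (1 - k).toNat with hx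
  have hxX : ∀ n : ℕ, x n = X n := by
    intro n
    simp [hx]
  have hxY : ∀ n : ℕ, x (1 - n) = Y n := by
    intro n
    rcases n with _ | _ | n
    · simp only [hx]; simp [hY0]
    · simp only [hx]; simp [hY1]
    · have h : ¬ (0 : ℤ) ≤ 1 - ((n + 1 + 1 : ℕ) : ℤ) := by push_cast; omega
      simp only [hx]
      rw [if_neg h, show (1 : ℤ) - (1 - ((n + 1 + 1 : ℕ) : ℤ)) = ((n + 1 + 1 : ℕ) : ℤ) by ring,
        Int.toNat_natCast]
  refine ⟨x, ?_, ?_⟩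
  · intro k
    rcases le_or_gt 0 k with hk | hk
    · obtain ⟨n, rfl⟩ := Int.eq_ofNat_of_zero_le hk
      have h1 := hxX (n + 1)
      have h2 := hxX (n + 2)
      push_cast at h1 h2
      rw [hxX, h1, h2]
      exact hXs n
    · obtain ⟨n, rfl⟩ : ∃ n : ℕ, k = 1 - ((n + 2 : ℕ) : ℤ) :=
        ⟨(-k - 1).toNat, by push_cast; omega⟩
      have h1 := hxY (n + 1)
      have h0 := hxY n
      have e1 : (1 : ℤ) - ((n + 2 : ℕ) : ℤ) + 1 = 1 - ((n + 1 : ℕ) : ℤ) := by push_cast; ring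
      have e2 : (1 : ℤ) - ((n + 2 : ℕ) : ℤ) + 2 = 1 - (n : ℤ) := by push_cast; ring
      rw [e1, e2, hxY, h1, h0]
      exact hYs n
  · intro m h1 h2
    have c0 : x 0 = X 0 := hxX 0
    have c1 : x 1 = X 1 := hxX 1
    have c2 : x ((m : ℤ) + 1) = X (m + 1) := by
      have := hxX (m + 1)
      push_cast at this
      exact this
    rw [hxX, c0] at h1
    rw [c2, c1, hX1 m, hX1 0] at h2
    have hok : ∀ n, TOk G ℓ ((T ℓ)^[n] s) := by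
      intro n
      induction n with
      | zero => exact hs
      | succ n ih => rw [Function.iterate_succ_apply']; exact T_ok hL ih
    have hm := (hok m).val
    simp only [Function.iterate_zero, id] at h2
    simp only [hX, Function.iterate_zero, id] at h1
    have q1 := pt_Bd hp hm.ne (σ m) hm.d0 hm.d1
    have q2 := pt_Bd hp hs.val.ne (σ 0) hs.val.d0 hs.val.d1
    have q3 := pt_Bd hp hm.ne.symm (σ (m + 1)) hm.e0 hm.e1
    have q4 := pt_Bd hp hs.val.ne.symm (σ (0 + 1)) hs.val.e0 hs.val.e1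
    rw [h1] at q1
    rw [h2] at q3
    have r1 := q1.unique q2
    have r2 := q3.unique q4
    rw [r1, r2] at h1 h2
    have r3 := (pt_inj hp hs.val.ne h1).2
    have r4 := (pt_inj hp hs.val.ne.symm h2).2
    exact TS.ext r1 r2 r3 r4

end SympH
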