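import Pool.Agent.W_93b186_h34.TDefs

/-!
# Periodicity of `D_k` and of the billiard map from the periodicity of `D_i`
-/

namespace SympH

section
variable {G : AddSubgroup ℝ} {ℓ : Fin 3 → ℝ} {i j k : Fin 3}

/-! ### Injectivity of `Sx` -/

/-- time reversal for `Sx` -/
noncomputable def drev (ℓ : Fin 3 → ℝ) (k : Fin 3) (s : DS) : DS :=
  ⟨th k s.l, ℓ k - s.f, ℓ k - s.e⟩

theorem Sx_drev (o : Ord G ℓ i j k) {s : DS} (hs : DOk G ℓ k s) :
    Sx ℓ i j k (drev ℓ k (Sx ℓ i j k s)) = drev ℓ k s := by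
  have hL := o.lens
  have hpi := hL.pos i
  have hij := o.ij
  have hjk := o.jk
  have mi := hL.mem i
  have mj := hL.mem j
  have mk := hL.mem k
  have ths := o.tri.th_eq
  obtain ⟨t1, t2, t3, t4, t5, t6⟩ := ths
  obtain ⟨tij, tjk, tik⟩ := o.tri
  obtain ⟨l, e, f⟩ := s
  obtain ⟨c1, c2, c3, c4, c5, c6, c7⟩ := hs
  simp only at c1 c2 c3 c4 c5 c6 c7
  have hl : l = i ∨ l = j := by
    rcases o.tri.cases l with h | h | h
    · exact Or.inl h
    · exact Or.inr h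
    · exact absurd h.symm c1
  rcases hl with rfl | rfl
  · rcases lt_or_gt_of_ne (gen_ne mj c6) with h | h
    · rcases lt_or_gt_of_ne (gen_ne (G.sub_mem mj mi) c6) with h' | h'
      · rw [Sx_i2 hpi h']
        simp only [drev, t6, t4]
        rw [Sx_i2 hpi (by linarith)]
        congr 1 <;> ring
      · rw [Sx_i3 h' h]
        simp only [drev, t4]
        rw [Sx_j1 tij (by linarith)]
        congr 1; ring
    · rw [Sx_i1 h]
      simp only [drev, t6, t4]
      rw [Sx_i1 (by linarith)]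
      congr 1 <;> ring
  · rcases lt_or_gt_of_ne (gen_ne mi c6) with h | h
    · rw [Sx_j1 tij h]
      simp only [drev, t6]
      rw [Sx_i3 (by linarith) (by linarith)]
      congr 1; ring
    · rw [Sx_j2 tij h]
      simp only [drev, t4, t6]
      rw [Sx_j2 tij (by linarith)]
      congr 1 <;> ring

theorem drev_inj {s s' : DS} (hs : k ≠ s.l) (hs' : k ≠ s'.l)
    (h : drev ℓ k s = drev ℓ k s') : s = s' := by
  obtain ⟨l, e, f⟩ := s
  obtain ⟨l', e', f'⟩ := s'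
  simp only [drev, DS.mk.injEq] at h
  obtain ⟨h1, h2, h3⟩ := h
  have h4 : l = l' := by
    have : ∀ k l l' : Fin 3, th k l = th k l' → l = l' := by unfold th; decide
    exact this k l l' h1
  subst h4
  have e1 : f = f' := by linarith
  have e2 : e = e' := by linarith
  rw [e1, e2]

theorem Sx_inj (o : Ord G ℓ i j k) {s s' : DS} (hs : DOk G ℓ k s) (hs' : DOk G ℓ k s')
    (h : Sx ℓ i j k s = Sx ℓ i j k s') : s = s' := by
  have h1 := Sx_drev o hs
  rw [h, Sx_drev o hs'] at h1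
  exact drev_inj hs.ne hs'.ne h1.symm

/-! ### Embedded states are periodic -/

theorem per_em {A : Type*} {F : A → A} {em : DS → A} (hL : Lens G ℓ) {B : ℕ}
    (hf : ∀ n s s', DOk G ℓ i s → SRel ℓ i n s s' → R F (2 * n) (em s) (em s'))
    (hB : ∀ s, DOk G ℓ i s → ∃ n ≤ B, Chain ℓ i n s s) {s : DS} (hs : DOk G ℓ i s) :
    R F (2 * B) (em s) (em s) := by
  obtain ⟨n, hn, hc⟩ := hB s hs
  exact (Chain.follow hL hf hc hs).mono (by omega)

theorem endp_ok (o : Ord G ℓ i j k) {p : ℝ} (hp : 0 < p) (hp' : p < ℓ i) (hg : p ∉ G) {v : Pt}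
    (hv : Ok G ℓ v) (hvi : v.ty = i) : DOk G ℓ i (endp ℓ i j k p v) := by
  have mi := o.lens.mem i
  obtain ⟨tij, tjk, tik⟩ := o.tri
  obtain ⟨h1, h2, h3, h4⟩ := hv
  subst hvi
  unfold endp
  split_ifs
  · exact ⟨tij, by simp only; linarith, by simp only; linarith, h2, h3, sub_gen mi hg, h4⟩
  · exact ⟨tik, hp, hp', h2, h3, hg, h4⟩

/-- a travelling state reaches an embedded state -/
theorem Walk.reach (o : Ord G ℓ i j k) {p : ℝ} (hp : 0 < p) (hp' : p < ℓ i) (hg : p ∉ G)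
    {A : Type*} {F : A → A} {st : Fin 3 → ℝ → A} {em : DS → A} (w : Walk ℓ i j k p F st em)
    {B : ℕ} (hB : ∀ v, Ok G ℓ v → ∃ n w, n ≤ B ∧ Hit ℓ i n v w) {a : Fin 3} {d : ℝ}
    (hv : Ok G ℓ ⟨k, a, d⟩) : ∃ s', DOk G ℓ i s' ∧ R F (2 * B) (st a d) (em s') := by
  obtain ⟨n, v, hn, hh⟩ := hB _ hv
  obtain ⟨h1, h2⟩ := hh.ok o.lens hv
  exact ⟨_, endp_ok o hp hp' hg h1 h2, (w.run o n a d v hv hh).mono (by omega)⟩

/-! ### `D_k` -/

/-- (C2') all states of `D_k` are periodic if all states of `D_i` are. -/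
theorem perD_max (o : Ord G ℓ i j k) (hbr : BR G ℓ i) (hper : PerD G ℓ i) : PerD G ℓ k := by
  have hL := o.lens
  have hpi := hL.pos i
  have hij := o.ij
  have hjk := o.jk
  have mi := hL.mem i
  have mj := hL.mem j
  have mk := hL.mem k
  have htri := o.tri
  obtain ⟨tij, tjk, tik⟩ := o.tri
  obtain ⟨B1, hB1⟩ := hbr
  obtain ⟨B2, hB2⟩ := hper
  -- it suffices to treat the map `Sx`
  suffices h : ∀ s, DOk G ℓ k s → R (Sx ℓ i j k) (2 * B2 + 4) s s by
    refine ⟨3 * (2 * B2 + 4), fun s hs => ?_⟩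
    obtain ⟨n, h1, h2, h3⟩ := h s hs
    obtain ⟨m, hm, hc⟩ := Sx_chain o n s hs h1
    rw [h3] at hc
    exact ⟨m, hm.trans (Nat.mul_le_mul_left _ h2), hc⟩
  have hinj : ∀ x y, DOk G ℓ k x → DOk G ℓ k y → Sx ℓ i j k x = Sx ℓ i j k y → x = y :=
    fun x y hx hy h => Sx_inj o hx hy h
  have hok : ∀ x, DOk G ℓ k x → DOk G ℓ k (Sx ℓ i j k x) := fun x hx => Sx_ok o hx
  -- travelling states
  have htravel : ∀ a d f, DOk G ℓ k ⟨a, d, f⟩ → ℓ k - ℓ a < f → f < ℓ k - ℓ a + ℓ i →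
      R (Sx ℓ i j k) (2 * B2) ⟨a, d, f⟩ ⟨a, d, f⟩ := by
    intro a d f hs hf1 hf2
    have hpg : f - (ℓ k - ℓ a) ∉ G := sub_gen' (G.sub_mem mk (hL.mem a)) hs.fg
    obtain ⟨s', hs', hr⟩ := Walk.reach o (p := f - (ℓ k - ℓ a)) (by linarith) (by linarith) hpg
      (walk2 o (by linarith) (by linarith)) hB1 (a := a) (d := d)
      ⟨hs.ne, hs.e0, hs.e1, hs.eg⟩
    have e : st2 ℓ k (f - (ℓ k - ℓ a)) a d = ⟨a, d, f⟩ := by
      simp only [st2, DS.mk.injEq, true_and]; ring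
    rw [e] at hr
    exact R.per_of hok hinj hs hr (per_em hL (fun n s s' h1 h2 => emb2_srel o h1 h2) hB2 hs')
  -- if one step gives a travelling state
  have hone : ∀ s, DOk G ℓ k s → R (Sx ℓ i j k) (2 * B2) (Sx ℓ i j k s) (Sx ℓ i j k s) →
      R (Sx ℓ i j k) (2 * B2) s s := fun s hs h => R.per_of hok hinj hs (R.one rfl) h
  have four : ∀ s, (Sx ℓ i j k) (Sx ℓ i j k (Sx ℓ i j k (Sx ℓ i j k s))) = s →
      R (Sx ℓ i j k) (2 * B2 + 4) s s := fun s h => ⟨4, by norm_num, by omega, h⟩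
  intro s hs
  obtain ⟨l, e, f⟩ := s
  have hs' := hs
  obtain ⟨c1, c2, c3, c4, c5, c6, c7⟩ := hs'
  simp only at c1 c2 c3 c4 c5 c6 c7
  have hl : l = i ∨ l = j := by
    rcases htri.cases l with h | h | h
    · exact Or.inl h
    · exact Or.inr h
    · exact absurd h.symm c1
  rcases hl with rfl | rfl
  · -- `l = i`
    rcases lt_or_gt_of_ne (gen_ne (G.sub_mem mk mi) c7) with hf | hf
    · -- the edge behind the other point is `H3`
      rcases lt_or_gt_of_ne (gen_ne mj c6) with h | h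
      · rcases lt_or_gt_of_ne (gen_ne (G.sub_mem mj mi) c6) with h' | h'
        · -- mover edge `H2`
          apply four
          rw [Sx_i2 hpi h', Sx_j2 tij (by linarith), Sx_i2 hpi (by linarith),
            Sx_j2 tij (by linarith)]
          congr 1 <;> ring
        · -- mover edge `M1`
          refine (hone _ hs ?_).mono (by omega)
          rw [Sx_i3 h' h]
          refine htravel _ _ _ ?_ (by linarith) (by linarith)
          rw [← Sx_i3 h' h]; exact hok _ hs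
      · -- mover edge `H1`
        apply four
        rw [Sx_i1 h, Sx_j2 tij (by linarith), Sx_i1 (by linarith), Sx_j2 tij (by linarith)]
        congr 1 <;> ring
    · exact (htravel _ _ _ hs hf (by linarith)).mono (by omega)
  · -- `l = j`
    have hg1 : ℓ k - ℓ l + ℓ i ∈ G := G.add_mem (G.sub_mem mk mj) mi
    rcases lt_or_gt_of_ne (gen_ne mi c6) with h | h
    · -- mover edge `M2`
      refine (hone _ hs ?_).mono (by omega)
      rw [Sx_j1 tij h]
      refine htravel _ _ _ ?_ (by linarith) (by linarith)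
      rw [← Sx_j1 tij h]; exact hok _ hs
    · -- mover edge `H3`
      rcases lt_or_gt_of_ne (gen_ne (G.sub_mem mk mj) c7) with hf | hf
      · apply four
        rw [Sx_j2 tij h, Sx_i1 (by linarith), Sx_j2 tij (by linarith), Sx_i1 (by linarith)]
        congr 1 <;> ring
      · rcases lt_or_gt_of_ne (gen_ne hg1 c7) with hf' | hf'
        · exact (htravel _ _ _ hs hf hf').mono (by omega)
        · apply four
          rw [Sx_j2 tij h, Sx_i2 hpi (by linarith), Sx_j2 tij (by linarith),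
            Sx_i2 hpi (by linarith)]
          congr 1 <;> ring

/-! ### The billiard map -/

/-- (C1') all states of the billiard map are periodic, with bounded periods, if all states of
`D_i` are. -/
theorem perT (o : Ord G ℓ i j k) (hbr : BR G ℓ i) (hper : PerD G ℓ i) :
    ∃ B : ℕ, ∀ s, TOk G ℓ s → R (T ℓ) B s s := by
  have hL := o.lens
  have hpi := hL.pos i
  have hij := o.ij
  have hjk := o.jk
  have mi := hL.mem i
  have mj := hL.mem j
  have mk := hL.mem k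
  have htri := o.tri
  obtain ⟨tij, tjk, tik⟩ := o.tri
  have tijk : Tri i j k := ⟨tij, tjk, tik⟩
  have tikj : Tri i k j := ⟨tik, tjk.symm, tij⟩
  have tjik : Tri j i k := ⟨tij.symm, tik, tjk⟩
  have tjki : Tri j k i := ⟨tjk, tik.symm, tij.symm⟩
  have tkij : Tri k i j := ⟨tik.symm, tij, tjk.symm⟩
  have tkji : Tri k j i := ⟨tjk.symm, tij.symm, tik.symm⟩
  obtain ⟨B1, hB1⟩ := hbr
  obtain ⟨B2, hB2⟩ := hper
  refine ⟨2 * B2 + 4, ?_⟩
  have hinj : ∀ x y, TOk G ℓ x → TOk G ℓ y → T ℓ x = T ℓ y → x = y :=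
    fun x y hx hy h => T_inj hL hx hy h
  have hok : ∀ x, TOk G ℓ x → TOk G ℓ (T ℓ x) := fun x hx => T_ok hL hx
  have hone : ∀ s, TOk G ℓ s → R (T ℓ) (2 * B2 + 4) (T ℓ s) (T ℓ s) →
      R (T ℓ) (2 * B2 + 4) s s := fun s hs h => R.per_of hok hinj hs (R.one rfl) h
  -- travelling states
  have htravel : ∀ a d e, TOk G ℓ ⟨k, a, d, e⟩ → e < ℓ i →
      R (T ℓ) (2 * B2 + 4) ⟨k, a, d, e⟩ ⟨k, a, d, e⟩ := by
    intro a d e hs he
    obtain ⟨⟨h1, h2, h3, h4, h5⟩, h6, h7⟩ := hs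
    obtain ⟨s', hs', hr⟩ := Walk.reach o (p := e) h4 he h7 (walkT o h4 he) hB1
      (a := a) (d := d) ⟨h1, h2, h3, h6⟩
    exact (R.per_of hok hinj (P := TOk G ℓ) ⟨⟨h1, h2, h3, h4, h5⟩, h6, h7⟩ hr
      (per_em hL (fun n s s' h1 h2 => embT_srel o h1 h2) hB2 hs')).mono (by omega)
  -- `(k,j,·,·)`
  have hkj : ∀ d e, TOk G ℓ ⟨k, j, d, e⟩ → R (T ℓ) (2 * B2 + 4) ⟨k, j, d, e⟩ ⟨k, j, d, e⟩ := by
    intro d e hs
    have hs' := hs
    obtain ⟨⟨h1, h2, h3, h4, h5⟩, h6, h7⟩ := hs'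
    simp only at h1 h2 h3 h4 h5 h6 h7
    rcases lt_or_gt_of_ne (gen_ne mi h7) with he | he
    · exact htravel _ _ _ hs he
    · rcases lt_or_gt_of_ne (gen_ne mi h6) with hd | hd
      · -- three steps to a travelling state
        refine hone _ hs (hone _ (hok _ hs) (hone _ (hok _ (hok _ hs)) ?_))
        have hok3 := hok _ (hok _ (hok _ hs))
        rw [T_lt tkji hd, T_lt tjik (by linarith), T_lt tikj (by linarith)] at hok3 ⊢
        exact htravel _ _ _ hok3 (by linarith)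
      · -- a 4-cycle
        refine ⟨4, by norm_num, by omega, ?_⟩
        show T ℓ (T ℓ (T ℓ (T ℓ _))) = _
        rw [T_gt tkji hd, T_gt tjki he, T_gt tkji (by linarith), T_gt tjki (by linarith)]
        congr 1 <;> ring
  have hki : ∀ d e, TOk G ℓ ⟨k, i, d, e⟩ → R (T ℓ) (2 * B2 + 4) ⟨k, i, d, e⟩ ⟨k, i, d, e⟩ :=
    fun d e hs => htravel _ _ _ hs hs.val.e1
  have hjk' : ∀ d e, TOk G ℓ ⟨j, k, d, e⟩ → R (T ℓ) (2 * B2 + 4) ⟨j, k, d, e⟩ ⟨j, k, d, e⟩ := by
    intro d e hs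
    have h1 := hok _ hs
    refine hone _ hs ?_
    rcases lt_or_gt_of_ne (gen_ne mi hs.dg) with hd | hd
    · simp only at hd
      rw [T_lt tjki hd] at h1 ⊢
      exact hki _ _ h1
    · simp only at hd
      rw [T_gt tjki hd] at h1 ⊢
      exact hkj _ _ h1
  have hik : ∀ d e, TOk G ℓ ⟨i, k, d, e⟩ → R (T ℓ) (2 * B2 + 4) ⟨i, k, d, e⟩ ⟨i, k, d, e⟩ := by
    intro d e hs
    have h1 := hok _ hs
    have hd : d < ℓ i := hs.val.d1
    refine hone _ hs ?_
    rw [T_lt tikj (by linarith)] at h1 ⊢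
    exact hkj _ _ h1
  have hij' : ∀ d e, TOk G ℓ ⟨i, j, d, e⟩ → R (T ℓ) (2 * B2 + 4) ⟨i, j, d, e⟩ ⟨i, j, d, e⟩ := by
    intro d e hs
    have h1 := hok _ hs
    have hd : d < ℓ i := hs.val.d1
    refine hone _ hs ?_
    rw [T_lt tijk (by linarith)] at h1 ⊢
    exact hjk' _ _ h1
  have hji : ∀ d e, TOk G ℓ ⟨j, i, d, e⟩ → R (T ℓ) (2 * B2 + 4) ⟨j, i, d, e⟩ ⟨j, i, d, e⟩ := by
    intro d e hs
    have h1 := hok _ hs
    have hd : d < ℓ j := hs.val.d1
    refine hone _ hs ?_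
    rw [T_lt tjik (by linarith)] at h1 ⊢
    exact hik _ _ h1
  intro s hs
  obtain ⟨t, l, d, e⟩ := s
  have hne := hs.val.ne
  simp only at hne
  rcases htri.cases t with h | h | h <;> rcases htri.cases l with h' | h' | h' <;>
    rw [h, h'] at hs hne ⊢
  · exact absurd rfl hne
  · exact hij' _ _ hs
  · exact hik _ _ hs
  · exact hji _ _ hs
  · exact absurd rfl hne
  · exact hjk' _ _ hs
  · exact hki _ _ hs
  · exact hkj _ _ hs
  · exact absurd rfl hne

end

end SympH
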