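import Pool.Agent.W_93b186_h34.Per

/-!
# Reduction of the longest side
-/

namespace SympH

section
variable {G : AddSubgroup ℝ} {ℓ ℓ' : Fin 3 → ℝ} {i j k : Fin 3}

/-- `ℓ'` arises from `ℓ` by the reduction of the entry `j`, which exceeds the sum of the two
others -/
structure Redu (G : AddSubgroup ℝ) (ℓ ℓ' : Fin 3 → ℝ) (i j k : Fin 3) : Prop where
  lens : Lens G ℓ
  lens' : Lens G ℓ'
  tri : Tri i j k
  ei : ℓ' i = ℓ i
  ek : ℓ' k = ℓ k
  ej : ℓ' j = ℓ j - ℓ i - ℓ k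

theorem Redu.same (r : Redu G ℓ ℓ' i j k) {a : Fin 3} (h : a ≠ j) : ℓ' a = ℓ a := by
  rcases r.tri.cases a with h1 | h1 | h1
  · rw [h1]; exact r.ei
  · exact absurd h1 h
  · rw [h1]; exact r.ek

theorem Redu.sum (r : Redu G ℓ ℓ' i j k) {a b : Fin 3} (h : Tri a b j) :
    ℓ' j = ℓ j - ℓ a - ℓ b := by
  rw [r.ej]
  rcases r.tri.cases a with h1 | h1 | h1
  · rcases r.tri.cases b with h2 | h2 | h2
    · exact absurd (h1.trans h2.symm) h.1
    · exact absurd h2 h.2.1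
    · rw [h1, h2]
  · exact absurd h1 h.2.2
  · rcases r.tri.cases b with h2 | h2 | h2
    · rw [h1, h2]; ring
    · exact absurd h2 h.2.1
    · exact absurd (h1.trans h2.symm) h.1

theorem Redu.lt (r : Redu G ℓ ℓ' i j k) {a : Fin 3} (h : a ≠ j) : ℓ a < ℓ j := by
  have h1 := r.lens'.pos j
  rw [r.ej] at h1
  have h2 := r.lens.pos i
  have h3 := r.lens.pos k
  rcases r.tri.cases a with h4 | h4 | h4
  · rw [h4]; linarith
  · exact absurd h4 h
  · rw [h4]; linarith

/-- (γ): a step for `ℓ'` is one step or three steps for `ℓ` -/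
theorem Redu.step (r : Redu G ℓ ℓ' i j k) {v : Pt} (hv : Ok G ℓ' v) :
    g ℓ v = g ℓ' v ∨ ((g ℓ v).ty = j ∧ (g ℓ (g ℓ v)).ty = j ∧ g ℓ (g ℓ (g ℓ v)) = g ℓ' v) := by
  obtain ⟨t, a, d⟩ := v
  obtain ⟨h1, h2, h3, h4⟩ := hv
  simp only at h1 h2 h3 h4
  have htri := tri_of_ne h1
  set m := th t a with hm
  by_cases hmj : m = j
  · right
    rw [hmj] at htri
    have hs := r.sum htri
    have hta : t ≠ j := htri.ik
    have haj : a ≠ j := htri.jk
    have e1 := r.same hta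
    have e2 := r.same haj
    rw [e1] at h3
    have p1 := r.lens'.pos j
    have p2 := r.lens.pos a
    have p3 := r.lens.pos t
    have jta : Tri j t a := ⟨hta.symm, htri.1, haj.symm⟩
    have jat : Tri j a t := ⟨haj.symm, htri.1.symm, hta.symm⟩
    rw [g_lt htri (by linarith)]
    refine ⟨rfl, ?_⟩
    rw [g_gt jta (by linarith)]
    refine ⟨rfl, ?_⟩
    rcases lt_or_gt_of_ne (gen_ne (r.lens'.mem j) h4) with h | h
    · rw [g_lt htri h, g_gt jat (by linarith)]
      congr 1; linarith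
    · rw [g_gt htri h, g_lt jat (by linarith)]
      congr 1; linarith
  · left
    have e := r.same hmj
    rcases lt_or_gt_of_ne (gen_ne (r.lens.mem m) h4) with h | h
    · rw [g_lt htri h, g_lt htri (by rw [e]; exact h), e]
    · rw [g_gt htri h, g_gt htri (by rw [e]; exact h), e]

theorem Redu.hit (r : Redu G ℓ ℓ' i j k) {K : Fin 3} (hK : K ≠ j) : ∀ {n : ℕ} {v w : Pt},
    Ok G ℓ' v → Hit ℓ' K n v w → ∃ m ≤ 3 * n, Hit ℓ K m v w := by
  intro n
  induction n with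
  | zero => intro v w _ h; exact h.elim
  | succ n ih =>
    intro v w hv h
    have hstep := r.step hv
    have hjK : j ≠ K := fun h => hK h.symm
    rcases h with ⟨h0, h1, h2⟩ | ⟨h1, h2⟩
    · subst h0
      rcases hstep with h3 | ⟨h3, h4, h5⟩
      · exact ⟨1, by omega, Hit.one (h3.trans h2) (by rw [← h2]; exact h1)⟩
      · refine ⟨3, by omega, Hit.cons rfl (by rw [h3]; exact hjK)
          (Hit.cons rfl (by rw [h4]; exact hjK) (Hit.one (h5.trans h2) (by rw [← h2]; exact h1)))⟩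
    · obtain ⟨m, hm, hh⟩ := ih (g_ok r.lens' hv) h2
      rcases hstep with h3 | ⟨h3, h4, h5⟩
      · exact ⟨m + 1, by omega, Hit.cons h3 h1 hh⟩
      · exact ⟨m + 1 + 1 + 1, by omega, Hit.cons rfl (by rw [h3]; exact hjK)
          (Hit.cons rfl (by rw [h4]; exact hjK) (Hit.cons h5 h1 hh))⟩

/-- validity for `ℓ'` implies validity for `ℓ` -/
theorem Redu.ok_up (r : Redu G ℓ ℓ' i j k) {v : Pt} (hv : Ok G ℓ' v) : Ok G ℓ v := by
  refine ⟨hv.ne, hv.pos, hv.lt.trans_le ?_, hv.gen⟩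
  by_cases h : v.ty = j
  · rw [h, r.ej]; linarith [r.lens.pos i, r.lens.pos k]
  · rw [r.same h]

theorem Redu.ok_down (r : Redu G ℓ ℓ' i j k) {v : Pt} (hv : Ok G ℓ v) (h : v.ty ≠ j) :
    Ok G ℓ' v := ⟨hv.ne, hv.pos, by rw [r.same h]; exact hv.lt, hv.gen⟩

theorem Redu.srel (r : Redu G ℓ ℓ' i j k) {K : Fin 3} (hK : K ≠ j) {n : ℕ} {s s' : DS}
    (hs : DOk G ℓ K s) (h : SRel ℓ' K n s s') : ∃ m ≤ 3 * n, SRel ℓ K m s s' := by
  obtain ⟨v, hv, hv'⟩ := h
  have e := r.same hK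
  obtain ⟨m, hm, hh⟩ := r.hit hK (v := ⟨K, s.l, s.e⟩)
    ⟨hs.ne, hs.e0, by simp only; rw [e]; exact hs.e1, hs.eg⟩ hv
  exact ⟨m, hm, v, hh, by rw [hv']; unfold nxt; rw [e]⟩

theorem Redu.dok (r : Redu G ℓ ℓ' i j k) {K : Fin 3} (hK : K ≠ j) {s : DS}
    (hs : DOk G ℓ K s) : DOk G ℓ' K s := by
  have e := r.same hK
  exact ⟨hs.ne, hs.e0, by rw [e]; exact hs.e1, hs.f0, by rw [e]; exact hs.f1, hs.eg, hs.fg⟩

theorem Redu.chain (r : Redu G ℓ ℓ' i j k) {K : Fin 3} (hK : K ≠ j) {n : ℕ} {s s' : DS}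
    (hs : DOk G ℓ K s) (h : Chain ℓ' K n s s') : ∃ m ≤ 3 * n, Chain ℓ K m s s' := by
  induction h with
  | one h =>
    obtain ⟨m, hm, h'⟩ := r.srel hK hs h
    exact ⟨m, hm, Chain.one h'⟩
  | cons h _ ih =>
    obtain ⟨m, hm, h'⟩ := r.srel hK hs h
    obtain ⟨m2, hm2, h2⟩ := ih (h'.ok r.lens hs)
    exact ⟨m + m2, by omega, Chain.cons h' h2⟩

theorem Redu.perD (r : Redu G ℓ ℓ' i j k) {K : Fin 3} (hK : K ≠ j) (h : PerD G ℓ' K) :
    PerD G ℓ K := by
  obtain ⟨B, hB⟩ := h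
  refine ⟨3 * B, fun s hs => ?_⟩
  obtain ⟨n, hn, hc⟩ := hB s (r.dok hK hs)
  obtain ⟨m, hm, hc'⟩ := r.chain hK hs hc
  exact ⟨m, by omega, hc'⟩

theorem Hit.iter {K : Fin 3} : ∀ {n : ℕ} {v w : Pt}, Hit ℓ K n v w →
    (g ℓ)^[n] v = w ∧ w.ty = K := by
  intro n
  induction n with
  | zero => intro v w h; exact h.elim
  | succ n ih =>
    intro v w h
    rw [Function.iterate_succ_apply]
    rcases h with ⟨h0, h1, h2⟩ | ⟨_, h2⟩
    · subst h0; exact ⟨h2, by rw [← h2]; exact h1⟩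
    · exact ih h2

/-- prepend steps to a hit -/
theorem Hit.prepend {K : Fin 3} {n m : ℕ} {v w : Pt} (h : Hit ℓ K n ((g ℓ)^[m] v) w) :
    ∃ n' w', n' ≤ n + m ∧ Hit ℓ K n' v w' := by
  obtain ⟨h1, h2⟩ := h.iter
  rw [← Function.iterate_add_apply] at h1
  exact Hit.exists (by have := h.pos; omega) (by rw [h1]; exact h2)

theorem Redu.br (r : Redu G ℓ ℓ' i j k) {K : Fin 3} (hK : K ≠ j) (h : BR G ℓ' K) :
    BR G ℓ K := by
  obtain ⟨B, hB⟩ := h
  have key : ∀ v, Ok G ℓ' v → ∃ n w, n ≤ 3 * B ∧ Hit ℓ K n v w := by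
    intro v hv
    obtain ⟨n, w, hn, hh⟩ := hB v hv
    obtain ⟨m, hm, hh'⟩ := r.hit hK hv hh
    exact ⟨m, w, by omega, hh'⟩
  refine ⟨3 * B + 2, fun v hv => ?_⟩
  by_cases hty : v.ty = j
  · -- after at most two steps we reach a point valid for `ℓ'`
    have : ∃ m ≤ 2, Ok G ℓ' ((g ℓ)^[m] v) := by
      have hL := r.lens
      have hok1 := g_ok hL hv
      have hok2 := g_ok hL hok1
      by_cases h1 : (g ℓ v).ty = j
      · by_cases h2 : (g ℓ (g ℓ v)).ty = j
        · refine ⟨2, le_rfl, ?_⟩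
          show Ok G ℓ' (g ℓ (g ℓ v))
          refine ⟨hok2.ne, hok2.pos, ?_, hok2.gen⟩
          -- two subtractions
          obtain ⟨t, a, d⟩ := v
          simp only at hty
          subst hty
          obtain ⟨c1, c2, c3, c4⟩ := hv
          simp only at c1 c2 c3 c4
          have htri := tri_of_ne c1
          set m := th t a with hm
          rcases lt_or_gt_of_ne (gen_ne (hL.mem m) c4) with h | h
          · rw [g_lt htri h] at h1
            exact absurd h1 htri.ik.symm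
          · have tri2 : Tri t m a := ⟨htri.ik, htri.jk.symm, htri.ij⟩
            rw [g_gt htri h] at h2 ⊢
            rcases lt_or_gt_of_ne (gen_ne (G.add_mem (hL.mem m) (hL.mem a)) c4) with h' | h'
            · rw [g_lt tri2 (by linarith)] at h2
              exact absurd h2 htri.ij.symm
            · rw [g_gt tri2 (by linarith)]
              simp only
              rw [r.sum (a := m) (b := a) ⟨htri.jk.symm, htri.ij.symm, htri.ik.symm⟩]
              linarith
        · exact ⟨2, le_rfl, r.ok_down hok2 h2⟩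
      · exact ⟨1, by norm_num, r.ok_down hok1 h1⟩
    obtain ⟨m, hm, hok⟩ := this
    obtain ⟨n, w, hn, hh⟩ := key _ hok
    obtain ⟨n', w', hn', hh'⟩ := hh.prepend
    exact ⟨n', w', by omega, hh'⟩
  · obtain ⟨n, w, hn, hh⟩ := key v (r.ok_down hv hty)
    exact ⟨n, w, by omega, hh⟩

/-- the longest side is hit within three steps -/
theorem br_max (o : Ord G ℓ i j k) : BR G ℓ k := by
  have hL := o.lens
  have hpi := hL.pos i
  have hij := o.ij
  have hjk := o.jk
  have mi := hL.mem i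
  have mj := hL.mem j
  have mk := hL.mem k
  have htri := o.tri
  obtain ⟨tij, tjk, tik⟩ := o.tri
  refine ⟨4, fun v hv => ?_⟩
  -- `(j,i,·)` and `(i,j,·)` hit `k` in one step, `(i,k,·)` in two, `(j,k,·)` in two,
  -- `(k,·,·)` in at most three
  have h1 : ∀ d, Ok G ℓ ⟨j, i, d⟩ → ((g ℓ)^[1] ⟨j, i, d⟩).ty = k := by
    intro d hd
    show (g ℓ ⟨j, i, d⟩).ty = k
    rw [o.g_ji (hd.lt.trans hjk)]
  have h2 : ∀ d, Ok G ℓ ⟨i, j, d⟩ → ((g ℓ)^[1] ⟨i, j, d⟩).ty = k := by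
    intro d hd
    show (g ℓ ⟨i, j, d⟩).ty = k
    rw [o.g_ij ((hd.lt.trans hij).trans hjk)]
  have h3 : ∀ d, Ok G ℓ ⟨i, k, d⟩ → ((g ℓ)^[2] ⟨i, k, d⟩).ty = k := by
    intro d hd
    have := g_ok hL hd
    rw [Function.iterate_succ_apply]
    rw [o.g_ik (hd.lt.trans hij)] at this ⊢
    exact h1 _ this
  have h4 : ∀ d, Ok G ℓ ⟨j, k, d⟩ → ((g ℓ)^[2] ⟨j, k, d⟩).ty = k := by
    intro d hd
    have := g_ok hL hd
    rw [Function.iterate_succ_apply]
    rcases lt_or_gt_of_ne (gen_ne mi hd.gen) with h | h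
    · simp only at h
      rw [o.g_jk_lt h] at this ⊢
      exact h2 _ this
    · simp only at h
      rw [o.g_jk_gt h] at this ⊢
      exact h1 _ this
  have main : ∃ n, 1 ≤ n ∧ n ≤ 4 ∧ ((g ℓ)^[n] v).ty = k := by
    obtain ⟨t, a, d⟩ := v
    have hne := hv.ne
    simp only at hne
    rcases htri.cases t with h | h | h <;> rcases htri.cases a with h' | h' | h' <;>
      rw [h, h'] at hv hne ⊢
    · exact absurd rfl hne
    · exact ⟨1, by norm_num, by norm_num, h2 _ hv⟩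
    · exact ⟨2, by norm_num, by norm_num, h3 _ hv⟩
    · exact ⟨1, by norm_num, by norm_num, h1 _ hv⟩
    · exact absurd rfl hne
    · exact ⟨2, by norm_num, by norm_num, h4 _ hv⟩
    · have := g_ok hL hv
      rcases lt_or_gt_of_ne (gen_ne mj hv.gen) with h | h
      · simp only at h
        refine ⟨3, by norm_num, by norm_num, ?_⟩
        rw [Function.iterate_succ_apply]
        rw [o.g_ki h] at this ⊢
        exact h4 _ this
      · simp only at h
        refine ⟨1, by norm_num, by norm_num, ?_⟩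
        show (g ℓ ⟨k, i, d⟩).ty = k
        rw [o.g_H1 h]
    · have := g_ok hL hv
      rcases lt_or_gt_of_ne (gen_ne mi hv.gen) with h | h
      · simp only at h
        refine ⟨3, by norm_num, by norm_num, ?_⟩
        rw [Function.iterate_succ_apply]
        rw [o.g_kj h] at this ⊢
        exact h3 _ this
      · simp only at h
        refine ⟨1, by norm_num, by norm_num, ?_⟩
        show (g ℓ ⟨k, j, d⟩).ty = k
        rw [o.g_H3 h]
    · exact absurd rfl hne
  obtain ⟨n, hn1, hn2, hn3⟩ := main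
  obtain ⟨m, w, hm, hh⟩ := Hit.exists hn1 hn3
  exact ⟨m, w, by omega, hh⟩

end

end SympH
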