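import Pool.Agent.W_93b186_h34.Walk

/-!
# The billiard map of a centrally symmetric hexagon modulo the central symmetry
-/

namespace SympH

/-- A state: the mover is a point of type `t` at distance `d` from the end of its side adjacent to
type `l`; the other point is of type `l` and at distance `e` from the end of its side adjacent to
type `t`. -/
@[ext] structure TS where
  t : Fin 3
  l : Fin 3
  d : ℝ
  e : ℝ

/-- the billiard map on states -/
noncomputable def T (ℓ : Fin 3 → ℝ) (s : TS) : TS :=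
  if s.d < ℓ (th s.t s.l) then ⟨s.l, th s.t s.l, ℓ s.l - s.e, s.d⟩
  else ⟨s.l, s.t, s.e, ℓ s.t + ℓ (th s.t s.l) - s.d⟩

/-- exchange of the two points -/
def trev (s : TS) : TS := ⟨s.l, s.t, s.e, s.d⟩

/-- valid states -/
structure TVal (ℓ : Fin 3 → ℝ) (s : TS) : Prop where
  ne : s.t ≠ s.l
  d0 : 0 < s.d
  d1 : s.d < ℓ s.t
  e0 : 0 < s.e
  e1 : s.e < ℓ s.l

/-- valid generic states -/
structure TOk (G : AddSubgroup ℝ) (ℓ : Fin 3 → ℝ) (s : TS) : Prop where
  val : TVal ℓ s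
  dg : s.d ∉ G
  eg : s.e ∉ G

section
variable {G : AddSubgroup ℝ} {ℓ : Fin 3 → ℝ}

theorem T_lt {t l m : Fin 3} (h : Tri t l m) {d e : ℝ} (hd : d < ℓ m) :
    T ℓ ⟨t, l, d, e⟩ = ⟨l, m, ℓ l - e, d⟩ := by
  simp [T, h.th_eq.1, hd]

theorem T_gt {t l m : Fin 3} (h : Tri t l m) {d e : ℝ} (hd : ℓ m < d) :
    T ℓ ⟨t, l, d, e⟩ = ⟨l, t, e, ℓ t + ℓ m - d⟩ := by
  simp [T, h.th_eq.1, not_lt.2 hd.le]

theorem T_val (hp : ∀ a, 0 < ℓ a) {s : TS} (hs : TVal ℓ s) (hd : s.d ≠ ℓ (th s.t s.l)) :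
    TVal ℓ (T ℓ s) := by
  obtain ⟨t, l, d, e⟩ := s
  obtain ⟨h1, h2, h3, h4, h5⟩ := hs
  simp only at h1 h2 h3 h4 h5 hd
  have htri := tri_of_ne h1
  rcases lt_or_gt_of_ne hd with h | h
  · rw [T_lt htri h]
    exact ⟨htri.jk, by simpa using h5, by simpa using h4, h2, h⟩
  · rw [T_gt htri h]
    exact ⟨h1.symm, h4, h5, by simp only; linarith [hp (th t l)], by simp only; linarith⟩

theorem T_ok (hL : Lens G ℓ) {s : TS} (hs : TOk G ℓ s) : TOk G ℓ (T ℓ s) := by
  refine ⟨T_val hL.pos hs.val (gen_ne (hL.mem _) hs.dg), ?_, ?_⟩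
  all_goals
    obtain ⟨t, l, d, e⟩ := s
    obtain ⟨⟨h1, h2, h3, h4, h5⟩, h6, h7⟩ := hs
    simp only at h1 h2 h3 h4 h5 h6 h7
    have htri := tri_of_ne h1
    rcases lt_or_gt_of_ne (gen_ne (hL.mem (th t l)) h6) with h | h
  · rw [T_lt htri h]; exact sub_gen (hL.mem _) h7
  · rw [T_gt htri h]; exact h7
  · rw [T_lt htri h]; exact h6
  · rw [T_gt htri h]; exact sub_gen (G.add_mem (hL.mem _) (hL.mem _)) h6

theorem trev_val {s : TS} (hs : TVal ℓ s) : TVal ℓ (trev s) :=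
  ⟨hs.ne.symm, hs.e0, hs.e1, hs.d0, hs.d1⟩

theorem trev_ok {s : TS} (hs : TOk G ℓ s) : TOk G ℓ (trev s) := ⟨trev_val hs.val, hs.eg, hs.dg⟩

theorem trev_trev (s : TS) : trev (trev s) = s := rfl

/-- time reversal -/
theorem T_trev_T {s : TS} (hs : TVal ℓ s) (hd : s.d ≠ ℓ (th s.t s.l)) :
    T ℓ (trev (T ℓ s)) = trev s := by
  obtain ⟨t, l, d, e⟩ := s
  obtain ⟨h1, h2, h3, h4, h5⟩ := hs
  simp only at h1 h2 h3 h4 h5 hd
  have htri := tri_of_ne h1
  set m := th t l with hm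
  rcases lt_or_gt_of_ne hd with h | h
  · rw [T_lt htri h]
    simp only [trev]
    rw [T_lt (m := t) ⟨htri.jk.symm, htri.ij.symm, htri.ik.symm⟩ h3]
    simp
  · rw [T_gt htri h]
    simp only [trev]
    rw [T_gt htri (by linarith)]
    simp only [TS.mk.injEq, true_and]; ring

theorem T_inj (hL : Lens G ℓ) {s s' : TS} (hs : TOk G ℓ s) (hs' : TOk G ℓ s')
    (h : T ℓ s = T ℓ s') : s = s' := by
  have h1 := T_trev_T hs.val (gen_ne (hL.mem _) hs.dg)
  have h2 := T_trev_T hs'.val (gen_ne (hL.mem _) hs'.dg)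
  rw [h, h2] at h1
  rw [← trev_trev s, ← h1, trev_trev]

/-! ### `D_i` inside the billiard map -/

/-- the embedding of the states of `D_i` -/
noncomputable def embT (ℓ : Fin 3 → ℝ) (i j k : Fin 3) (s : DS) : TS :=
  if s.l = j then ⟨i, j, s.e, ℓ j - ℓ i + s.f⟩ else ⟨j, i, ℓ j - s.e, ℓ i - s.f⟩

/-- the state which travels with the point `(k,a,d)` -/
noncomputable def stT (k : Fin 3) (p : ℝ) (a : Fin 3) (d : ℝ) : TS := ⟨k, a, d, p⟩

variable {i j k : Fin 3}

theorem embT_ok (o : Ord G ℓ i j k) {s : DS} (hs : DOk G ℓ i s) :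
    TOk G ℓ (embT ℓ i j k s) := by
  have hL := o.lens
  have hpi := hL.pos i
  have hij := o.ij
  have hjk := o.jk
  have mi := hL.mem i
  have mj := hL.mem j
  have mk := hL.mem k
  obtain ⟨tij, tjk, tik⟩ := o.tri
  obtain ⟨c1, c2, c3, c4, c5, c6, c7⟩ := hs
  unfold embT
  split_ifs
  · have e : ∀ x : ℝ, ℓ j - ℓ i + x = x + (ℓ j - ℓ i) := fun x => by ring
    exact ⟨⟨tij, c2, c3, by simp only; linarith, by simp only; linarith⟩, c6,
      by simp only; rw [e]; exact add_gen (G.sub_mem mj mi) c7⟩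
  · exact ⟨⟨tij.symm, by simp only; linarith, by simp only; linarith, by simp only; linarith,
      by simp only; linarith⟩, sub_gen mj c6, sub_gen mi c7⟩

theorem walkT (o : Ord G ℓ i j k) {p : ℝ} (hp : 0 < p) (hp' : p < ℓ i) :
    Walk ℓ i j k p (T ℓ) (stT k p) (embT ℓ i j k) := by
  have hL := o.lens
  have hpi := hL.pos i
  have hij := o.ij
  have hjk := o.jk
  obtain ⟨tij, tjk, tik⟩ := o.tri
  have tijk : Tri i j k := ⟨tij, tjk, tik⟩
  have tikj : Tri i k j := ⟨tik, tjk.symm, tij⟩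
  have tjik : Tri j i k := ⟨tij.symm, tik, tjk⟩
  have tjki : Tri j k i := ⟨tjk, tik.symm, tij.symm⟩
  have tkij : Tri k i j := ⟨tik.symm, tij, tjk.symm⟩
  have tkji : Tri k j i := ⟨tjk.symm, tij.symm, tik.symm⟩
  have two : ∀ a b : TS, T ℓ (T ℓ a) = b → (T ℓ)^[2] a = b := fun a b h => h
  constructor
  · intro d h1 h2
    refine R.of (by norm_num) (two _ _ ?_)
    rw [stT, T_gt tkij h1, T_lt tikj (by linarith), stT]
    congr 1; ring
  · intro d h1 h2
    have s1 : (T ℓ)^[2] (stT k p i d) = ⟨j, k, ℓ j - d, ℓ i - p⟩ := by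
      refine two _ _ ?_
      rw [stT, T_lt tkij (by linarith), T_lt tijk (by linarith)]
    have s2 : (T ℓ)^[2] ⟨j, k, ℓ j - d, ℓ i - p⟩ = ⟨j, i, ℓ j - d - ℓ i, ℓ i - p⟩ := by
      refine two _ _ ?_
      rw [T_gt tjki (by linarith), T_lt tkji (by linarith)]
      congr 1; ring
    have s3 : (T ℓ)^[2] ⟨j, i, ℓ j - d - ℓ i, ℓ i - p⟩ = stT k p j (d + ℓ k + ℓ i - ℓ j) := by
      refine two _ _ ?_
      rw [T_lt tjik (by linarith), T_lt tikj (by linarith), stT]
      congr 1 <;> ring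
    refine ⟨6, by norm_num, le_rfl, ?_⟩
    rw [show (6 : ℕ) = 2 + (2 + 2) from rfl, Function.iterate_add_apply,
      Function.iterate_add_apply, s1, s2, s3]
  · intro d h1 h2
    refine R.of (by norm_num) (two _ _ ?_)
    rw [stT, T_gt tkji h1, T_lt tjki (by linarith), stT]
    congr 1; ring
  · intro d h1 h2
    refine R.one ?_
    rw [stT, T_lt tkij h2]
    simp only [embT, if_true, TS.mk.injEq, true_and]
    ring
  · intro d h1 h2
    refine R.one ?_
    rw [stT, T_lt tkji h2]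
    simp only [embT, tjk.symm, if_false, TS.mk.injEq, true_and]
    ring

/-- (C1) the steps of `D_i` are followed by the billiard map -/
theorem embT_srel (o : Ord G ℓ i j k) {s s' : DS} {n : ℕ} (hs : DOk G ℓ i s)
    (h : SRel ℓ i n s s') : R (T ℓ) (2 * n) (embT ℓ i j k s) (embT ℓ i j k s') := by
  have hL := o.lens
  have hpi := hL.pos i
  have hij := o.ij
  have hjk := o.jk
  obtain ⟨tij, tjk, tik⟩ := o.tri
  have tijk : Tri i j k := ⟨tij, tjk, tik⟩
  have tikj : Tri i k j := ⟨tik, tjk.symm, tij⟩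
  have tjik : Tri j i k := ⟨tij.symm, tik, tjk⟩
  have tjki : Tri j k i := ⟨tjk, tik.symm, tij.symm⟩
  refine Walk.srel o (st := stT k) hs (walkT o (parp_pos hs) (parp_lt hs))
    ⟨2, le_rfl, ?_⟩ h
  obtain ⟨l, e, f⟩ := s
  obtain ⟨c1, c2, c3, c4, c5, c6, c7⟩ := hs
  simp only at c1 c2 c3 c4 c5 c6 c7
  show T ℓ (T ℓ _) = _
  have hl : l = j ∨ l = k := by
    rcases o.tri.cases l with h | h | h
    · exact absurd h.symm c1
    · exact Or.inl h
    · exact Or.inr h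
  rcases hl with rfl | rfl
  · simp only [embT, parp, kapL, kapD, if_true, stT]
    rw [T_lt tijk (by linarith), T_lt tjki (by linarith)]
    congr 1; ring
  · simp only [embT, parp, kapL, kapD, tjk.symm, if_false, stT]
    rw [T_lt tjik (by linarith), T_lt tikj (by linarith)]
    congr 1 <;> ring

end

end SympH
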