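import Pool.Agent.W_93b186_h34.Core

/-!
# The walk lemma

Let `ℓ i < ℓ j < ℓ k`.  The `g`-orbit of a point of type `k` passes through points of type `k`
(without meeting type `i`) along the edges `H1, H2, H3` below, until it meets type `i` along one
of the edges `M1, M2`.
-/

namespace SympH

section
variable {G : AddSubgroup ℝ} {ℓ : Fin 3 → ℝ} {i j k : Fin 3}

/-- the orders of the three lengths -/
structure Ord (G : AddSubgroup ℝ) (ℓ : Fin 3 → ℝ) (i j k : Fin 3) : Prop where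
  lens : Lens G ℓ
  tri : Tri i j k
  ij : ℓ i < ℓ j
  jk : ℓ j < ℓ k

/-- `H1`: `(k,i,d) → (k,j,d-ℓ j)` -/
theorem Ord.g_H1 (o : Ord G ℓ i j k) {d : ℝ} (h : ℓ j < d) :
    g ℓ ⟨k, i, d⟩ = ⟨k, j, d - ℓ j⟩ :=
  g_gt ⟨o.tri.ik.symm, o.tri.ij, o.tri.jk.symm⟩ h

/-- `H3`: `(k,j,d) → (k,i,d-ℓ i)` -/
theorem Ord.g_H3 (o : Ord G ℓ i j k) {d : ℝ} (h : ℓ i < d) :
    g ℓ ⟨k, j, d⟩ = ⟨k, i, d - ℓ i⟩ :=
  g_gt ⟨o.tri.jk.symm, o.tri.ij.symm, o.tri.ik.symm⟩ h

theorem Ord.g_ki (o : Ord G ℓ i j k) {d : ℝ} (h : d < ℓ j) :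
    g ℓ ⟨k, i, d⟩ = ⟨j, k, ℓ j - d⟩ :=
  g_lt ⟨o.tri.ik.symm, o.tri.ij, o.tri.jk.symm⟩ h

theorem Ord.g_kj (o : Ord G ℓ i j k) {d : ℝ} (h : d < ℓ i) :
    g ℓ ⟨k, j, d⟩ = ⟨i, k, ℓ i - d⟩ :=
  g_lt ⟨o.tri.jk.symm, o.tri.ij.symm, o.tri.ik.symm⟩ h

theorem Ord.g_jk_gt (o : Ord G ℓ i j k) {d : ℝ} (h : ℓ i < d) :
    g ℓ ⟨j, k, d⟩ = ⟨j, i, d - ℓ i⟩ :=
  g_gt ⟨o.tri.jk, o.tri.ik.symm, o.tri.ij.symm⟩ h

theorem Ord.g_jk_lt (o : Ord G ℓ i j k) {d : ℝ} (h : d < ℓ i) :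
    g ℓ ⟨j, k, d⟩ = ⟨i, j, ℓ i - d⟩ :=
  g_lt ⟨o.tri.jk, o.tri.ik.symm, o.tri.ij.symm⟩ h

theorem Ord.g_ji (o : Ord G ℓ i j k) {d : ℝ} (h : d < ℓ k) :
    g ℓ ⟨j, i, d⟩ = ⟨k, j, ℓ k - d⟩ :=
  g_lt ⟨o.tri.ij.symm, o.tri.ik, o.tri.jk⟩ h

theorem Ord.g_ij (o : Ord G ℓ i j k) {d : ℝ} (h : d < ℓ k) :
    g ℓ ⟨i, j, d⟩ = ⟨k, i, ℓ k - d⟩ :=
  g_lt ⟨o.tri.ij, o.tri.jk, o.tri.ik⟩ h

theorem Ord.g_ik (o : Ord G ℓ i j k) {d : ℝ} (h : d < ℓ j) :
    g ℓ ⟨i, k, d⟩ = ⟨j, i, ℓ j - d⟩ :=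
  g_lt ⟨o.tri.ik, o.tri.jk.symm, o.tri.ij⟩ h

/-- where the walk ends: the state of `D_i` determined by the arrival point `v` -/
noncomputable def endp (ℓ : Fin 3 → ℝ) (i j k : Fin 3) (p : ℝ) (v : Pt) : DS :=
  if v.fc = j then ⟨j, ℓ i - p, v.d⟩ else ⟨k, p, v.d⟩

/-- The data of a walk: `st a d` is the state which corresponds to the point `(k,a,d)` (for a fixed
parameter `p`), `em` embeds the states of `D_i`. -/
structure Walk (ℓ : Fin 3 → ℝ) (i j k : Fin 3) (p : ℝ) {A : Type*} (F : A → A)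
    (st : Fin 3 → ℝ → A) (em : DS → A) : Prop where
  H1 : ∀ d, ℓ j < d → d < ℓ k → R F 2 (st i d) (st j (d - ℓ j))
  H2 : ∀ d, 0 < d → d < ℓ j - ℓ i → R F 6 (st i d) (st j (d + ℓ k + ℓ i - ℓ j))
  H3 : ∀ d, ℓ i < d → d < ℓ k → R F 2 (st j d) (st i (d - ℓ i))
  M1 : ∀ d, ℓ j - ℓ i < d → d < ℓ j → R F 1 (st i d) (em ⟨j, ℓ i - p, ℓ i - ℓ j + d⟩)
  M2 : ∀ d, 0 < d → d < ℓ i → R F 1 (st j d) (em ⟨k, p, ℓ i - d⟩)

theorem Walk.run (o : Ord G ℓ i j k) {p : ℝ} {A : Type*} {F : A → A} {st : Fin 3 → ℝ → A}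
    {em : DS → A} (w : Walk ℓ i j k p F st em) : ∀ (n : ℕ) (a : Fin 3) (d : ℝ) (v : Pt),
    Ok G ℓ ⟨k, a, d⟩ → Hit ℓ i n ⟨k, a, d⟩ v → R F (2 * n) (st a d) (em (endp ℓ i j k p v)) := by
  have hL := o.lens
  have hpi := hL.pos i
  have hij := o.ij
  have hjk := o.jk
  have mi := hL.mem i
  have mj := hL.mem j
  have mk := hL.mem k
  obtain ⟨tij, tjk, tik⟩ := o.tri
  intro n
  induction n using Nat.strong_induction_on with
  | _ n ih =>
  intro a d v hok hh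
  obtain ⟨h1, h2, h3, h4⟩ := hok
  simp only at h1 h2 h3 h4
  have ha : a = i ∨ a = j := by
    rcases o.tri.cases a with h | h | h
    · exact Or.inl h
    · exact Or.inr h
    · exact absurd h.symm h1
  rcases ha with rfl | rfl
  · -- `a = i`
    rcases lt_or_gt_of_ne (gen_ne mj h4) with h | h
    · rcases lt_or_gt_of_ne (gen_ne (G.sub_mem mj mi) h4) with h' | h'
      · -- H2
        obtain ⟨n1, rfl, hh1⟩ := hh.tail (o.g_ki h) (by simpa using tij.symm)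
        obtain ⟨n2, rfl, hh2⟩ := hh1.tail (o.g_jk_gt (by linarith)) (by simpa using tij.symm)
        obtain ⟨n3, rfl, hh3⟩ := hh2.tail (o.g_ji (by linarith)) (by simpa using tik.symm)
        have e : ℓ k - (ℓ j - d - ℓ a) = d + ℓ k + ℓ a - ℓ j := by ring
        rw [e] at hh3
        have hg : d + ℓ k + ℓ a - ℓ j ∉ G := by
          have : d + ℓ k + ℓ a - ℓ j = d + (ℓ k + ℓ a - ℓ j) := by ring
          rw [this]
          exact add_gen (G.sub_mem (G.add_mem mk mi) mj) h4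
        have := ih n3 (by omega) j _ v ⟨tjk.symm, by simp only; linarith, by simp only; linarith,
          hg⟩ hh3
        exact ((w.H2 d h2 h').trans this).mono (by omega)
      · -- M1
        obtain ⟨n1, rfl, hh1⟩ := hh.tail (o.g_ki h) (by simpa using tij.symm)
        obtain ⟨e1, e2⟩ := hh1.head (o.g_jk_lt (by linarith)) rfl
        have e : endp ℓ a j k p v = ⟨j, ℓ a - p, ℓ a - ℓ j + d⟩ := by
          subst e2; simp only [endp, if_true, DS.mk.injEq, true_and]; ring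
        rw [e]
        exact (w.M1 d h' h).mono (by omega)
    · -- H1
      obtain ⟨n1, rfl, hh1⟩ := hh.tail (o.g_H1 h) (by simpa using tik.symm)
      have := ih n1 (by omega) j _ v ⟨tjk.symm, by simp only; linarith,
        by simp only; linarith [hL.pos j], sub_gen' mj h4⟩ hh1
      exact ((w.H1 d h h3).trans this).mono (by omega)
  · rcases lt_or_gt_of_ne (gen_ne mi h4) with h | h
    · -- M2
      obtain ⟨e1, e2⟩ := hh.head (o.g_kj h) rfl
      have e : endp ℓ i a k p v = ⟨k, p, ℓ i - d⟩ := by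
        subst e2; simp [endp, tjk.symm]
      rw [e]
      exact (w.M2 d h2 h).mono (by omega)
    · -- H3
      obtain ⟨n1, rfl, hh1⟩ := hh.tail (o.g_H3 h) (by simpa using tik.symm)
      have := ih n1 (by omega) i _ v ⟨tik.symm, by simp only; linarith,
        by simp only; linarith, sub_gen' mi h4⟩ hh1
      exact ((w.H3 d h h3).trans this).mono (by omega)

/-- the parameter `p` of the walk which starts at a state of `D_i` -/
noncomputable def parp (ℓ : Fin 3 → ℝ) (i j : Fin 3) (s : DS) : ℝ :=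
  if s.l = j then ℓ i - s.f else s.f

/-- the letter and distance of the first point of type `k` on the orbit of `(i, s.l, s.e)` -/
noncomputable def kapL (i j : Fin 3) (s : DS) : Fin 3 := if s.l = j then i else j
noncomputable def kapD (ℓ : Fin 3 → ℝ) (j k : Fin 3) (s : DS) : ℝ :=
  if s.l = j then ℓ k - s.e else ℓ k - ℓ j + s.e

/-- The walk lemma: steps of `D_i` are followed by `F`. -/
theorem Walk.srel (o : Ord G ℓ i j k) {A : Type*} {F : A → A} {st : ℝ → Fin 3 → ℝ → A}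
    {em : DS → A} {s s' : DS} {n : ℕ} (hs : DOk G ℓ i s)
    (w : Walk ℓ i j k (parp ℓ i j s) F (st (parp ℓ i j s)) em)
    (hstart : ∃ m ≤ 2, F^[m] (em s) = st (parp ℓ i j s) (kapL i j s) (kapD ℓ j k s))
    (h : SRel ℓ i n s s') : R F (2 * n) (em s) (em s') := by
  have hL := o.lens
  have hpi := hL.pos i
  have hij := o.ij
  have hjk := o.jk
  have mi := hL.mem i
  have mj := hL.mem j
  have mk := hL.mem k
  obtain ⟨tij, tjk, tik⟩ := o.tri
  obtain ⟨v, hv, rfl⟩ := h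
  obtain ⟨l, e, f⟩ := s
  obtain ⟨c1, c2, c3, c4, c5, c6, c7⟩ := hs
  simp only at c1 c2 c3 c4 c5 c6 c7 hv
  have hvok := (hv.ok hL ⟨c1, c2, c3, c6⟩)
  have hvfc : v.fc = j ∨ v.fc = k := by
    rcases o.tri.cases v.fc with h | h | h
    · exact absurd (hvok.2.trans h.symm) hvok.1.ne
    · exact Or.inl h
    · exact Or.inr h
  have hl : l = j ∨ l = k := by
    rcases o.tri.cases l with h | h | h
    · exact absurd h.symm c1
    · exact Or.inl h
    · exact Or.inr h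
  -- the endpoint
  have hend : endp ℓ i j k (parp ℓ i j ⟨l, e, f⟩) v = nxt ℓ i ⟨l, e, f⟩ v := by
    rcases hl with rfl | rfl <;> rcases hvfc with h | h
    · simp [endp, parp, nxt, h]
    · simp [endp, parp, nxt, h, tjk.symm]
    · simp [endp, parp, nxt, h, tjk, tjk.symm]
    · simp [endp, parp, nxt, h, tjk.symm]
  rw [← hend]
  obtain ⟨m, hm, hst⟩ := hstart
  rcases hl with rfl | rfl
  · obtain ⟨n1, rfl, hh1⟩ := hv.tail (o.g_ij (by linarith)) (by simpa using tik.symm)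
    have := w.run o n1 i (ℓ k - e) v ⟨tik.symm, by simp only; linarith, by simp only; linarith,
      sub_gen mk c6⟩ hh1
    simp only [kapL, kapD, if_true] at hst
    rw [← hst] at this
    obtain ⟨q, q1, q2, q3⟩ := this
    exact ⟨q + m, by omega, by omega, by rw [Function.iterate_add_apply]; exact q3⟩
  · obtain ⟨n1, rfl, hh1⟩ := hv.tail (o.g_ik (by linarith)) (by simpa using tij.symm)
    obtain ⟨n2, rfl, hh2⟩ := hh1.tail (o.g_ji (by linarith)) (by simpa using tik.symm)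
    have e1 : ℓ l - (ℓ j - e) = ℓ l - ℓ j + e := by ring
    rw [e1] at hh2
    have hg : ℓ l - ℓ j + e ∉ G := by
      have : ℓ l - ℓ j + e = e + (ℓ l - ℓ j) := by ring
      rw [this]; exact add_gen (G.sub_mem mk mj) c6
    have := w.run o n2 j (ℓ l - ℓ j + e) v ⟨tjk.symm, by simp only; linarith,
      by simp only; linarith, hg⟩ hh2
    simp only [kapL, kapD, tjk.symm, if_false] at hst
    rw [← hst] at this
    obtain ⟨q, q1, q2, q3⟩ := this
    exact ⟨q + m, by omega, by omega, by rw [Function.iterate_add_apply]; exact q3⟩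

theorem parp_pos {s : DS} (hs : DOk G ℓ i s) : 0 < parp ℓ i j s := by
  unfold parp; split_ifs
  · linarith [hs.f1]
  · exact hs.f0

theorem parp_lt {s : DS} (hs : DOk G ℓ i s) : parp ℓ i j s < ℓ i := by
  unfold parp; split_ifs
  · linarith [hs.f0]
  · exact hs.f1

/-- chains of `D_i` are followed by `F` as soon as steps are -/
theorem Chain.follow (hL : Lens G ℓ) {A : Type*} {F : A → A} {em : DS → A}
    (h : ∀ n s s', DOk G ℓ i s → SRel ℓ i n s s' → R F (2 * n) (em s) (em s')) {n : ℕ} {s s' : DS}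
    (hc : Chain ℓ i n s s') (hs : DOk G ℓ i s) : R F (2 * n) (em s) (em s') := by
  induction hc with
  | one h1 => exact h _ _ _ hs h1
  | cons h1 _ ih =>
    have := (h _ _ _ hs h1).trans (ih (h1.ok hL hs))
    exact this.mono (by omega)

/-! ### The explicit derived system for the longest side -/

/-- the step of the derived system `D_k`, if `ℓ k` is the largest length -/
noncomputable def Sx (ℓ : Fin 3 → ℝ) (i j k : Fin 3) (s : DS) : DS :=
  if s.l = i then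
    if ℓ j < s.e then ⟨j, ℓ k - s.f, s.e - ℓ j⟩
    else if s.e < ℓ j - ℓ i then ⟨j, ℓ k - s.f, s.e + ℓ k + ℓ i - ℓ j⟩
    else ⟨i, s.f, ℓ k + ℓ j - ℓ i - s.e⟩
  else
    if s.e < ℓ i then ⟨j, s.f, ℓ k + ℓ i - ℓ j - s.e⟩
    else ⟨i, ℓ k - s.f, s.e - ℓ i⟩

theorem Sx_i1 {e f : ℝ} (h : ℓ j < e) : Sx ℓ i j k ⟨i, e, f⟩ = ⟨j, ℓ k - f, e - ℓ j⟩ := by
  simp [Sx, h]

theorem Sx_i2 (hij : 0 < ℓ i) {e f : ℝ} (h : e < ℓ j - ℓ i) :
    Sx ℓ i j k ⟨i, e, f⟩ = ⟨j, ℓ k - f, e + ℓ k + ℓ i - ℓ j⟩ := by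
  have : ¬ ℓ j < e := by linarith
  simp [Sx, h, this]

theorem Sx_i3 {e f : ℝ} (h : ℓ j - ℓ i < e) (h' : e < ℓ j) :
    Sx ℓ i j k ⟨i, e, f⟩ = ⟨i, f, ℓ k + ℓ j - ℓ i - e⟩ := by
  have h1 : ¬ ℓ j < e := by linarith
  have h2 : ¬ e < ℓ j - ℓ i := by linarith
  simp only [Sx, h1, h2, if_true, if_false]

theorem Sx_j1 (hij : i ≠ j) {e f : ℝ} (h : e < ℓ i) :
    Sx ℓ i j k ⟨j, e, f⟩ = ⟨j, f, ℓ k + ℓ i - ℓ j - e⟩ := by
  simp [Sx, h, hij.symm]

theorem Sx_j2 (hij : i ≠ j) {e f : ℝ} (h : ℓ i < e) :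
    Sx ℓ i j k ⟨j, e, f⟩ = ⟨i, ℓ k - f, e - ℓ i⟩ := by
  have h1 : ¬ e < ℓ i := by linarith
  simp only [Sx, h1, hij.symm, if_false]

/-- `Sx` is the step of `D_k` -/
theorem Sx_srel (o : Ord G ℓ i j k) {s : DS} (hs : DOk G ℓ k s) :
    ∃ n ≤ 3, SRel ℓ k n s (Sx ℓ i j k s) := by
  have hL := o.lens
  have hpi := hL.pos i
  have hij := o.ij
  have hjk := o.jk
  have mi := hL.mem i
  have mj := hL.mem j
  have mk := hL.mem k
  obtain ⟨tij, tjk, tik⟩ := o.tri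
  obtain ⟨l, e, f⟩ := s
  obtain ⟨c1, c2, c3, c4, c5, c6, c7⟩ := hs
  simp only at c1 c2 c3 c4 c5 c6 c7
  have hl : l = i ∨ l = j := by
    rcases o.tri.cases l with h | h | h
    · exact Or.inl h
    · exact Or.inr h
    · exact absurd h.symm c1
  rcases hl with rfl | rfl
  · rcases lt_or_gt_of_ne (gen_ne mj c6) with h | h
    · rcases lt_or_gt_of_ne (gen_ne (G.sub_mem mj mi) c6) with h' | h'
      · refine ⟨3, le_rfl, ⟨k, j, e + ℓ k + ℓ l - ℓ j⟩, ?_, ?_⟩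
        · refine Hit.cons (o.g_ki h) (by simpa using tjk) ?_
          refine Hit.cons (o.g_jk_gt (by linarith)) (by simpa using tjk) ?_
          refine Hit.one ?_ rfl
          rw [o.g_ji (by linarith)]
          congr 1; ring
        · rw [Sx_i2 hpi h']
          simp [nxt, tij.symm]
      · refine ⟨3, le_rfl, ⟨k, l, ℓ k + ℓ j - ℓ l - e⟩, ?_, ?_⟩
        · refine Hit.cons (o.g_ki h) (by simpa using tjk) ?_
          refine Hit.cons (o.g_jk_lt (by linarith)) (by simpa using tik) ?_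
          refine Hit.one ?_ rfl
          rw [o.g_ij (by linarith)]
          congr 1; ring
        · rw [Sx_i3 h' h]
          simp [nxt]
    · refine ⟨1, by norm_num, ⟨k, j, e - ℓ j⟩, Hit.one (o.g_H1 h) rfl, ?_⟩
      rw [Sx_i1 h]
      simp [nxt, tij.symm]
  · rcases lt_or_gt_of_ne (gen_ne mi c6) with h | h
    · refine ⟨3, le_rfl, ⟨k, l, ℓ k + ℓ i - ℓ l - e⟩, ?_, ?_⟩
      · refine Hit.cons (o.g_kj h) (by simpa using tik) ?_
        refine Hit.cons (o.g_ik (by linarith)) (by simpa using tjk) ?_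
        refine Hit.one ?_ rfl
        rw [o.g_ji (by linarith)]
        congr 1; ring
      · rw [Sx_j1 tij h]
        simp [nxt]
    · refine ⟨1, by norm_num, ⟨k, i, e - ℓ i⟩, Hit.one (o.g_H3 h) rfl, ?_⟩
      rw [Sx_j2 tij h]
      simp [nxt, tij]

theorem Sx_ok (o : Ord G ℓ i j k) {s : DS} (hs : DOk G ℓ k s) : DOk G ℓ k (Sx ℓ i j k s) := by
  obtain ⟨n, _, h⟩ := Sx_srel o hs
  exact h.ok o.lens hs

/-- orbits of `Sx` are chains of `D_k` -/
theorem Sx_chain (o : Ord G ℓ i j k) : ∀ (n : ℕ) (s : DS), DOk G ℓ k s → 1 ≤ n →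
    ∃ m ≤ 3 * n, Chain ℓ k m s ((Sx ℓ i j k)^[n] s) := by
  intro n
  induction n with
  | zero => intro s _ h; omega
  | succ n ih =>
    intro s hs _
    obtain ⟨a, ha, h⟩ := Sx_srel o hs
    rcases Nat.eq_zero_or_pos n with h0 | h0
    · subst h0; exact ⟨a, by omega, Chain.one h⟩
    · obtain ⟨m, hm, hc⟩ := ih _ (Sx_ok o hs) h0
      exact ⟨a + m, by omega, Chain.cons h hc⟩

/-! ### `D_i` inside `D_k` -/

/-- the embedding of the states of `D_i` into the states of `D_k` -/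
noncomputable def emb2 (ℓ : Fin 3 → ℝ) (i j k : Fin 3) (s : DS) : DS :=
  if s.l = j then ⟨i, ℓ k - s.e, ℓ k - s.f⟩ else ⟨j, ℓ k - ℓ j + s.e, ℓ k - ℓ j + s.f⟩

/-- the state which travels with the point `(k,a,d)` -/
noncomputable def st2 (ℓ : Fin 3 → ℝ) (k : Fin 3) (p : ℝ) (a : Fin 3) (d : ℝ) : DS :=
  ⟨a, d, ℓ k - ℓ a + p⟩

theorem emb2_ok (o : Ord G ℓ i j k) {s : DS} (hs : DOk G ℓ i s) :
    DOk G ℓ k (emb2 ℓ i j k s) := by
  have hL := o.lens
  have hpi := hL.pos i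
  have hij := o.ij
  have hjk := o.jk
  have mj := hL.mem j
  have mk := hL.mem k
  obtain ⟨tij, tjk, tik⟩ := o.tri
  obtain ⟨c1, c2, c3, c4, c5, c6, c7⟩ := hs
  unfold emb2
  split_ifs
  · exact ⟨tik.symm, by simp only; linarith, by simp only; linarith, by simp only; linarith,
      by simp only; linarith, sub_gen mk c6, sub_gen mk c7⟩
  · have e : ∀ x : ℝ, ℓ k - ℓ j + x = x + (ℓ k - ℓ j) := fun x => by ring
    exact ⟨tjk.symm, by simp only; linarith, by simp only; linarith, by simp only; linarith,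
      by simp only; linarith, by simp only; rw [e]; exact add_gen (G.sub_mem mk mj) c6,
      by simp only; rw [e]; exact add_gen (G.sub_mem mk mj) c7⟩

theorem walk2 (o : Ord G ℓ i j k) {p : ℝ} (hp : 0 < p) (hp' : p < ℓ i) :
    Walk ℓ i j k p (Sx ℓ i j k) (st2 ℓ k p) (emb2 ℓ i j k) := by
  have hL := o.lens
  have hpi := hL.pos i
  have hij := o.ij
  have hjk := o.jk
  obtain ⟨tij, tjk, tik⟩ := o.tri
  have two : ∀ a b : DS, Sx ℓ i j k (Sx ℓ i j k a) = b → (Sx ℓ i j k)^[2] a = b :=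
    fun a b h => h
  constructor
  · intro d h1 h2
    refine R.of (by norm_num) (two _ _ ?_)
    rw [st2, Sx_i1 h1, Sx_j1 tij (by linarith), st2]
    congr 1; ring
  · intro d h1 h2
    refine (R.of (n := 2) (by norm_num) (two _ _ ?_)).mono (by norm_num)
    rw [st2, Sx_i2 hpi h2, Sx_j1 tij (by linarith), st2]
    congr 1; ring
  · intro d h1 h2
    refine R.of (by norm_num) (two _ _ ?_)
    rw [st2, Sx_j2 tij h1, Sx_i3 (by linarith) (by linarith), st2]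
    congr 1; ring
  · intro d h1 h2
    refine R.one ?_
    rw [st2, Sx_i3 h1 h2]
    simp only [emb2, if_true, DS.mk.injEq, true_and]
    constructor <;> ring
  · intro d h1 h2
    refine R.one ?_
    rw [st2, Sx_j1 tij h2]
    simp only [emb2, tjk.symm, if_false, DS.mk.injEq, true_and]
    ring

/-- (C2) the steps of `D_i` are followed inside `D_k` -/
theorem emb2_srel (o : Ord G ℓ i j k) {s s' : DS} {n : ℕ} (hs : DOk G ℓ i s)
    (h : SRel ℓ i n s s') : R (Sx ℓ i j k) (2 * n) (emb2 ℓ i j k s) (emb2 ℓ i j k s') := by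
  refine Walk.srel o (st := st2 ℓ k) hs (walk2 o (parp_pos hs) (parp_lt hs)) ⟨0, by norm_num, ?_⟩ h
  simp only [Function.iterate_zero, id, emb2, st2, parp, kapL, kapD]
  split_ifs
  · simp only [DS.mk.injEq, true_and]; ring
  · rfl

end

end SympH
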